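import Pool.Agent.Run7.h759.UM.Prime

/-!
# Abelian extensions of a base field
-/

set_option autoImplicit false

namespace Pool.Agent.Run7.h759.UM

open Subgroup Pool.Agent.Q60.MU Pool.Agent.W5h77.MB IntermediateField
open scoped commutatorElement Pointwise ComplexConjugate

/-- `k ⊆ M ⊆ N`, `N / k` is abelian and of degree prime to `p`, and `N / M` is a step. -/
def AbelianStep (p m : ℕ) (k : IntermediateField ℚ Qb) (ℓ : ℕ) (M N : IntermediateField ℚ Qb) :
    Prop :=
  ℓ.Prime ∧ ℓ ≠ p ∧ k ≤ M ∧ AbelianOver k N ∧ ¬ p ∣ Module.finrank ℚ N ∧ UnrStep ℓ m M N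

section

variable (p : ℕ) [hp : Fact p.Prime] (hp2 : p ≠ 2)
  {I : ValuationSubring Qb → Subgroup Gal(Qb/ℚ)}
  (hI : ∀ (g : Gal(Qb/ℚ)) (w : ValuationSubring Qb), ∀ x ∈ I w, g * x * g⁻¹ ∈ I (g • w))
  (hI2 : ∀ A : ValuationSubring Qb, (p : Qb) ∉ A.nonunits → I A ≤ inertia A)
  {k : IntermediateField ℚ Qb} (hk : FiniteDimensional ℚ k)
  (hpk : ¬ p ∣ Module.finrank ℚ k) {m : ℕ} (hm : m ≠ 0) (hmk : MuI p I k)

include hp2 hI hI2 hk hpk hm hmk

theorem abel_core
    (hst : ∀ (ℓ : ℕ) (M N : IntermediateField ℚ Qb), AbelianStep p m k ℓ M N → RelL p I M N)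
    (K : IntermediateField ℚ Qb) (hKd : FiniteDimensional ℚ K) (hkK : k ≤ K)
    (hK : AbelianOver k K) : MuI p I K := by
  have hstk : StableOver k k := by
    intro σ hσ x hx
    rw [(IntermediateField.mem_fixingSubgroup_iff _ _).1 hσ x hx]
    exact hx
  have core := gen_core Pool.Agent.Run7.h594.UM.P1 Pool.Agent.Run7.h594.UM.P2 t_pext t_findec t_rel
    p hp2 hI hI2 (le_refl k) hk hstk
    (fun N => AbelianOver k N ∧ ¬ p ∣ Module.finrank ℚ ↥(N ⊔ k)) (closed_abelian hp.out hk).1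
    (closed_abelian hp.out hk).2 hm hmk (fun ℓ M N hℓ hℓp hkM hN hQN hu => by
      refine hst ℓ M N ⟨hℓ, hℓp, hkM, hQN.1, ?_, hu⟩
      have h1 := hQN.2
      rwa [sup_eq_left.2 (hkM.trans hu.2.1)] at h1)
  -- the field of degree prime to `p`
  have hle : K.fixingSubgroup ≤ k.fixingSubgroup := fixingSubgroup_le hkK
  have hKi := index_ne_zero' K
  have hki := index_ne_zero' k
  have hrel : K.fixingSubgroup.relIndex k.fixingSubgroup ≠ 0 := by
    intro h0
    have h1 := relIndex_mul_index hle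
    rw [h0, zero_mul] at h1
    exact hKi h1.symm
  obtain ⟨L, hKL, hLk, ⟨a, ha⟩, hpL⟩ := exists_sylow hp.out hle (abelian_iff.1 hK) hrel
  have hLo : IsOpen (L : Set Gal(Qb/ℚ)) := Subgroup.isOpen_mono hKL K.fixingSubgroup_isOpen
  have hLi : L.index ≠ 0 := by
    intro h0
    have h1 := relIndex_mul_index hKL
    rw [h0, mul_zero] at h1
    exact hKi h1.symm
  have hfix := fix_fixed hLo
  have hFd := finite_fixed hLo hLi
  have hFK : fixedField L ≤ K := by
    have h1 := fixedField_antitone hKL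
    rwa [InfiniteGalois.fixedField_fixingSubgroup] at h1
  have hkF : k ≤ fixedField L := by
    have h1 := fixedField_antitone hLk
    rwa [InfiniteGalois.fixedField_fixingSubgroup] at h1
  have hFab : AbelianOver k (fixedField L) := fun σ hσ τ hτ x hx => hK σ hσ τ hτ x (hFK hx)
  have hmF : MuI p I (fixedField L) := by
    refine core (fixedField L) hFd hkF (abelian_stable hkF hFab) ⟨hFab, ?_⟩
    rw [sup_eq_left.2 hkF, finrank_eq_fixingSubgroup_index Qb, hfix, ← relIndex_mul_index hLk,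
      hp.out.dvd_mul]
    rintro (h0 | h0)
    · exact hpL h0
    · rw [← finrank_eq_fixingSubgroup_index Qb] at h0
      exact hpk h0
  refine muI_pext t_pext t_findec t_rel p hp2 hI hI2 hKd hFK ?_ (a := a) ?_ hmF
  · intro σ hσ x hx
    rw [hfix] at hσ
    exact abelian_stable hkK hK σ (hLk hσ) x hx
  · rw [hfix, ha]

/-- The relative form. -/
theorem abel_rel :
    (∀ K : IntermediateField ℚ Qb, FiniteDimensional ℚ K → k ≤ K → AbelianOver k K →
      MuI p I K) ↔
    ∀ (ℓ : ℕ) (M N : IntermediateField ℚ Qb), AbelianStep p m k ℓ M N → RelI p I M N := by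
  constructor
  · rintro h ℓ M N ⟨hℓ, hℓp, hkM, hN, hpN, hu⟩
    obtain ⟨C, hC⟩ := h N hu.1 (hkM.trans hu.2.1) hN
    exact ⟨C, fun n R hR => relDeg_of_degI (sup_le_sup_right hu.2.1 _) (hC n R hR)⟩
  · intro h
    refine abel_core p hp2 hI hI2 hk hpk hm hmk fun ℓ M N hs => ?_
    exact relL_of_relI t_rel hp.out hs.1 hs.2.2.2.2.2 (h ℓ M N hs)

/-- The form with one layer. -/
theorem abel_small (hkg : IsGalois ℚ k)
    (hI3 : ∀ A : ValuationSubring Qb, (p : Qb) ∈ A.nonunits → inertia A ≤ I A) :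
    (∀ K : IntermediateField ℚ Qb, FiniteDimensional ℚ K → k ≤ K → AbelianOver k K →
      MuI p I K) ↔
    ∀ (ℓ : ℕ) (M N : IntermediateField ℚ Qb), AbelianStep p m k ℓ M N →
      SmallLayer p I ℓ M N := by
  constructor
  · intro h ℓ M N hs
    exact small_of_relI hp.out hp2 ((abel_rel p hp2 hI hI2 hk hpk hm hmk).1 h ℓ M N hs)
  · intro h
    refine abel_core p hp2 hI hI2 hk hpk hm hmk fun ℓ M N hs => ?_
    have hsm := h ℓ M N hs
    obtain ⟨hℓ, hℓp, hkM, hN, hpN, hu⟩ := hs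
    refine relL_of_oneLayer t_rel s_layer Pool.Agent.Run7.h232.UM.t_Q4 p hp2 hI hI2 hI3 hℓ hℓp hu
      (oneLayer_of_small hp.out hu.1 hpN ?_ hsm)
    intro σ
    refine ⟨Module.finrank ℚ N, hpN, ?_⟩
    have hNd := hu.1
    have hkN : k ≤ N := hkM.trans hu.2.1
    have hle : N.fixingSubgroup ≤ k.fixingSubgroup := fixingSubgroup_le hkN
    have hnor : k.fixingSubgroup.Normal := (InfiniteGalois.normal_iff_isGalois k).2 hkg
    have hn := fixingSubgroup_conj (abelian_stable hkN hN)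
    have hnor' : (N.fixingSubgroup.subgroupOf k.fixingSubgroup).Normal := ⟨fun x hx g => by
      rw [mem_subgroupOf] at hx ⊢
      exact hn g g.2 x hx⟩
    have h1 : σ ^ k.fixingSubgroup.index ∈ k.fixingSubgroup := k.fixingSubgroup.pow_index_mem σ
    have h2 := (N.fixingSubgroup.subgroupOf k.fixingSubgroup).pow_index_mem ⟨_, h1⟩
    rw [mem_subgroupOf] at h2
    have h3 : σ ^ Module.finrank ℚ N ∈ N.fixingSubgroup := by
      have h4 : Module.finrank ℚ N =
          k.fixingSubgroup.index * (N.fixingSubgroup.subgroupOf k.fixingSubgroup).index := by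
        rw [finrank_eq_fixingSubgroup_index Qb, ← relIndex_mul_index hle, mul_comm]
        rfl
      rw [h4, pow_mul]
      exact h2
    exact (IntermediateField.mem_fixingSubgroup_iff _ _).1 h3

end

end Pool.Agent.Run7.h759.UM
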