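import Pool.Agent.Run7.h759.UM.Fld3

/-!
# The general theorem in terms of fields
-/

set_option autoImplicit false

namespace Pool.Agent.Run7.h759.UM

open Subgroup Pool.Agent.Q60.MU Pool.Agent.W5h77.MB IntermediateField
open scoped commutatorElement Pointwise ComplexConjugate

/-- bound for the elementary abelian `p`-extensions which are not met by the groups `I w` -/
def DegI (p : ℕ) (I : ValuationSubring Qb → Subgroup Gal(Qb/ℚ)) (E : IntermediateField ℚ Qb)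
    (C : ℕ) : Prop :=
  ∀ M : IntermediateField ℚ Qb, E ≤ M → FiniteDimensional ℚ M →
    (∀ σ ∈ E.fixingSubgroup, ∀ x ∈ M, σ x ∈ M) →
    (∀ σ ∈ E.fixingSubgroup, ∀ τ ∈ E.fixingSubgroup, ∀ x ∈ M, σ (τ x) = τ (σ x)) →
    (∀ σ ∈ E.fixingSubgroup, ∀ x ∈ M, (σ ^ p) x = x) →
    (∀ w, ∀ σ ∈ I w, σ ∈ E.fixingSubgroup → ∀ x ∈ M, σ x = x) →
    Module.finrank ℚ M ≤ C * Module.finrank ℚ E

/-- bounded in the cyclotomic tower -/
def MuI (p : ℕ) (I : ValuationSubring Qb → Subgroup Gal(Qb/ℚ)) (F : IntermediateField ℚ Qb) :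
    Prop :=
  ∃ C : ℕ, ∀ (n : ℕ) (R : IntermediateField ℚ Qb), IsLayer p n R → DegI p I (F ⊔ R) C

/-- the relative part is bounded in the cyclotomic tower -/
def RelI (p : ℕ) (I : ValuationSubring Qb → Subgroup Gal(Qb/ℚ)) (M N : IntermediateField ℚ Qb) :
    Prop :=
  ∃ C : ℕ, ∀ (n : ℕ) (R : IntermediateField ℚ Qb), IsLayer p n R → RelDeg p I (M ⊔ R) (N ⊔ R) C

/-- `N` is stable under the automorphisms over `a`. -/
def StableOver (a N : IntermediateField ℚ Qb) : Prop := ∀ σ ∈ a.fixingSubgroup, ∀ x ∈ N, σ x ∈ N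

theorem relDeg_of_degI {p : ℕ} {I : ValuationSubring Qb → Subgroup Gal(Qb/ℚ)}
    {M N : IntermediateField ℚ Qb} (hMN : M ≤ N) {C : ℕ} (h : DegI p I N C) : RelDeg p I M N C := by
  intro E hE hEd h1 h2 h3 h4 _
  exact h E hE hEd (fun σ hσ => h1 σ (fixingSubgroup_le hMN hσ)) h2 h3 h4

theorem fixingSubgroup_conj {a N : IntermediateField ℚ Qb} (h : StableOver a N) :
    ∀ σ ∈ a.fixingSubgroup, ∀ x ∈ N.fixingSubgroup, σ * x * σ⁻¹ ∈ N.fixingSubgroup := by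
  intro σ hσ x hx
  rw [IntermediateField.mem_fixingSubgroup_iff] at hx ⊢
  intro y hy
  have h1 : σ⁻¹ y ∈ N := h σ⁻¹ (inv_mem hσ) y hy
  have h2 : (σ * x * σ⁻¹) y = σ (x (σ⁻¹ y)) := rfl
  rw [h2, hx _ h1, ← AlgEquiv.mul_apply, mul_inv_cancel, AlgEquiv.one_apply]

theorem stableOver_fixed {A : Subgroup Gal(Qb/ℚ)} {a : IntermediateField ℚ Qb}
    (hA : a.fixingSubgroup = A) {K : Subgroup Gal(Qb/ℚ)}
    (h : ∀ s ∈ A, ∀ x ∈ K, s * x * s⁻¹ ∈ K) : StableOver a (fixedField K) := by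
  intro σ hσ x hx
  rw [hA] at hσ
  rw [mem_fixedField_iff] at hx ⊢
  intro κ hκ
  have h1 := hx _ (h σ⁻¹ (A.inv_mem hσ) κ hκ)
  have h3 : κ (σ x) = σ ((σ⁻¹ * κ * σ⁻¹⁻¹) x) := by
    rw [← AlgEquiv.mul_apply, ← AlgEquiv.mul_apply]
    congr 1
    group
  rw [h3, h1]

/-- the relative part is bounded in the cyclotomic tower, in terms of groups -/
def RelL (p : ℕ) (I : ValuationSubring Qb → Subgroup Gal(Qb/ℚ)) (M N : IntermediateField ℚ Qb) :
    Prop :=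
  ∃ C : ℕ, ∀ (n : ℕ) (R : IntermediateField ℚ Qb), IsLayer p n R →
    ∀ g ∈ M.fixingSubgroup, g ∉ N.fixingSubgroup → g ∈ R.fixingSubgroup →
      RelLe p I (N.fixingSubgroup ⊓ R.fixingSubgroup) g C

/-- the groups of an extension of prime degree -/
theorem step_groups {ℓ m : ℕ} {M N : IntermediateField ℚ Qb} (hu : UnrStep ℓ m M N) :
    N.fixingSubgroup ≤ M.fixingSubgroup ∧
      (∀ g ∈ M.fixingSubgroup, ∀ x ∈ N.fixingSubgroup, g * x * g⁻¹ ∈ N.fixingSubgroup) ∧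
      N.fixingSubgroup.index ≠ 0 ∧ N.fixingSubgroup.relIndex M.fixingSubgroup = ℓ := by
  obtain ⟨hNd, hMN, hdeg, hst, -⟩ := hu
  have hle : N.fixingSubgroup ≤ M.fixingSubgroup := fixingSubgroup_le hMN
  have hNi := index_ne_zero' N
  refine ⟨hle, fixingSubgroup_conj hst, hNi, ?_⟩
  rw [finrank_eq_fixingSubgroup_index Qb, finrank_eq_fixingSubgroup_index Qb,
    ← relIndex_mul_index hle] at hdeg
  have hMi : M.fixingSubgroup.index ≠ 0 := by
    intro h0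
    rw [← relIndex_mul_index hle, h0, mul_zero] at hNi
    exact hNi rfl
  exact Nat.eq_of_mul_eq_mul_right (Nat.pos_of_ne_zero hMi) hdeg

/-- From degrees to groups. -/
theorem relLe_of_relDeg (t6 : S_rel) {p : ℕ} (hp : p.Prime)
    {I : ValuationSubring Qb → Subgroup Gal(Qb/ℚ)} {ℓ m : ℕ} (hℓ : ℓ.Prime)
    {M N : IntermediateField ℚ Qb} (hu : UnrStep ℓ m M N) {n C : ℕ}
    {R : IntermediateField ℚ Qb} (hR : IsLayer p n R) (hC : RelDeg p I (M ⊔ R) (N ⊔ R) C)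
    (g : Gal(Qb/ℚ)) (hg : g ∈ M.fixingSubgroup) (hgN : g ∉ N.fixingSubgroup)
    (hgR : g ∈ R.fixingSubgroup) : RelLe p I (N.fixingSubgroup ⊓ R.fixingSubgroup) g C := by
  obtain ⟨hle, hn, hNi, hi⟩ := step_groups hu
  have hNd := hu.1
  have hRd := layer_fd hp hR
  have hRn := layer_normal hp hR
  obtain ⟨hgℓ, hcos⟩ := prime_gen hle hn hℓ hi hg hgN
  have hfK : (N ⊔ R).fixingSubgroup = N.fixingSubgroup ⊓ R.fixingSubgroup := fixingSubgroup_sup
  have hfD : (M ⊔ R).fixingSubgroup = M.fixingSubgroup ⊓ R.fixingSubgroup := fixingSubgroup_sup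
  rw [← hfK]
  refine t6.2 p (ValuationSubring Qb) I (M ⊔ R) (N ⊔ R) g ℓ C inferInstance
    (sup_le_sup_right hu.2.1 _) ?_ hℓ.ne_zero ?_ ?_ ?_ hC
  · rw [hfD]
    exact ⟨hg, hgR⟩
  · rw [hfK]
    exact ⟨hgℓ, R.fixingSubgroup.pow_mem hgR ℓ⟩
  · intro σ hσ x hx
    rw [hfD] at hσ
    rw [hfK] at hx ⊢
    exact ⟨hn σ hσ.1 x hx.1, hRn.conj_mem x hx.2 σ⟩
  · intro σ hσ
    rw [hfD] at hσ
    obtain ⟨j, κ, hκ, hj⟩ := hcos σ hσ.1
    refine ⟨j, κ, ?_, hj⟩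
    rw [hfK]
    refine ⟨hκ, ?_⟩
    have h2 : κ = (g ^ j)⁻¹ * σ := by
      rw [hj]
      group
    rw [h2]
    exact R.fixingSubgroup.mul_mem (R.fixingSubgroup.inv_mem (R.fixingSubgroup.pow_mem hgR j)) hσ.2

theorem relL_of_relI (t6 : S_rel) {p : ℕ} (hp : p.Prime)
    {I : ValuationSubring Qb → Subgroup Gal(Qb/ℚ)} {ℓ m : ℕ} (hℓ : ℓ.Prime)
    {M N : IntermediateField ℚ Qb} (hu : UnrStep ℓ m M N) (h : RelI p I M N) :
    RelL p I M N := by
  obtain ⟨C, hC⟩ := h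
  exact ⟨C, fun n R hR => relLe_of_relDeg t6 hp hℓ hu hR (hC n R hR)⟩

/-- **The general theorem**, sufficiency. -/
theorem gen_core (t1 : S_transfer) (t2 : S_comm) (t3 : S_pext) (t5 : S_findec)
    (t6 : S_rel) (p : ℕ) [hp : Fact p.Prime] (hp2 : p ≠ 2)
    {I : ValuationSubring Qb → Subgroup Gal(Qb/ℚ)}
    (hI : ∀ (g : Gal(Qb/ℚ)) (w : ValuationSubring Qb), ∀ x ∈ I w, g * x * g⁻¹ ∈ I (g • w))
    (hI2 : ∀ A : ValuationSubring Qb, (p : Qb) ∉ A.nonunits → I A ≤ inertia A)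
    {a k : IntermediateField ℚ Qb} (hak : a ≤ k) (hk : FiniteDimensional ℚ k)
    (hka : StableOver a k) (Q : IntermediateField ℚ Qb → Prop)
    (hQ1 : ∀ N N', Q N → N' ≤ N → Q N')
    (hQ2 : ∀ N A : IntermediateField ℚ Qb, Q N → FiniteDimensional ℚ A →
      (∃ ℓ : ℕ, ℓ.Prime ∧ ℓ ≠ p ∧ Module.finrank ℚ A = ℓ) →
      (∀ σ τ : Gal(Qb/ℚ), ∀ x ∈ A, σ (τ x) = τ (σ x)) →
      (∀ (ι : Qb →+* ℂ) (c : Gal(Qb/ℚ)), (∀ x, ι (c x) = conj (ι x)) → ∀ x ∈ A, c x = x) →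
      Q (N ⊔ A))
    {m : ℕ} (hm : m ≠ 0) (hmk : MuI p I k)
    (hst : ∀ (ℓ : ℕ) (M N : IntermediateField ℚ Qb), ℓ.Prime → ℓ ≠ p → k ≤ M →
      StableOver a N → Q N → UnrStep ℓ m M N → RelL p I M N)
    (N : IntermediateField ℚ Qb) (hNd : FiniteDimensional ℚ N) (hkN : k ≤ N)
    (hN : StableOver a N) (hQN : Q N) : MuI p I N := by
  have had : FiniteDimensional ℚ a :=
    Submodule.finiteDimensional_of_le (S₁ := Subalgebra.toSubmodule a.toSubalgebra)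
      (S₂ := Subalgebra.toSubmodule k.toSubalgebra) hak
  have main := fld_main t1 t2 t3 t5 p hp2 hI hI2 (A := a.fixingSubgroup)
    (B := k.fixingSubgroup) (fixingSubgroup_le hak) (fixingSubgroup_conj hka)
    (fun K => Q (fixedField K)) (fun K O hK hKO => hQ1 _ _ hK (fixedField_antitone hKO))
    (by
      intro K A₁ hKo hAo hAi hQK hcomm hconj
      obtain ⟨ℓ, hℓ, hℓp, hAℓ⟩ := hAi
      have hAi : A₁.index ≠ 0 := by
        rw [hAℓ]
        exact hℓ.ne_zero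
      have h1 : fixedField (K ⊓ A₁) = fixedField K ⊔ fixedField A₁ := by
        have h2 : (fixedField K ⊔ fixedField A₁).fixingSubgroup = K ⊓ A₁ := by
          rw [fixingSubgroup_sup, fix_fixed hKo, fix_fixed hAo]
        rw [← h2, InfiniteGalois.fixedField_fixingSubgroup]
      show Q (fixedField (K ⊓ A₁))
      rw [h1]
      refine hQ2 _ _ hQK (finite_fixed hAo hAi) ⟨ℓ, hℓ, hℓp, ?_⟩ ?_ ?_
      · rw [finrank_eq_fixingSubgroup_index Qb, fix_fixed hAo, hAℓ]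
      · intro σ τ x hx
        rw [mem_fixedField_iff] at hx
        have h2 := hx _ (hcomm σ⁻¹ τ⁻¹)
        rw [commutatorElement_def] at h2
        have h3 : τ (σ ((σ⁻¹ * τ⁻¹ * σ⁻¹⁻¹ * τ⁻¹⁻¹) x)) = σ (τ x) := by
          rw [← AlgEquiv.mul_apply, ← AlgEquiv.mul_apply, ← AlgEquiv.mul_apply]
          congr 1
          group
        rw [h2] at h3
        exact h3.symm
      · intro ι c hc x hx
        exact (mem_fixedField_iff _ _).1 hx c (hconj ι c hc))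
    hm
    (by
      obtain ⟨C, hC⟩ := hmk
      refine ⟨C, fun n R hR => ?_⟩
      have hRd := layer_fd hp.out hR
      rw [← fixingSubgroup_sup]
      exact (t6.1 p _ I (k ⊔ R) C inferInstance).2 (hC n R hR))
    (by
      intro K' h ℓ hK'B hK'o hK'f hK'A hK'Q hhB hhK' hℓ hℓp hhℓ hu
      have hDo : IsOpen ((K' ⊔ zpowers h : Subgroup Gal(Qb/ℚ)) : Set Gal(Qb/ℚ)) :=
        Subgroup.isOpen_mono le_sup_left hK'o
      have h1 := hst ℓ _ _ hℓ hℓp (by
        rw [← InfiniteGalois.fixedField_fixingSubgroup k]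
        exact fixedField_antitone (sup_zpowers_le hK'B hhB)) (stableOver_fixed rfl hK'A) hK'Q hu
      unfold RelL at h1
      rwa [fix_fixed hK'o, fix_fixed hDo] at h1)
    N.fixingSubgroup (fixingSubgroup_le hkN) N.fixingSubgroup_isOpen (index_ne_zero' N)
    (fixingSubgroup_conj hN) (by
      show Q (fixedField N.fixingSubgroup)
      rw [InfiniteGalois.fixedField_fixingSubgroup]
      exact hQN)
  obtain ⟨C, hC⟩ := main
  refine ⟨C, fun n R hR => ?_⟩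
  have hRd := layer_fd hp.out hR
  have h1 := hC n R hR
  rw [← fixingSubgroup_sup] at h1
  exact (t6.1 p _ I (N ⊔ R) C inferInstance).1 h1

/-- **The general theorem.** -/
theorem gen_main (t1 : S_transfer) (t2 : S_comm) (t3 : S_pext) (t5 : S_findec)
    (t6 : S_rel) (p : ℕ) [hp : Fact p.Prime] (hp2 : p ≠ 2)
    {I : ValuationSubring Qb → Subgroup Gal(Qb/ℚ)}
    (hI : ∀ (g : Gal(Qb/ℚ)) (w : ValuationSubring Qb), ∀ x ∈ I w, g * x * g⁻¹ ∈ I (g • w))
    (hI2 : ∀ A : ValuationSubring Qb, (p : Qb) ∉ A.nonunits → I A ≤ inertia A)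
    {a k : IntermediateField ℚ Qb} (hak : a ≤ k) (hk : FiniteDimensional ℚ k)
    (hka : StableOver a k) (Q : IntermediateField ℚ Qb → Prop) (hQk : Q k)
    (hQ1 : ∀ N N', Q N → N' ≤ N → Q N')
    (hQ2 : ∀ N A : IntermediateField ℚ Qb, Q N → FiniteDimensional ℚ A →
      (∃ ℓ : ℕ, ℓ.Prime ∧ ℓ ≠ p ∧ Module.finrank ℚ A = ℓ) →
      (∀ σ τ : Gal(Qb/ℚ), ∀ x ∈ A, σ (τ x) = τ (σ x)) →
      (∀ (ι : Qb →+* ℂ) (c : Gal(Qb/ℚ)), (∀ x, ι (c x) = conj (ι x)) → ∀ x ∈ A, c x = x) →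
      Q (N ⊔ A))
    {m : ℕ} (hm : m ≠ 0) :
    (∀ N : IntermediateField ℚ Qb, FiniteDimensional ℚ N → k ≤ N → StableOver a N → Q N →
      MuI p I N) ↔
    (MuI p I k ∧ ∀ (ℓ : ℕ) (M N : IntermediateField ℚ Qb), ℓ.Prime → ℓ ≠ p → k ≤ M →
      StableOver a N → Q N → UnrStep ℓ m M N → RelI p I M N) := by
  constructor
  · intro h
    refine ⟨h k hk le_rfl hka hQk, fun ℓ M N hℓ hℓp hkM hN hQN hu => ?_⟩
    obtain ⟨C, hC⟩ := h N hu.1 (hkM.trans hu.2.1) hN hQN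
    exact ⟨C, fun n R hR => relDeg_of_degI (sup_le_sup_right hu.2.1 _) (hC n R hR)⟩
  · rintro ⟨hmk, hst⟩ N hNd hkN hN hQN
    exact gen_core t1 t2 t3 t5 t6 p hp2 hI hI2 hak hk hka Q hQ1 hQ2 hm hmk
      (fun ℓ M N hℓ hℓp hkM hN hQN hu => relL_of_relI t6 hp.out hℓ hu
        (hst ℓ M N hℓ hℓp hkM hN hQN hu)) N hNd hkN hN hQN

/-- Subfields. -/
theorem muI_down (t6 : S_rel) {p : ℕ} (hp : p.Prime)
    {I : ValuationSubring Qb → Subgroup Gal(Qb/ℚ)}
    {F N : IntermediateField ℚ Qb} (hNd : FiniteDimensional ℚ N) (hFN : F ≤ N)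
    (h : MuI p I N) : MuI p I F := by
  obtain ⟨C, hC⟩ := h
  have hFd : FiniteDimensional ℚ F :=
    Submodule.finiteDimensional_of_le (S₁ := Subalgebra.toSubmodule F.toSubalgebra)
      (S₂ := Subalgebra.toSubmodule N.toSubalgebra) hFN
  refine ⟨C * N.fixingSubgroup.index, fun n R hR => ?_⟩
  have hRd := layer_fd hp hR
  have h0 := (t6.1 p _ I (N ⊔ R) C inferInstance).2 (hC n R hR)
  refine (t6.1 p _ I (F ⊔ R) _ inferInstance).1 ?_
  rw [fixingSubgroup_sup] at h0 ⊢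
  have h1 : (N.fixingSubgroup ⊓ R.fixingSubgroup).relIndex (F.fixingSubgroup ⊓ R.fixingSubgroup) =
      N.fixingSubgroup.relIndex (F.fixingSubgroup ⊓ R.fixingSubgroup) := by
    have hle : N.fixingSubgroup ≤ F.fixingSubgroup := fixingSubgroup_le hFN
    rw [← Subgroup.inf_relIndex_right, ← Subgroup.inf_relIndex_right N.fixingSubgroup]
    congr 1
    ext x
    simp only [Subgroup.mem_inf]
    tauto
  have hNi := index_ne_zero' N
  have hNf : N.fixingSubgroup.FiniteIndex := ⟨hNi⟩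
  have h3 : (N.fixingSubgroup ⊓ R.fixingSubgroup).relIndex
      (F.fixingSubgroup ⊓ R.fixingSubgroup) ≠ 0 := by
    rw [h1]
    exact (inferInstance : (N.fixingSubgroup.subgroupOf
      (F.fixingSubgroup ⊓ R.fixingSubgroup)).FiniteIndex).index_ne_zero
  refine (RankLe.of_le (inf_le_inf_right _ (fixingSubgroup_le hFN)) (by
    rw [Subgroup.coe_inf]
    exact N.fixingSubgroup_isOpen.inter R.fixingSubgroup_isOpen) h3 h0).mono ?_
  rw [h1]
  exact Nat.mul_le_mul_left _ (relIndex_le_index _ _ hNi)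

/-- Every number field is contained in one which is Galois over `ℚ` and contains `k`. -/
theorem exists_galois (F k : IntermediateField ℚ Qb) (hF : FiniteDimensional ℚ F)
    (hk : FiniteDimensional ℚ k) : ∃ N : IntermediateField ℚ Qb, FiniteDimensional ℚ N ∧
      F ≤ N ∧ k ≤ N ∧ StableOver ⊥ N := by
  have hU : FiniteDimensional ℚ ↥(F ⊔ k) := inferInstance
  set U := (F ⊔ k).fixingSubgroup with hUdef
  have hUf : U.FiniteIndex := ⟨index_ne_zero' (F ⊔ k)⟩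
  have hKo : IsOpen (U.normalCore : Set Gal(Qb/ℚ)) :=
    isOpen_normalCore (F ⊔ k).fixingSubgroup_isOpen (index_ne_zero' (F ⊔ k))
  have hKf : U.normalCore.index ≠ 0 := by
    have : U.normalCore.FiniteIndex := U.finiteIndex_normalCore
    exact FiniteIndex.index_ne_zero
  have hle : F ⊔ k ≤ fixedField U.normalCore := (le_iff_le _ _).2 (normalCore_le _)
  refine ⟨fixedField U.normalCore, finite_fixed hKo hKf, le_sup_left.trans hle,
    le_sup_right.trans hle, ?_⟩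
  exact stableOver_fixed (A := (⊥ : IntermediateField ℚ Qb).fixingSubgroup) rfl
    (fun s _ x hx => (normalCore_normal U).conj_mem x hx s)

end Pool.Agent.Run7.h759.UM
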