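import Pool.Agent.Run7.h759.UM.Iface

/-!
# Interface of the project UM, second part: one layer is enough
-/

set_option autoImplicit false

namespace Pool.Agent.Run7.h759.UM

open Subgroup Pool.Agent.Q60.MU Pool.Agent.W5h77.MB
open scoped commutatorElement Pointwise ComplexConjugate

/-- the endomorphism `v ↦ g v / v` of an abelian group -/
def Tm {V : Type} [CommGroup V] (g : MulAut V) : Monoid.End V where
  toFun v := g v / v
  map_one' := by simp
  map_mul' v w := by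
    rw [map_mul]
    exact mul_div_mul_comm _ _ _ _

/-- the order of `p` modulo `ℓ` is at least `f` -/
def OrdGe (p ℓ f : ℕ) : Prop := ∀ i, 0 < i → i < f → ¬ ℓ ∣ p ^ i - 1

/-- **Q1.** Let `V` be a finite elementary abelian `p`-group (written multiplicatively), `h` an automorphism with `h ^ ℓ = 1`
without nontrivial fixed points, and `g` an automorphism of `p`-power order which commutes with `h`, `T = g - 1`. If the
index of `T^e V` is less than `p ^ (f e)` then `T^e V = 0`.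

PROOF. `T` is nilpotent: `T ^ (p ^ s) = g ^ (p ^ s) - 1 = 0` (characteristic `p`, `V` is a module over `ZMod p`; or:
`V` is a finite `p`-group with an action of a `p`-group, so a nontrivial stable subgroup `U` satisfies `T U ≠ U`). Let `V_i = T^i V`. If
`V_i = V_(i+1)` for some `i < e` then `V_i = V_(i+k)` for all `k`, so `V_i = 0` and `V_e = 0`. Otherwise `V_i ≠ V_(i+1)` for all `i < e`. All `V_i` are
stable under `h`, and `h` has no nontrivial fixed point on `V_i / V_(i+1)`: if `h v = v w`, `w ∈ V_(i+1)`, `v ∈ V_i`, then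
`u = v * h v * … * h^(ℓ-1) v` is fixed by `h`, so `u = 1`, and `u ≡ v ^ ℓ` modulo `V_(i+1)`, so `v ^ ℓ ∈ V_(i+1)` and `v ∈ V_(i+1)` as
`ℓ` is prime to `p`. So the nontrivial elements of `V_i / V_(i+1)` are permuted by `h` in orbits of length `ℓ` and `ℓ` divides
`|V_i / V_(i+1)| - 1 = p ^ d - 1` (Mathlib: `MulAction.card_modEq_card_fixedPoints` for the group `ZMod ℓ`/`zpowers h` of order `ℓ`);
`d > 0`, so `d ≥ f` by `OrdGe`. So the index of `V_e` is at least `p ^ (f e)`. -/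
def S_nil : Prop := ∀ (p ℓ f e : ℕ) [Fact p.Prime], ℓ.Prime → ℓ ≠ p → OrdGe p ℓ f →
  ∀ (V : Type) [CommGroup V] [Finite V], (∀ v : V, v ^ p = 1) → ∀ h g : MulAut V, h ^ ℓ = 1 →
  (∀ v, h v = v → v = 1) → h * g = g * h → (∃ s, g ^ p ^ s = 1) →
  ((Tm g ^ e : Monoid.End V) : V →* V).range.index < p ^ (f * e) →
  ((Tm g ^ e : Monoid.End V) : V →* V).range = ⊥

/-- the data for the comparison of two layers: `K' ≤ KR ≤ K`, normalised by `K` and `h`, `K = ⟨γ⟩ K'`, `KR = ⟨γ ^ q⟩ K'`, the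
groups `I w` which meet `KR` outside of `K'` contain an element of `γ ^ q₀ K'`, and there is such a group -/
structure Lay {𝔾 : Type} [Group 𝔾] (p : ℕ) {Ω : Type} (I : Ω → Subgroup 𝔾) (K KR K' : Subgroup 𝔾)
    (γ h : 𝔾) (q₀ q : ℕ) : Prop where
  le1 : K' ≤ KR
  le2 : KR ≤ K
  nK : ∀ g ∈ K, ∀ x ∈ K', g * x * g⁻¹ ∈ K'
  nR : ∀ g ∈ K, ∀ x ∈ KR, g * x * g⁻¹ ∈ KR
  hK : ∀ x ∈ K, h * x * h⁻¹ ∈ K
  hR : ∀ x ∈ KR, h * x * h⁻¹ ∈ KR
  hK' : ∀ x ∈ K', h * x * h⁻¹ ∈ K'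
  memγ : γ ∈ K
  gen : ∀ x ∈ K, ∃ i : ℕ, ∃ κ ∈ K', x = γ ^ i * κ
  memq : γ ^ q ∈ KR
  genR : ∀ x ∈ KR, ∃ i : ℕ, ∃ κ ∈ K', x = γ ^ (q * i) * κ
  pow₀ : ∃ a, q₀ = p ^ a
  pow : ∃ b, q = p ^ b
  le : q₀ ≤ q
  powK : ∃ s, γ ^ p ^ s ∈ K'
  comm : ⁅h, γ⁆ ∈ K'
  ram : ∀ w, ∀ σ ∈ I w, σ ∈ KR → σ ∈ K' ∨ ∃ τ ∈ I w, ∃ κ ∈ K', τ = γ ^ q₀ * κ
  ex : ∃ w, ∃ τ ∈ I w, ∃ κ ∈ K', τ = γ ^ q₀ * κ

/-- **Q2.** In the situation of `Lay`, let `W ≤ K'` be as in `RelLe` for `K'` and stable under `K`, and let `We / W = T^e V`, `V = K' / W`,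
`T = γ - 1`, `e = q - q₀`, that is, `We` is the set of the `x ∈ K'` congruent modulo `W` to `e`-fold iterated commutators `⁅γ, ⁅γ, … y⁆⁆`, `y ∈ K'`.
If `RelLe` holds for `KR` with the bound `C`, then `We.relIndex K' ≤ C`.

PROOF. Write `V = K' / W` additively; `K` acts on it by conjugation, `K'` trivially, so through powers of `γ`; `T = γ - 1` commutes with `h` since `⁅h, γ⁆ ∈ K'`;
everything is in characteristic `p`, so `γ ^ (p ^ i) - 1 = T ^ (p ^ i)` on `V`. The subgroup `We` is normal in `K` and stable under `h`.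
(a) For `a ∈ K'` and `m = q / q₀` (a power of `p`): `(γ ^ q₀ a) ^ m = γ ^ q · b` with `b ∈ We`: indeed `b = ∑_(j<m) γ ^ (-q₀ j) a` in `V`, and
`∑_(j<m) X ^ j = (X - 1) ^ (m-1)` in characteristic `p`, so `b = (unit) T ^ (q₀ (m - 1)) a = (unit) T ^ (q - q₀) a ∈ T^e V`.
(b) Let `w₀, τ₀ = γ ^ q₀ κ₀ ∈ I w₀` be as in `ex`, `ρ = τ₀ ^ m ∈ I w₀ ⊓ KR`, so `ρ = γ ^ q · b₀`, `b₀ ∈ We`. Let `U = We ⊔ ⟨ρ⟩`. `ρ` normalises `We`, so every
element of `U` is `ρ ^ i · x`, `x ∈ We`; if `ρ ^ i x ∈ K'` then `ρ ^ i ∈ I w₀ ⊓ K' ⊆ gens p I K' ⊆ W` (elements of `K'` in some `I w` are in `gens`), so `U ⊓ K' = We`. `KR = U K'`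
by `genR` (`γ ^ q = ρ b₀⁻¹`). So `U.relIndex KR = We.relIndex K'`.
(c) `U` satisfies the conditions in `RelLe` for `KR`: it is open (`⊇ W`), of finite index. Commutators: `ρ` acts on `V` as `γ ^ q = 1 + T^q`, and `T^q V ⊆ T^e V`
(`e ≤ q`), so `⁅ρ, K'⁆ ⊆ We`, `⁅K', K'⁆ ⊆ W`, and `KR = ⟨ρ⟩ K'`. `p`-th powers: `KR / U` is a quotient of `K' / We` and abelian. Inertia: let `σ ∈ I w ⊓ KR`. If `σ ∈ K'` then
`σ ∈ W`. Otherwise there is `τ = γ ^ q₀ κ ∈ I w` (`ram`), `σ = γ ^ (q i) κ''` (`genR`), and `τ ^ (m i) = (γ ^ q b)^i ∈ γ ^ (q i) K'` by (a), so `σ⁻¹ τ ^ (m i) ∈ I w ⊓ K' ⊆ W`, and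
`τ ^ m = γ ^ q b = ρ b₀⁻¹ b ∈ U`. So `σ ∈ U`. Stable under `h`: `h ρ h⁻¹ = (h τ₀ h⁻¹) ^ m`, `h τ₀ h⁻¹ = γ ^ q₀ κ₁` with `κ₁ ∈ K'`, so by (a) `h ρ h⁻¹ ∈ γ ^ q We ⊆ U`. No fixed
points: let `x ∈ KR`, `⁅h, x⁆ ∈ U`; write `x = u y`, `u ∈ U`, `y ∈ K'`; then `⁅h, y⁆ ∈ U ⊓ K' = We`, so `y` gives a fixed vector of `V / T^e V`; as `h ^ n` acts trivially on `V`,
`n` prime to `p`, and `h` has no fixed vector in `V`, it has none in `V / T^e V` (`∑_(i<n) h^i y` is fixed, so it is `0` in `V`, and it is `n y` modulo `T^e V`). So `y ∈ We ≤ U`. -/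
def S_unit : Prop := ∀ (𝔾 : Type) [Group 𝔾] [TopologicalSpace 𝔾] [ContinuousMul 𝔾] (p : ℕ)
  [Fact p.Prime] (Ω : Type) (I : Ω → Subgroup 𝔾) (K KR K' : Subgroup 𝔾) (γ h : 𝔾)
  (n q₀ q C : ℕ), Lay p I K KR K' γ h q₀ q → h ^ n ∈ K' → ¬ p ∣ n →
  RelLe p I KR h C →
  ∀ W : Subgroup 𝔾, W ≤ K' → IsOpen (W : Set 𝔾) → W.relIndex K' ≠ 0 → gens p I K' ⊆ W →
    (∀ x ∈ W, h * x * h⁻¹ ∈ W) → (∀ g ∈ K, ∀ x ∈ W, g * x * g⁻¹ ∈ W) →
    (∀ x ∈ K', ⁅h, x⁆ ∈ W → x ∈ W) →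
    ∃ We : Subgroup 𝔾, W ≤ We ∧ We ≤ K' ∧
      (∀ x, x ∈ We ↔ x ∈ K' ∧ ∃ y ∈ K', ((fun z => ⁅γ, z⁆)^[q - q₀] y)⁻¹ * x ∈ W) ∧
      We.relIndex K' ≤ C

/-- **Q3.** One layer is enough: in the situation of `Lay`, if `RelLe` holds for `KR` with a bound
`C < p ^ (f (q - q₀))`, then it holds for `K'` with the same bound.

PROOF (from Q1 and Q2). Let `W` be as in `RelLe` for `K'`. (i) We may assume that `W` is stable under `K`: let `W''` be the intersection of the conjugates `g W g⁻¹`, `g ∈ K`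
(`Pool.Agent.Q60.MU.exists_core` with `D := K`; `K' ` has finite index in `K` by `gen` and `powK`; it gives `W'' ≤ W` stable under `K`; intersect again with the `h`-conjugates or apply `exists_core` with
`D := K ⊔ zpowers h`, so that `W''` is stable under `h` as well), and `W''' = {x ∈ K' | ⁅h, x⁆ ∈ W''}`; this is a subgroup between `W''` and `W` (`⁅h, x⁆ ∈ W'' ≤ W` implies `x ∈ W`), stable under `K` and
`h` (`h` and `g ∈ K` commute modulo `K'`, and `K'` acts trivially on `K' / W''`), and `h` has no nontrivial fixed points on `K' / W'''` (semisimplicity, as in P1: `h ^ ℓ` acts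
trivially and `ℓ ≠ p`). `W'''.relIndex K' ≥ W.relIndex K'`. (ii) For `W` stable under `K` and `h` let `V = K' / W` (quotient group `K' ⧸ W.subgroupOf K'`, a finite elementary abelian
`p`-group), `g`, `h` the automorphisms given by conjugation by `γ`, `h`. Q2 gives `We` of index at most `C < p ^ (f e)`, `e = q - q₀`, and `We / W` is the range of `T^e` (the
iterated commutators `⁅γ, ·⁆` induce `Tm g ^ e`). Q1 gives `We = W`. So `W.relIndex K' ≤ C`. -/
def S_layer : Prop := ∀ (𝔾 : Type) [Group 𝔾] [TopologicalSpace 𝔾] [ContinuousMul 𝔾] (p : ℕ)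
  [Fact p.Prime] (Ω : Type) [MulAction 𝔾 Ω] (I : Ω → Subgroup 𝔾) (K KR K' : Subgroup 𝔾) (γ h : 𝔾)
  (ℓ f q₀ q C : ℕ), (∀ (g : 𝔾) (w : Ω), ∀ x ∈ I w, g * x * g⁻¹ ∈ I (g • w)) →
  Lay p I K KR K' γ h q₀ q → ℓ.Prime → ℓ ≠ p → h ^ ℓ ∈ K' → OrdGe p ℓ f →
  C < p ^ (f * (q - q₀)) → RelLe p I KR h C → RelLe p I K' h C

/-- **Q4.** Total ramification of `p` and cyclicity of the layers of the cyclotomic `ℤ_p`-extension of `ℚ`, `p` odd; there are rings above `p`, and the layers are linearly ordered.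

PROOF. (1) `Gal(R/ℚ)` is a quotient of `Gal(ℚ(z)/ℚ) = (ℤ/p^N)ˣ`, cyclic as `p` is odd; take `γ` with `χ γ` a generator. (2) Let `A` be a ring above `p`, `z` a primitive `p^N`-th
root of unity, `F = ℚ(z)`; all the rings above `p` have the same intersection with `F` (`P5a.comap_eq` of helper903, file `Run7/h759/UM/P5a.lean`), so for `σ ∈ Gal(Qb/ℚ)` there is `g ∈ F.fixingSubgroup` with
`σ • A = g • A` (`P5a.conj_of_comap`), so `σ = g d` with `d` in the decomposition group `D` of `A`. It remains to see that `d ∈ D` can be replaced by an element of the inertia group with the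
same action on `F`: this holds because the inertia group of `A` maps onto the inertia group of the prime of `F` (the kernel of `D → Aut` of the residue field; `D` maps onto the automorphism group of the residue field
extension). Alternative: let `J` be the image of `inertia A` in `Gal(F/ℚ)`, with fixed field `F₀ ⊆ F`. Then `F₀/ℚ` is unramified at `p` (the inertia groups above `p` are conjugate and `Gal(F/ℚ)` is abelian) and at all
other primes (`inertia_le_layer`-like: `ℚ(z)` is unramified away from `p`), so `F₀ = ℚ` by Minkowski (P7a/P7b of helper594, files `Run7/h594/UM/P7a.lean`, `P7b.lean`: an abelian extension of `ℚ` with trivial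
inertia groups is trivial; `degLe_bot`). So `J` is everything. (3) `p ∈ A.nonunits` for some `A`: extend the localisation of `ℤ` at `p` (`ValuationSubring` of `Qb` dominating a local subring:
`LocalSubring.exists_le_valuationSubring`…). (4) Linear order: `R, R' ≤ adjoin {z | z^(p^N) = 1}` for a common `N`, subfields of a cyclic extension with `p`-power degrees. -/
def S_tot : Prop := ∀ p : ℕ, p.Prime → p ≠ 2 →
  (∀ (n : ℕ) (R : IntermediateField ℚ Qb), IsLayer p n R → ∃ γ : Gal(Qb/ℚ), ∀ x : Gal(Qb/ℚ),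
    ∃ i : ℕ, (γ ^ i)⁻¹ * x ∈ R.fixingSubgroup) ∧
  (∀ (n : ℕ) (R : IntermediateField ℚ Qb), IsLayer p n R → ∀ A : ValuationSubring Qb,
    (p : Qb) ∈ A.nonunits → ∀ x : Gal(Qb/ℚ), ∃ σ ∈ inertia A, σ⁻¹ * x ∈ R.fixingSubgroup) ∧
  (∃ A : ValuationSubring Qb, (p : Qb) ∈ A.nonunits) ∧
  (∀ (n n' : ℕ) (R R' : IntermediateField ℚ Qb), IsLayer p n R → IsLayer p n' R' → n ≤ n' →
    R ≤ R') ∧
  (∀ n : ℕ, ∃ R : IntermediateField ℚ Qb, IsLayer p n R)

end Pool.Agent.Run7.h759.UM
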