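import Pool.Agent.Run7.h759.UM.Iface2

/-!
# Interface of the project UM, third part: one layer is enough, without ramification in the tower
-/

set_option autoImplicit false

namespace Pool.Agent.Run7.h759.UM

open Subgroup Pool.Agent.Q60.MU Pool.Agent.W5h77.MB
open scoped commutatorElement Pointwise ComplexConjugate

/-- the data for the comparison of two layers, when the groups `I w` do not meet `K` outside of `K'`: `K' ≤ KR ≤ K`, normalised by `K` and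
`h`, `K = ⟨γ⟩ K'`, `KR = ⟨γ ^ q⟩ K'` -/
structure Lay0 {𝔾 : Type} [Group 𝔾] (p : ℕ) {Ω : Type} (I : Ω → Subgroup 𝔾) (K KR K' : Subgroup 𝔾)
    (γ h : 𝔾) (q : ℕ) : Prop where
  le1 : K' ≤ KR
  le2 : KR ≤ K
  nK : ∀ g ∈ K, ∀ x ∈ K', g * x * g⁻¹ ∈ K'
  nR : ∀ g ∈ K, ∀ x ∈ KR, g * x * g⁻¹ ∈ KR
  hK : ∀ x ∈ K, h * x * h⁻¹ ∈ K
  hR : ∀ x ∈ KR, h * x * h⁻¹ ∈ KR
  hK' : ∀ x ∈ K', h * x * h⁻¹ ∈ K'
  memγ : γ ∈ K
  gen : ∀ x ∈ K, ∃ i : ℕ, ∃ κ ∈ K', x = γ ^ i * κ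
  memq : γ ^ q ∈ KR
  genR : ∀ x ∈ KR, ∃ i : ℕ, ∃ κ ∈ K', x = γ ^ (q * i) * κ
  pow : ∃ b, q = p ^ b
  powK : ∃ s, γ ^ p ^ s ∈ K'
  comm : ⁅h, γ⁆ ∈ K'
  ram : ∀ w, ∀ σ ∈ I w, σ ∈ KR → σ ∈ K'

/-- **Q5.** One layer is enough, without ramification in the tower: in the situation of `Lay0`, if `RelLe` holds for `KR` with a bound
`C < p ^ (f q)`, then it holds for `K'` with the same bound. (Compare `S_layer`, `S_unit`; the proofs of helper321, `Run7/h321/UM/Q3.lean`, and helper429,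
`Run7/h429/UM/Q2.lean`, can be followed closely; here the exponent is `q` and not `q - q₀`.)

PROOF. Let `W` be as in `RelLe` for `K'`. (i) We may assume that `W` is stable under `K` (exactly as in the proof of `S_layer`, Q3). (ii) Let `P / W = K / W`, a finite group:
`K / K'` is cyclic of `p`-power order (`gen`, `powK`) and `V = K' / W` is an elementary abelian `p`-group, so `K / W` is a finite `p`-group; so there is `s` with
`y ^ (p ^ s) ∈ W` for all `y ∈ K`. Let `E` be a natural number with `E ≡ 1 mod ℓ`, `E ≡ 0 mod p ^ s` and `h' = h ^ E`. `h' ^ ℓ = (h ^ ℓ) ^ E ∈ W`, and `h' ∈ h (h ^ ℓ)^ℕ ⊆ h K'`, so `RelLe p I KR h' C`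
and the hypotheses on `W` hold for `h'` as well (`K'` acts trivially on `K' / W` by conjugation and `RelLe` for `KR` depends only on `h KR`: a subgroup which contains `gens p I KR` contains
the commutators of `KR`). (iii) There is `γ' ∈ γ K'` with `⁅h', γ'⁆ ∈ W`: `c(κ) = ⁅h', γ κ⁆ ∈ K'` for `κ ∈ K'`, and modulo `W`: `⁅h', γ κ⁆ = ⁅h', γ⁆ · γ ⁅h', κ⁆ γ⁻¹`. As `h'` has no fixed vector
in the finite group `V`, the map `κ ↦ ⁅h', κ⁆` is a bijection of `V`, so `κ` can be chosen such that `γ ⁅h', κ⁆ γ⁻¹ = ⁅h', γ⁆⁻¹` modulo `W` (`V` is stable under `γ`; `⁅h', γ⁆ ∈ K'` because of `comm` and `nK`, `hK'`). (No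
Schur-Zassenhaus is needed and in fact `h' ^ ℓ ∈ W` is not needed either, if one prefers to work with `h` itself.) Replace `γ` by `γ'`; all conditions in
`Lay0` remain true (`(γ κ) ^ i ∈ γ ^ i K'`). (iv) Now `⁅h, γ⁆ ∈ W`. Let `T = γ - 1` on `V`, `We / W = T ^ q V`, `U = We ⊔ ⟨γ ^ q⟩`. `γ ^ q` acts on `V` as `1 + T ^ q` (characteristic `p`, `q` a power of `p`), so
trivially on `V / T ^ q V`. `U` is normal in `KR`, `KR / U` is a quotient of `K' / We` (`genR`), so `gens p I KR ⊆ U` (for `σ ∈ I w ⊓ KR`: `σ ∈ K'` by `ram` and so `σ ∈ W`). `U` is stable under `h`, since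
`h γ ^ q h⁻¹ = (⁅h, γ⁆ γ) ^ q ∈ W γ ^ q`. No fixed points: `h` commutes with `γ` modulo `W`, so `h` acts on `KR / U`, which is the image of `V / T^q V` (the intersection of `U` and `K'` may be larger than `We`, since a power of `γ ^ q` can be in `K'`:
choose for `W` also... see (v)). (v) The intersection: let `γ ^ (q i) ∈ K'` be a power in `K'`; it commutes with `h` modulo `W`, so it is a fixed vector of `h` in `V`, so it is in `W`. So `U ⊓ K' = We`, and `U.relIndex KR = We.relIndex K'`.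
If `x ∈ KR` and `⁅h, x⁆ ∈ U`, `x = γ ^ (q i) y`, `y ∈ K'`, then `⁅h, y⁆ ∈ U ⊓ K' = We` and `y ∈ We` as in Q2. So `We.relIndex K' = U.relIndex KR ≤ C < p ^ (f q)`, and Q1 (`S_nil` with `e = q`) gives `We = W`, as in Q3. -/
def S_layer0 : Prop := ∀ (𝔾 : Type) [Group 𝔾] [TopologicalSpace 𝔾] [ContinuousMul 𝔾] (p : ℕ)
  [Fact p.Prime] (Ω : Type) [MulAction 𝔾 Ω] (I : Ω → Subgroup 𝔾) (K KR K' : Subgroup 𝔾) (γ h : 𝔾)
  (ℓ f q C : ℕ), (∀ (g : 𝔾) (w : Ω), ∀ x ∈ I w, g * x * g⁻¹ ∈ I (g • w)) →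
  Lay0 p I K KR K' γ h q → ℓ.Prime → ℓ ≠ p → h ^ ℓ ∈ K' → OrdGe p ℓ f →
  C < p ^ (f * q) → RelLe p I KR h C → RelLe p I K' h C

end Pool.Agent.Run7.h759.UM
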