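import Pool.Agent.Run7.h759.UM.P5a

/-!
# Primes of bounded number in the cyclotomic extension
-/

set_option autoImplicit false

namespace Pool.Agent.Run7.h759.UM.P5

open IntermediateField Polynomial Pool.Agent.Q60.MU Pool.Agent.W5h77.MB
open scoped Pointwise

theorem pow_nonunits {A : ValuationSubring Qb} {x : Qb} {k : ℕ} (h : x ^ k ∈ A.nonunits) :
    x ∈ A.nonunits := by
  rw [ValuationSubring.mem_nonunits_iff] at h ⊢
  by_contra hcon
  rw [not_lt] at hcon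
  rw [map_pow] at h
  exact absurd h (not_lt.2 (one_le_pow₀ hcon))

theorem frob_nonunits_iff {r : ℕ} (hr : r.Prime) {A : ValuationSubring Qb}
    (hA : (r : Qb) ∈ A.nonunits) {z : Qb} (hz : IsIntegral ℤ z) (f : ℤ[X]) (k : ℕ) :
    aeval (z ^ r ^ k) f ∈ A.nonunits ↔ aeval z f ∈ A.nonunits := by
  refine ⟨fun h => ?_, fun h => frob_nonunits hr hA hz h k⟩
  induction k generalizing f z with
  | zero => rwa [pow_zero, pow_one] at h
  | succ k ih =>
    rw [pow_succ', pow_mul] at h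
    have h1 := ih (hz.pow r) f h
    obtain ⟨q, hq⟩ := frob_poly hr f
    rw [← expand_aeval, hq, map_add, map_mul, map_pow, aeval_C] at h1
    have h2 : algebraMap ℤ Qb (r : ℤ) = (r : Qb) := by simp
    rw [h2] at h1
    have h3 := sub_mem h1 (mul_nonunits hA (poly_mem hz q))
    rw [add_sub_cancel_right] at h3
    exact pow_nonunits h3

theorem smul_nonunits {A : ValuationSubring Qb} {g : Gal(Qb/ℚ)} {x : Qb} :
    x ∈ (g • A).nonunits ↔ g⁻¹ x ∈ A.nonunits := by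
  rw [ValuationSubring.mem_nonunits_iff_or, ValuationSubring.mem_nonunits_iff_or,
    ValuationSubring.mem_pointwise_smul_iff_inv_smul_mem]
  have h1 : g⁻¹ • x⁻¹ = (g⁻¹ x)⁻¹ := by
    show g⁻¹ x⁻¹ = (g⁻¹ x)⁻¹
    rw [map_inv₀]
  rw [h1]
  have h2 : g⁻¹ x = 0 ↔ x = 0 := by
    rw [map_eq_zero_iff _ (AlgEquiv.injective _)]
  rw [h2]

/-- surjectivity of the cyclotomic character -/
theorem chi_surj {n : ℕ} [NeZero n] {z : Qb} (hz : IsPrimitiveRoot z n) :
    Function.Surjective (hz.autToPow ℚ) := by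
  intro u
  have hpos : 0 < n := NeZero.pos n
  have hz2 : IsPrimitiveRoot (z ^ (u : ZMod n).val) n :=
    hz.pow_of_coprime _ (ZMod.val_coe_unit_coprime u)
  have h1 : IsConjRoot ℚ (z ^ (u : ZMod n).val) z := by
    unfold IsConjRoot
    rw [← cyclotomic_eq_minpoly_rat hz hpos, ← cyclotomic_eq_minpoly_rat hz2 hpos]
  obtain ⟨g, hg⟩ := isConjRoot_iff_exists_algEquiv.1 h1
  refine ⟨g, ?_⟩
  apply Units.ext
  apply ZMod.val_injective
  apply hz.pow_inj (ZMod.val_lt _) (ZMod.val_lt _)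
  exact (hz.autToPow_spec ℚ g).trans hg

/-- subgroups of a cyclic group -/
theorem cyclic_index {C : Type} [CommGroup C] [Finite C] [IsCyclic C] (K : Subgroup C) {x : C}
    (hx : x ∈ K) : ∃ y : C, y ^ K.index = x := by
  obtain ⟨c, hc⟩ := IsCyclic.exists_generator (α := C)
  obtain ⟨k, hk⟩ := Subgroup.mem_zpowers_iff.1 (hc x)
  have h1 : orderOf (QuotientGroup.mk' K c) = K.index := by
    rw [Subgroup.index]
    apply orderOf_eq_card_of_forall_mem_zpowers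
    intro q
    obtain ⟨g, rfl⟩ := QuotientGroup.mk'_surjective K q
    obtain ⟨l, hl⟩ := Subgroup.mem_zpowers_iff.1 (hc g)
    rw [← hl, map_zpow]
    exact Subgroup.mem_zpowers_iff.2 ⟨l, rfl⟩
  have h2 : (QuotientGroup.mk' K c) ^ k = 1 := by
    rw [← map_zpow, hk]
    exact (QuotientGroup.eq_one_iff x).2 hx
  obtain ⟨l, hl⟩ := orderOf_dvd_iff_zpow_eq_one.2 h2
  rw [h1] at hl
  refine ⟨c ^ l, ?_⟩
  rw [← hk, hl, mul_comm, zpow_mul, zpow_natCast]

theorem bound {p N j r : ℕ} (hp : p.Prime) (hr : 2 ≤ r) (hj : j + 1 ≤ N)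
    (y : (ZMod (p ^ N))ˣ) (hy : ((y ^ p ^ j : (ZMod (p ^ N))ˣ) : ZMod (p ^ N)) = (r : ZMod (p ^ N))) :
    p ^ j ≤ r ^ (p - 1) := by
  have hne : NeZero (p ^ N) := ⟨(pow_pos hp.pos N).ne'⟩
  obtain ⟨Y, hY⟩ : ∃ Y : ℕ, Y = (y : ZMod (p ^ N)).val := ⟨_, rfl⟩
  have hYy : (Y : ZMod (p ^ N)) = y := by rw [hY, ZMod.natCast_zmod_val]
  have hcop : Nat.Coprime Y (p ^ N) := by rw [hY]; exact ZMod.val_coe_unit_coprime y
  have hcop2 : IsCoprime (Y : ℤ) (p : ℤ) := by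
    rw [Nat.isCoprime_iff_coprime]
    exact Nat.Coprime.coprime_dvd_right (dvd_pow_self p (by omega)) hcop
  have h1 : (p : ℤ) ∣ (Y : ℤ) ^ (p - 1) - 1 :=
    (Int.ModEq.pow_card_sub_one_eq_one hp hcop2).symm.dvd
  have h2 : ((p : ℤ) ^ (j + 1)) ∣ ((Y : ℤ) ^ (p - 1)) ^ p ^ j - 1 ^ p ^ j :=
    dvd_sub_pow_of_dvd_sub (by exact_mod_cast h1) j
  have h3 : ((p : ℤ) ^ N) ∣ (r : ℤ) - (Y : ℤ) ^ p ^ j := by
    have h4 : (((r : ℤ) - (Y : ℤ) ^ p ^ j : ℤ) : ZMod (p ^ N)) = 0 := by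
      push_cast
      rw [hYy, ← hy]
      push_cast
      exact sub_self _
    have h5 := (ZMod.intCast_zmod_eq_zero_iff_dvd _ _).1 h4
    exact_mod_cast h5
  have h6 : ((p : ℤ) ^ (j + 1)) ∣ (r : ℤ) ^ (p - 1) - ((Y : ℤ) ^ p ^ j) ^ (p - 1) :=
    ((pow_dvd_pow _ hj).trans h3).trans (sub_dvd_pow_sub_pow _ _ _)
  have h7 : ((p : ℤ) ^ (j + 1)) ∣ (r : ℤ) ^ (p - 1) - 1 := by
    have h8 := dvd_add h6 h2
    rw [one_pow, ← pow_mul, ← pow_mul, mul_comm (p - 1) (p ^ j), sub_add_sub_cancel] at h8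
    exact h8
  have h9 : (1 : ℤ) < (r : ℤ) ^ (p - 1) := by
    have h10 : p - 1 ≠ 0 := by have := hp.two_le; omega
    exact one_lt_pow₀ (by exact_mod_cast (by omega : 1 < r)) h10
  have h10 := Int.le_of_dvd (by linarith) h7
  have h11 : (p : ℤ) ^ j ≤ (p : ℤ) ^ (j + 1) :=
    pow_le_pow_right₀ (by exact_mod_cast hp.one_lt.le) (by omega)
  have h12 : (p : ℤ) ^ j ≤ (r : ℤ) ^ (p - 1) := by linarith
  exact_mod_cast h12

/-- an automorphism fixing `z` fixes the layer -/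
theorem mem_fix {p N : ℕ} (hp : p.Prime) {R : IntermediateField ℚ Qb}
    (hN : R ≤ adjoin ℚ {z : Qb | z ^ p ^ N = 1}) {z : Qb} (hz : IsPrimitiveRoot z (p ^ N))
    {σ : Gal(Qb/ℚ)} (hσ : σ z = z) : σ ∈ R.fixingSubgroup := by
  have hne : NeZero (p ^ N) := ⟨(pow_pos hp.pos N).ne'⟩
  have h1 : ∀ w : Qb, w ^ p ^ N = 1 → σ w = w := by
    intro w hw
    obtain ⟨i, -, rfl⟩ := hz.eq_pow_of_pow_eq_one hw
    rw [map_pow, hσ]
  have h2 : adjoin ℚ {z : Qb | z ^ p ^ N = 1} ≤ fixedField (Subgroup.zpowers σ) := by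
    rw [adjoin_le_iff]
    intro z hz
    have h3 : Subgroup.zpowers σ ≤ MulAction.stabilizer Gal(Qb/ℚ) z := by
      rw [Subgroup.zpowers_le]
      exact h1 z hz
    exact (mem_fixedField_iff _ _).2 fun f hf => h3 hf
  rw [IntermediateField.mem_fixingSubgroup_iff]
  intro x hx
  exact (mem_fixedField_iff _ _).1 (h2 (hN hx)) σ (Subgroup.mem_zpowers σ)

/-- all rings above `r` are conjugate -/
theorem conj_all {r : ℕ} (hr : r.Prime) {A B : ValuationSubring Qb} (hA : (r : Qb) ∈ A.nonunits)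
    (hB : (r : Qb) ∈ B.nonunits) : ∃ g : Gal(Qb/ℚ), A = g • B := by
  have hf : Fact (2 : ℕ).Prime := ⟨Nat.prime_two⟩
  have hz : IsPrimitiveRoot (1 : Qb) (2 ^ 0) := by
    rw [pow_zero]
    exact IsPrimitiveRoot.one
  have h1 := comap_eq hz hr hA hB (fun f => by
    rw [nonunits_iff_of_sub_one hr hA (one_mem _) (by rw [sub_self]; exact zero_mem _),
      nonunits_iff_of_sub_one hr hB (one_mem _) (by rw [sub_self]; exact zero_mem _)])
  have hfd : FiniteDimensional ℚ (adjoin ℚ {(1 : Qb)}) :=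
    adjoin.finiteDimensional ((hz.isIntegral (by norm_num)).tower_top)
  obtain ⟨g, -, hg⟩ := conj_of_comap hr _ hB h1
  exact ⟨g, hg⟩

theorem findec : S_findec := by
  intro p hp hp2 r hr
  classical
  have hpf : Fact p.Prime := ⟨hp⟩
  refine ⟨r ^ (p - 1), fun m R hR => ?_⟩
  have ht1 : 1 ≤ r ^ (p - 1) := Nat.one_le_pow _ _ hr.pos
  by_cases hex : ∃ A₀ : ValuationSubring Qb, (r : Qb) ∈ A₀.nonunits
  swap
  · exact ⟨∅, by simp, fun A hA => absurd ⟨A, hA⟩ hex⟩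
  obtain ⟨A₀, hA₀⟩ := hex
  have hHn := layer_normal hp hR
  have hfR := layer_fd hp hR
  obtain ⟨hdeg, N, hN⟩ := hR
  have hne : NeZero (p ^ N) := ⟨(pow_pos hp.pos N).ne'⟩
  have hne' : NeZero ((p ^ N : ℕ) : Qb) := ⟨by exact_mod_cast (pow_pos hp.pos N).ne'⟩
  have hac : IsAlgClosed Qb := AlgebraicClosure.isAlgClosed ℚ
  have hen : HasEnoughRootsOfUnity Qb (p ^ N) := inferInstance
  obtain ⟨z, hz⟩ := hen.prim
  have hzi : IsIntegral ℤ z := hz.isIntegral (pow_pos hp.pos N)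
  have hfz : FiniteDimensional ℚ (adjoin ℚ {z}) := adjoin.finiteDimensional hzi.tower_top
  have hH : ∀ σ : Gal(Qb/ℚ), σ z = z → σ ∈ R.fixingSubgroup := fun σ hσ =>
    mem_fix hp hN hz hσ
  have hHz : ∀ σ ∈ (adjoin ℚ {z}).fixingSubgroup, σ ∈ R.fixingSubgroup := fun σ hσ =>
    hH σ ((IntermediateField.mem_fixingSubgroup_iff _ _).1 hσ z (mem_adjoin_simple_self ℚ z))
  have hidx : R.fixingSubgroup.index = p ^ m := by
    rw [← hdeg, finrank_eq_fixingSubgroup_index Qb R]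
  by_cases hrp : r = p
  · subst hrp
    refine ⟨{A₀}, by rw [Finset.card_singleton]; exact ht1, fun A hA =>
      ⟨A₀, Finset.mem_singleton_self _, ?_⟩⟩
    have hz1 : ∀ B : ValuationSubring Qb, (r : Qb) ∈ B.nonunits → z - 1 ∈ B.nonunits := by
      intro B hB
      have h1 := (frob_nonunits_iff hr hB hzi (X - 1) N).1 (by
        rw [hz.pow_eq_one]
        simp only [map_sub, aeval_X, map_one, sub_self]
        exact zero_mem _)
      simpa using h1
    have h1 := comap_eq hz hr hA hA₀ (fun f => by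
      rw [nonunits_iff_of_sub_one hr hA (integral_mem A hzi) (hz1 A hA),
        nonunits_iff_of_sub_one hr hA₀ (integral_mem A₀ hzi) (hz1 A₀ hA₀)])
    obtain ⟨g, hg, hgA⟩ := conj_of_comap hr _ hA₀ h1
    exact ⟨g, hHz g hg, hgA⟩
  -- the case `r ≠ p`
  have hcop : Nat.Coprime r (p ^ N) :=
    Nat.Coprime.pow_right _ ((Nat.coprime_primes hr hp).2 hrp)
  obtain ⟨rb, hrb⟩ : ∃ rb : (ZMod (p ^ N))ˣ, (rb : ZMod (p ^ N)) = r :=
    ⟨ZMod.unitOfCoprime r hcop, ZMod.coe_unitOfCoprime r hcop⟩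
  obtain ⟨χ, hχ⟩ : ∃ χ : Gal(Qb/ℚ) →* (ZMod (p ^ N))ˣ, χ = hz.autToPow ℚ := ⟨_, rfl⟩
  have hχs : Function.Surjective χ := by rw [hχ]; exact chi_surj hz
  have hχz : ∀ g, z ^ ((χ g : (ZMod (p ^ N))ˣ) : ZMod (p ^ N)).val = g z := fun g => by
    rw [hχ]; exact hz.autToPow_spec ℚ g
  have hker : χ.ker ≤ R.fixingSubgroup := by
    intro g hg
    apply hH
    rw [← hχz g, MonoidHom.mem_ker.1 hg, Units.val_one]
    rcases Nat.lt_or_ge 1 (p ^ N) with h1 | h1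
    · have : Fact (1 < p ^ N) := ⟨h1⟩
      rw [ZMod.val_one, pow_one]
    · have h2 : p ^ N = 1 := by have := Nat.pos_of_ne_zero hne.out; omega
      have h3 : z = 1 := by
        have := hz.pow_eq_one
        rwa [h2, pow_one] at this
      rw [h3, one_pow]
  have hcyc : IsCyclic (ZMod (p ^ N))ˣ := ZMod.isCyclic_units_of_prime_pow p hp hp2 N
  obtain ⟨K, hK⟩ : ∃ K : Subgroup (ZMod (p ^ N))ˣ,
      K = R.fixingSubgroup.map χ ⊔ Subgroup.zpowers rb := ⟨_, rfl⟩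
  have hK1 : K.index ∣ p ^ m := by
    have h1 : (R.fixingSubgroup.map χ).index = p ^ m := by
      rw [Subgroup.index_map_eq _ hχs hker, hidx]
    rw [← h1]
    exact Subgroup.index_dvd_of_le (by rw [hK]; exact le_sup_left)
  obtain ⟨j, hjm, hj⟩ := (Nat.dvd_prime_pow hp).1 hK1
  have hbd : K.index ≤ r ^ (p - 1) := by
    rw [hj]
    rcases Nat.eq_zero_or_pos j with rfl | hj0
    · rw [pow_zero]; exact ht1
    · have h1 : K.index ∣ Nat.card (ZMod (p ^ N))ˣ := K.index_dvd_card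
      rw [hj, Nat.card_eq_fintype_card, ZMod.card_units_eq_totient] at h1
      have hN0 : 0 < N := by
        rcases Nat.eq_zero_or_pos N with rfl | h
        · rw [pow_zero, Nat.totient_one, Nat.dvd_one] at h1
          have := Nat.one_lt_pow hj0.ne' hp.one_lt
          omega
        · exact h
      rw [Nat.totient_prime_pow hp hN0] at h1
      have h2 : Nat.Coprime (p ^ j) (p - 1) := by
        apply Nat.Coprime.pow_left
        have h5 := hp.two_le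
        exact Nat.coprime_of_lt_prime (by omega) (by omega) hp
      have h3 := h2.dvd_of_dvd_mul_right h1
      have h4 := (Nat.pow_dvd_pow_iff_le_right hp.one_lt).1 h3
      obtain ⟨y, hy⟩ := cyclic_index K (x := rb) (by
        rw [hK]; exact Subgroup.mem_sup_right (Subgroup.mem_zpowers rb))
      rw [hj] at hy
      exact bound hp hr.two_le (by omega) y (by rw [hy, hrb])
  obtain ⟨J, hJ⟩ : ∃ J : Subgroup Gal(Qb/ℚ), J = K.comap χ := ⟨_, rfl⟩
  have hJi : J.index = K.index := by rw [hJ]; exact K.index_comap_of_surjective hχs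
  have hJ0 : J.index ≠ 0 := by
    rw [hJi, hj]
    exact (pow_pos hp.pos j).ne'
  have hJf : J.FiniteIndex := ⟨hJ0⟩
  have hfin : Finite (Gal(Qb/ℚ) ⧸ J) := Subgroup.finite_quotient_of_finiteIndex
  have hft : Fintype (Gal(Qb/ℚ) ⧸ J) := Fintype.ofFinite _
  refine ⟨Finset.univ.image (fun q : Gal(Qb/ℚ) ⧸ J => q.out • A₀), ?_, ?_⟩
  · refine Finset.card_image_le.trans ?_
    rw [Finset.card_univ, ← Nat.card_eq_fintype_card]
    have : Nat.card (Gal(Qb/ℚ) ⧸ J) = J.index := rfl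
    rw [this, hJi]
    exact hbd
  · intro A hA
    obtain ⟨g, hg⟩ := conj_all hr hA hA₀
    refine ⟨(g : Gal(Qb/ℚ) ⧸ J).out • A₀, Finset.mem_image_of_mem _ (Finset.mem_univ _), ?_⟩
    obtain ⟨⟨h, hhJ⟩, hh⟩ := QuotientGroup.mk_out_eq_mul J g
    have h1 : χ (h : Gal(Qb/ℚ))⁻¹ ∈ R.fixingSubgroup.map χ ⊔ Subgroup.zpowers rb := by
      rw [← hK]
      have h0 := J.inv_mem hhJ
      rw [hJ] at h0
      exact h0
    obtain ⟨a, ha, b, hb, hab⟩ := Subgroup.mem_sup.1 h1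
    obtain ⟨h2, hh2, rfl⟩ := ha
    obtain ⟨i, rfl⟩ := mem_powers_iff_mem_zpowers.2 hb
    obtain ⟨s, hs⟩ : ∃ s, s = h2⁻¹ * (h : Gal(Qb/ℚ))⁻¹ := ⟨_, rfl⟩
    have hχs' : χ s = rb ^ i := by
      rw [hs, map_mul, map_inv, ← hab]
      simp
    have hsz : s z = z ^ r ^ i := by
      rw [← hχz s, hχs']
      have e1 : ((rb ^ i : (ZMod (p ^ N))ˣ) : ZMod (p ^ N)) = ((r ^ i : ℕ) : ZMod (p ^ N)) := by
        push_cast
        rw [hrb]
      rw [e1, ZMod.val_natCast]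
      conv_rhs => rw [← pow_mod_orderOf]
      rw [← hz.eq_orderOf]
    -- `s` maps `A₀` to an `H`-conjugate
    have hs1 : (r : Qb) ∈ (s⁻¹ • A₀).nonunits := by
      rw [smul_nonunits, inv_inv, map_natCast]
      exact hA₀
    have hs2 := comap_eq hz hr hs1 hA₀ (fun f => by
      rw [smul_nonunits, inv_inv]
      have e1 : s (aeval z f) = aeval (z ^ r ^ i) f := by
        rw [← hsz]
        exact (aeval_algHom_apply ((s : Qb →ₐ[ℚ] Qb).restrictScalars ℤ) z f).symm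
      rw [e1]
      exact frob_nonunits_iff hr hA₀ hzi f i)
    obtain ⟨σ, hσ, hσA⟩ := conj_of_comap hr _ hA₀ hs2
    -- `s⁻¹ • A₀ = σ • A₀`
    have hsA : s • A₀ = (s * σ⁻¹ * s⁻¹) • A₀ := by
      have e1 : A₀ = (s * σ) • A₀ := by
        rw [mul_smul, ← hσA, smul_inv_smul]
      have e2 : (s * σ)⁻¹ • A₀ = A₀ := by
        conv_lhs => rw [e1]
        rw [inv_smul_smul]
      have e3 : (s * σ⁻¹ * s⁻¹) • A₀ = s • A₀ := by
        have e4 : s * σ⁻¹ * s⁻¹ = s * (s * σ)⁻¹ := by group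
        rw [e4, mul_smul, e2]
      exact e3.symm
    have hσH : s * σ⁻¹ * s⁻¹ ∈ R.fixingSubgroup :=
      hHn.conj_mem _ (inv_mem (hHz σ hσ)) s
    refine ⟨(g : Gal(Qb/ℚ) ⧸ J).out * (h2 * (s * σ⁻¹ * s⁻¹)) * ((g : Gal(Qb/ℚ) ⧸ J).out)⁻¹,
      hHn.conj_mem _ (mul_mem hh2 hσH) _, ?_⟩
    rw [mul_smul, inv_smul_smul, mul_smul, mul_smul, ← hsA, ← mul_smul, ← mul_smul, hh, hs, hg]
    congr 1
    group

end Pool.Agent.Run7.h759.UM.P5

namespace Pool.Agent.Run7.h759.UM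

theorem t_findec : S_findec := P5.findec

end Pool.Agent.Run7.h759.UM
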