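import Pool.Agent.Run7.h759.UM.Iface
import Pool.Agent.Q60.MU.Fields

/-!
# Project UM, piece P6
-/

set_option autoImplicit false

namespace Pool.Agent.Run7.h759.UM

open Subgroup Module IntermediateField Pool.Agent.Q60.MU Pool.Agent.W5h77.MB
open scoped Pointwise commutatorElement

theorem rank_gen (p : ℕ) (Ω : Type) (I : Ω → Subgroup Gal(Qb/ℚ)) (E : IntermediateField ℚ Qb)
    (C : ℕ) (hE : FiniteDimensional ℚ E) :
    RankLe p I E.fixingSubgroup C ↔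
      ∀ M : IntermediateField ℚ Qb, E ≤ M → FiniteDimensional ℚ M →
      (∀ σ ∈ E.fixingSubgroup, ∀ x ∈ M, σ x ∈ M) →
      (∀ σ ∈ E.fixingSubgroup, ∀ τ ∈ E.fixingSubgroup, ∀ x ∈ M, σ (τ x) = τ (σ x)) →
      (∀ σ ∈ E.fixingSubgroup, ∀ x ∈ M, (σ ^ p) x = x) →
      (∀ w, ∀ σ ∈ I w, σ ∈ E.fixingSubgroup → ∀ x ∈ M, σ x = x) →
      Module.finrank ℚ M ≤ C * Module.finrank ℚ E := by
  have hK0 := index_ne_zero' E
  constructor
  · intro h M hEM hM h1 h2 h3 h4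
    have hWK : M.fixingSubgroup ≤ E.fixingSubgroup := fixingSubgroup_le hEM
    have hmul := relIndex_mul_index hWK
    have hW0 := index_ne_zero' M
    have h5 := h M.fixingSubgroup hWK M.fixingSubgroup_isOpen (by
      intro h0
      rw [h0, zero_mul] at hmul
      exact hW0 hmul.symm) (by
      rintro x ((⟨a, ha, rfl⟩ | ⟨a, ha, b, hb, rfl⟩) | ⟨hx, w, hw⟩)
      · exact (mem_fixingSubgroup_iff _ _).2 fun x hx => h3 a ha x hx
      · refine (mem_fixingSubgroup_iff _ _).2 fun x hx => ?_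
        have hb' : b⁻¹ x ∈ M := h1 _ (inv_mem hb) x hx
        have ha' : a⁻¹ (b⁻¹ x) ∈ M := h1 _ (inv_mem ha) _ hb'
        have h6 := h2 a ha b hb _ ha'
        show ⁅a, b⁆ x = x
        have h7 : ⁅a, b⁆ x = a (b (a⁻¹ (b⁻¹ x))) := rfl
        have h8 : a (a⁻¹ (b⁻¹ x)) = b⁻¹ x := by
          rw [← AlgEquiv.mul_apply, mul_inv_cancel, AlgEquiv.one_apply]
        have h9 : b (b⁻¹ x) = x := by
          rw [← AlgEquiv.mul_apply, mul_inv_cancel, AlgEquiv.one_apply]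
        rw [h7, h6, h8, h9]
      · exact (mem_fixingSubgroup_iff _ _).2 fun y hy => h4 w x hw hx y hy)
    rw [finrank_eq_fixingSubgroup_index, finrank_eq_fixingSubgroup_index, ← hmul]
    exact Nat.mul_le_mul_right _ h5
  · intro h W hWK hWo hWf hg
    have hmul := relIndex_mul_index hWK
    have hW0 : W.index ≠ 0 := by
      rw [← hmul]
      exact mul_ne_zero hWf hK0
    have hfix := fix_fixed hWo
    have hEM : E ≤ fixedField W := (le_iff_le _ _).2 hWK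
    have hfd := finite_fixed hWo hW0
    have hmem : ∀ x, x ∈ fixedField W ↔ ∀ w ∈ W, w x = x := fun x => mem_fixedField_iff _ _
    have h5 := h (fixedField W) hEM hfd (by
      intro σ hσ x hx
      rw [hmem] at hx ⊢
      intro w hw
      have h1 : ⁅σ⁻¹, w⁆ ∈ W := hg (Or.inl (Or.inr ⟨σ⁻¹, inv_mem hσ, w, hWK hw, rfl⟩))
      have h2 : w (σ x) = σ ((⁅σ⁻¹, w⁆ * w) x) := by
        rw [← AlgEquiv.mul_apply, ← AlgEquiv.mul_apply]
        congr 1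
        rw [commutatorElement_def]
        group
      rw [h2, hx _ (W.mul_mem h1 hw)]) (by
      intro σ hσ τ hτ x hx
      rw [hmem] at hx
      have h1 : ⁅σ⁻¹, τ⁻¹⁆ ∈ W := hg (Or.inl (Or.inr ⟨σ⁻¹, inv_mem hσ, τ⁻¹, inv_mem hτ, rfl⟩))
      have h2 : σ (τ x) = τ (σ (⁅σ⁻¹, τ⁻¹⁆ x)) := by
        rw [← AlgEquiv.mul_apply, ← AlgEquiv.mul_apply, ← AlgEquiv.mul_apply]
        congr 1
        rw [commutatorElement_def]
        group
      rw [h2, hx _ h1]) (by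
      intro σ hσ x hx
      rw [hmem] at hx
      exact hx _ (hg (Or.inl (Or.inl ⟨σ, hσ, rfl⟩)))) (by
      intro A σ hσA hσ x hx
      rw [hmem] at hx
      exact hx _ (hg (Or.inr ⟨hσ, A, hσA⟩)))
    rw [finrank_eq_fixingSubgroup_index, finrank_eq_fixingSubgroup_index, hfix, ← hmul] at h5
    exact Nat.le_of_mul_le_mul_right h5 (Nat.pos_of_ne_zero hK0)

/-- `W` is stable under conjugation by the inverse of `h`. -/
theorem inv_stable {𝔾 : Type} [Group 𝔾] {K W : Subgroup 𝔾} {h : 𝔾} {n : ℕ} (hn : n ≠ 0)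
    (hnK : h ^ n ∈ K) (hKW : ∀ κ ∈ K, ∀ x ∈ W, κ⁻¹ * x * κ ∈ W)
    (hW : ∀ x ∈ W, h * x * h⁻¹ ∈ W) : ∀ x ∈ W, h⁻¹ * x * h ∈ W := by
  have hpow : ∀ (j : ℕ), ∀ x ∈ W, h ^ j * x * (h ^ j)⁻¹ ∈ W := by
    intro j
    induction j with
    | zero => intro x hx; simpa using hx
    | succ j ih =>
      intro x hx
      have h1 := hW _ (ih x hx)
      have h2 : h * (h ^ j * x * (h ^ j)⁻¹) * h⁻¹ = h ^ (j + 1) * x * (h ^ (j + 1))⁻¹ := by
        rw [pow_succ' h j]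
        group
      rwa [h2] at h1
  intro x hx
  obtain ⟨k, rfl⟩ := Nat.exists_eq_succ_of_ne_zero hn
  have h1 := hpow k _ (hKW _ hnK x hx)
  have h2 : h ^ k * ((h ^ (k + 1))⁻¹ * x * h ^ (k + 1)) * (h ^ k)⁻¹ = h⁻¹ * x * h := by
    rw [pow_succ h k]
    group
  rwa [Nat.succ_eq_add_one, h2] at h1

theorem rel_gen (p : ℕ) (Ω : Type) (I : Ω → Subgroup Gal(Qb/ℚ)) (M M' : IntermediateField ℚ Qb)
    (h : Gal(Qb/ℚ)) (n C : ℕ) (hfd' : FiniteDimensional ℚ M') (hMM : M ≤ M')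
    (hh : h ∈ M.fixingSubgroup) (hn : n ≠ 0) (hnK : h ^ n ∈ M'.fixingSubgroup)
    (hst : ∀ σ ∈ M.fixingSubgroup, ∀ x ∈ M'.fixingSubgroup, σ * x * σ⁻¹ ∈ M'.fixingSubgroup)
    (hgen : ∀ σ ∈ M.fixingSubgroup, ∃ (j : ℕ) (κ : Gal(Qb/ℚ)), κ ∈ M'.fixingSubgroup ∧
      σ = h ^ j * κ) (hrel : Run7.h759.UM.RelDeg p I M M' C) :
    Run7.h759.UM.RelLe p I M'.fixingSubgroup h C := by
  intro W hWK hWo hWf hg hWh hfixp
  have hK0 := index_ne_zero' M'
  have hmul := relIndex_mul_index hWK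
  have hW0 : W.index ≠ 0 := by
    rw [← hmul]
    exact mul_ne_zero hWf hK0
  have hfix := fix_fixed hWo
  have hEM : M' ≤ fixedField W := (le_iff_le _ _).2 hWK
  have hfd := finite_fixed hWo hW0
  have hmem : ∀ x, x ∈ fixedField W ↔ ∀ w ∈ W, w x = x := fun x => mem_fixedField_iff _ _
  -- `K` normalises `W`
  have hKW : ∀ κ ∈ M'.fixingSubgroup, ∀ x ∈ W, κ⁻¹ * x * κ ∈ W := by
    intro κ hκ x hx
    have h1 : ⁅κ⁻¹, x⁆ ∈ W := hg (Or.inl (Or.inr ⟨κ⁻¹, inv_mem hκ, x, hWK hx, rfl⟩))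
    have h2 : κ⁻¹ * x * κ = ⁅κ⁻¹, x⁆ * x := by
      rw [commutatorElement_def]
      group
    rw [h2]
    exact W.mul_mem h1 hx
  have hinv := inv_stable hn hnK hKW hWh
  have hinvj : ∀ (j : ℕ), ∀ x ∈ W, (h ^ j)⁻¹ * x * h ^ j ∈ W := by
    intro j
    induction j with
    | zero => intro x hx; simpa using hx
    | succ j ih =>
      intro x hx
      have h1 := hinv _ (ih x hx)
      have h2 : h⁻¹ * ((h ^ j)⁻¹ * x * h ^ j) * h = (h ^ (j + 1))⁻¹ * x * h ^ (j + 1) := by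
        rw [pow_succ h j]
        group
      rwa [h2] at h1
  have hnorm : ∀ σ ∈ M.fixingSubgroup, ∀ x ∈ W, σ⁻¹ * x * σ ∈ W := by
    intro σ hσ x hx
    obtain ⟨j, κ, hκ, rfl⟩ := hgen σ hσ
    have h1 := hKW κ hκ _ (hinvj j x hx)
    have h2 : κ⁻¹ * ((h ^ j)⁻¹ * x * h ^ j) * κ = (h ^ j * κ)⁻¹ * x * (h ^ j * κ) := by
      group
    rwa [h2] at h1
  have hstab : ∀ σ ∈ M.fixingSubgroup, ∀ x ∈ fixedField W, σ x ∈ fixedField W := by
    intro σ hσ x hx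
    rw [hmem] at hx ⊢
    intro w hw
    have h2 : w (σ x) = σ ((σ⁻¹ * w * σ) x) := by
      rw [← AlgEquiv.mul_apply, ← AlgEquiv.mul_apply]
      congr 1
      group
    rw [h2, hx _ (hnorm σ hσ w hw)]
  have hle : M'.fixingSubgroup ≤ M.fixingSubgroup := fixingSubgroup_le hMM
  have h5 := hrel (fixedField W) hEM hfd hstab (by
    intro σ hσ τ hτ x hx
    rw [hmem] at hx
    have h1 : ⁅σ⁻¹, τ⁻¹⁆ ∈ W := hg (Or.inl (Or.inr ⟨σ⁻¹, inv_mem hσ, τ⁻¹, inv_mem hτ, rfl⟩))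
    have h2 : σ (τ x) = τ (σ (⁅σ⁻¹, τ⁻¹⁆ x)) := by
      rw [← AlgEquiv.mul_apply, ← AlgEquiv.mul_apply, ← AlgEquiv.mul_apply]
      congr 1
      rw [commutatorElement_def]
      group
    rw [h2, hx _ h1]) (by
    intro σ hσ x hx
    rw [hmem] at hx
    exact hx _ (hg (Or.inl (Or.inl ⟨σ, hσ, rfl⟩)))) (by
    intro A σ hσA hσ x hx
    rw [hmem] at hx
    exact hx _ (hg (Or.inr ⟨hσ, A, hσA⟩))) (by
    intro σ hσ hcomm x hx
    have hσM := hle hσ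
    have hcW : ⁅h, σ⁆ ∈ W := by
      rw [← hfix]
      refine (mem_fixingSubgroup_iff _ _).2 fun y hy => ?_
      have hy1 : σ⁻¹ y ∈ fixedField W := hstab _ (inv_mem hσM) y hy
      have hy2 : h⁻¹ (σ⁻¹ y) ∈ fixedField W := hstab _ (inv_mem hh) _ hy1
      have h6 := hcomm h hh _ hy2
      show ⁅h, σ⁆ y = y
      have h7 : ⁅h, σ⁆ y = h (σ (h⁻¹ (σ⁻¹ y))) := rfl
      have h8 : h (h⁻¹ (σ⁻¹ y)) = σ⁻¹ y := by
        rw [← AlgEquiv.mul_apply, mul_inv_cancel, AlgEquiv.one_apply]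
      have h9 : σ (σ⁻¹ y) = y := by
        rw [← AlgEquiv.mul_apply, mul_inv_cancel, AlgEquiv.one_apply]
      rw [h7, ← h6, h8, h9]
    have hσW := hfixp σ hσ hcW
    rw [hmem] at hx
    exact hx σ hσW)
  rw [finrank_eq_fixingSubgroup_index, finrank_eq_fixingSubgroup_index, hfix, ← hmul] at h5
  exact Nat.le_of_mul_le_mul_right h5 (Nat.pos_of_ne_zero hK0)

theorem t_rel : Run7.h759.UM.S_rel :=
  ⟨fun p Ω I E C hE => rank_gen p Ω I E C hE,
    fun p Ω I M M' h n C hfd hMM hh hn hnK hst hgen hrel =>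
      rel_gen p Ω I M M' h n C hfd hMM hh hn hnK hst hgen hrel⟩

end Pool.Agent.Run7.h759.UM
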