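import Pool.Agent.Run7.h759.UM.Iface

/-!
# The abstract theorem
-/

set_option autoImplicit false

namespace Pool.Agent.Run7.h759.UM

open Subgroup Pool.Agent.Q60.MU Pool.Agent.W5h77.MB
open scoped commutatorElement Pointwise

variable {𝔾 : Type} [Group 𝔾]

theorem relIndex_inf_dvd {K B D : Subgroup 𝔾} (hKB : K ≤ B)
    (hn : ∀ b ∈ B, ∀ x ∈ K, b * x * b⁻¹ ∈ K) : (K ⊓ D).relIndex (B ⊓ D) ∣ K.relIndex B := by
  have hN : (K.subgroupOf B).Normal := by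
    refine ⟨fun x hx g => ?_⟩
    rw [mem_subgroupOf] at hx ⊢
    exact hn g g.2 x hx
  have h1 : (K ⊓ D).relIndex (B ⊓ D) = (K.subgroupOf B).relIndex ((B ⊓ D).subgroupOf B) := by
    rw [relIndex_subgroupOf inf_le_left]
    have h2 : K ⊓ D = K ⊓ (B ⊓ D) := by
      rw [← inf_assoc, inf_eq_left.2 hKB]
    rw [h2, inf_relIndex_right]
  rw [h1]
  exact relIndex_dvd_index_of_normal _ _

theorem relIndex_le_index (X Y : Subgroup 𝔾) (h : X.index ≠ 0) : X.relIndex Y ≤ X.index := by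
  rw [← relIndex_top_right]
  exact relIndex_le_of_le_right le_top (by rwa [relIndex_top_right])

/-- the elements of prime order different from `p` modulo `K` -/
def Tor (p : ℕ) (B K : Subgroup 𝔾) : Set 𝔾 :=
  {c | c ∈ B ∧ ∃ ℓ : ℕ, ℓ.Prime ∧ ℓ ≠ p ∧ c ^ ℓ ∈ K}

theorem mul_pow_mem {K B : Subgroup 𝔾} (hKB : K ≤ B) (hn : ∀ b ∈ B, ∀ x ∈ K, b * x * b⁻¹ ∈ K)
    {c h : 𝔾} (hc : c ∈ B) (hch : c⁻¹ * h ∈ K) (n : ℕ) : (c ^ n)⁻¹ * h ^ n ∈ K := by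
  induction n with
  | zero => simp
  | succ n ih =>
    have hb : h⁻¹ ∈ B := by
      have h1 : h = c * (c⁻¹ * h) := by group
      rw [h1]
      exact B.inv_mem (B.mul_mem hc (hKB hch))
    have h1 := hn h⁻¹ hb _ ih
    have h2 : (c ^ (n + 1))⁻¹ * h ^ (n + 1) =
        (c⁻¹ * h) * (h⁻¹ * ((c ^ n)⁻¹ * h ^ n) * h⁻¹⁻¹) := by
      rw [pow_succ c, pow_succ h]
      group
    rw [h2]
    exact K.mul_mem hch h1

theorem pow_mem_of {K B : Subgroup 𝔾} (hKB : K ≤ B) (hn : ∀ b ∈ B, ∀ x ∈ K, b * x * b⁻¹ ∈ K)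
    {c h : 𝔾} (hc : c ∈ B) (hch : c⁻¹ * h ∈ K) {n : ℕ} (hcn : c ^ n ∈ K) : h ^ n ∈ K := by
  have h1 := mul_pow_mem hKB hn hc hch n
  have h2 : h ^ n = c ^ n * ((c ^ n)⁻¹ * h ^ n) := by group
  rw [h2]
  exact K.mul_mem hcn h1

/-- a finite set of representatives -/
theorem exists_reps {K B : Subgroup 𝔾} (hKB : K ≤ B) (hf : K.relIndex B ≠ 0)
    (hn : ∀ b ∈ B, ∀ x ∈ K, b * x * b⁻¹ ∈ K) (p : ℕ) :
    ∃ T : Finset 𝔾, (∀ c ∈ T, c ∈ Tor p B K ∧ c ∉ K) ∧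
      ∀ c ∈ Tor p B K, c ∈ K ∨ ∃ c' ∈ T, c'⁻¹ * c ∈ K := by
  classical
  have hfi : (K.subgroupOf B).FiniteIndex := ⟨hf⟩
  have hfin : Fintype (B ⧸ K.subgroupOf B) := Fintype.ofFinite _
  refine ⟨(Finset.univ.image fun q : B ⧸ K.subgroupOf B => ((q.out : B) : 𝔾)).filter
    (fun c => c ∈ Tor p B K ∧ c ∉ K), fun c hc => (Finset.mem_filter.1 hc).2, ?_⟩
  rintro c ⟨hcB, ℓ, hℓ, hℓp, hc⟩
  by_cases hcK : c ∈ K
  · exact Or.inl hcK
  right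
  obtain ⟨κ, hκ⟩ := QuotientGroup.mk_out_eq_mul (K.subgroupOf B) (⟨c, hcB⟩ : B)
  set c' : 𝔾 := (((((⟨c, hcB⟩ : B) : B ⧸ K.subgroupOf B)).out : B) : 𝔾) with hc'
  have h1 : c' = c * κ := by
    rw [hc', hκ]
    rfl
  have hκK : ((κ : B) : 𝔾) ∈ K := κ.2
  have h2 : c⁻¹ * c' ∈ K := by
    rw [h1, inv_mul_cancel_left]
    exact hκK
  have h3 : c'⁻¹ * c ∈ K := by
    have h4 : c'⁻¹ * c = (c⁻¹ * c')⁻¹ := by group
    rw [h4]
    exact K.inv_mem h2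
  refine ⟨c', ?_, h3⟩
  rw [Finset.mem_filter]
  refine ⟨Finset.mem_image_of_mem _ (Finset.mem_univ _), ⟨?_, ℓ, hℓ, hℓp, ?_⟩, ?_⟩
  · rw [h1]
    exact B.mul_mem hcB (hKB hκK)
  · exact pow_mem_of hKB hn hcB h2 hc
  · intro h5
    apply hcK
    have h6 : c = c' * (c'⁻¹ * c) := by group
    rw [h6]
    exact K.mul_mem h5 h3

/-- no elements of prime order different from `p`: a `p`-group -/
theorem pgroup_of_empty {K B : Subgroup 𝔾} (hKB : K ≤ B) (hf : K.relIndex B ≠ 0)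
    (hn : ∀ b ∈ B, ∀ x ∈ K, b * x * b⁻¹ ∈ K) (p : ℕ) [hp : Fact p.Prime]
    (h : ∀ c ∈ Tor p B K, c ∈ K) : ∃ a, K.relIndex B = p ^ a := by
  classical
  have hN : (K.subgroupOf B).Normal := by
    refine ⟨fun x hx g => ?_⟩
    rw [mem_subgroupOf] at hx ⊢
    exact hn g g.2 x hx
  have hfi : (K.subgroupOf B).FiniteIndex := ⟨hf⟩
  have hfin : Finite (B ⧸ K.subgroupOf B) := inferInstance
  have hcard : Nat.card (B ⧸ K.subgroupOf B) = K.relIndex B := rfl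
  by_contra hne
  have h1 : ∃ ℓ : ℕ, ℓ.Prime ∧ ℓ ≠ p ∧ ℓ ∣ K.relIndex B := by
    by_contra hcon
    push Not at hcon
    apply hne
    exact ⟨_, Nat.eq_prime_pow_of_unique_prime_dvd hf fun {d} hd hdd => by
      by_contra h2
      exact hcon d hd h2 hdd⟩
  obtain ⟨ℓ, hℓ, hℓp, hd⟩ := h1
  have hℓf : Fact ℓ.Prime := ⟨hℓ⟩
  obtain ⟨x, hx⟩ := exists_prime_orderOf_dvd_card' (G := B ⧸ K.subgroupOf B) ℓ (by
    rw [hcard]
    exact hd)
  obtain ⟨c, rfl⟩ := QuotientGroup.mk_surjective x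
  have h2 : ((c ^ ℓ : B) : 𝔾) ∈ K := by
    have h3 : QuotientGroup.mk' (K.subgroupOf B) (c ^ ℓ) = 1 := by
      rw [map_pow, ← hx]
      exact pow_orderOf_eq_one _
    exact (QuotientGroup.eq_one_iff (N := K.subgroupOf B) _).1 h3
  have h3 : (c : 𝔾) ∈ K := h c ⟨c.2, ℓ, hℓ, hℓp, by
    have h4 : ((c ^ ℓ : B) : 𝔾) = (c : 𝔾) ^ ℓ := by push_cast; rfl
    rw [← h4]
    exact h2⟩
  have h4 : ((c : B) : B ⧸ K.subgroupOf B) = 1 := (QuotientGroup.eq_one_iff _).2 h3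
  rw [h4, orderOf_one] at hx
  exact hℓ.one_lt.ne hx

/-- replacing the generators -/
theorem gen_replace {K O D : Subgroup 𝔾} (hKO : K ≤ O) (hn : ∀ b ∈ O, ∀ x ∈ K, b * x * b⁻¹ ∈ K)
    (T : Finset 𝔾) (hTO : ∀ c ∈ T, c ∈ O) (hO : O ≤ K ⊔ closure (T : Set 𝔾)) (f : 𝔾 → 𝔾)
    (hf : ∀ c ∈ T, f c ∈ D ∧ c⁻¹ * f c ∈ K) :
    O ⊓ D ≤ (K ⊓ D) ⊔ closure (f '' (T : Set 𝔾)) := by
  have hcl : ∀ y ∈ closure (T : Set 𝔾), y ∈ O ∧ ∃ z ∈ closure (f '' (T : Set 𝔾)), z⁻¹ * y ∈ K := by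
    intro y hy
    induction hy using closure_induction with
    | mem x hx =>
      refine ⟨hTO x hx, f x, subset_closure ⟨x, hx, rfl⟩, ?_⟩
      have h1 : (f x)⁻¹ * x = (x⁻¹ * f x)⁻¹ := by group
      rw [h1]
      exact K.inv_mem (hf x hx).2
    | one => exact ⟨O.one_mem, 1, one_mem _, by simp⟩
    | mul x y _ _ hx hy =>
      obtain ⟨hx0, z, hz, hzx⟩ := hx
      obtain ⟨hy0, z', hz', hzy⟩ := hy
      refine ⟨O.mul_mem hx0 hy0, z * z', mul_mem hz hz', ?_⟩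
      have hz'O : z'⁻¹ ∈ O := by
        have h1 : z'⁻¹ = (z'⁻¹ * y) * y⁻¹ := by group
        rw [h1]
        exact O.mul_mem (hKO hzy) (O.inv_mem hy0)
      have h1 : (z * z')⁻¹ * (x * y) = (z'⁻¹ * (z⁻¹ * x) * z'⁻¹⁻¹) * (z'⁻¹ * y) := by group
      rw [h1]
      exact K.mul_mem (hn _ hz'O _ hzx) hzy
    | inv x _ hx =>
      obtain ⟨hx0, z, hz, hzx⟩ := hx
      refine ⟨O.inv_mem hx0, z⁻¹, inv_mem hz, ?_⟩
      have h1 : z⁻¹⁻¹ * x⁻¹ = x * (z⁻¹ * x)⁻¹ * x⁻¹ := by group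
      rw [h1]
      exact hn _ hx0 _ (K.inv_mem hzx)
  have hfD : closure (f '' (T : Set 𝔾)) ≤ D := by
    rw [closure_le]
    rintro _ ⟨c, hc, rfl⟩
    exact (hf c hc).1
  rintro y ⟨hyO, hyD⟩
  have h1 : ∃ z ∈ closure (f '' (T : Set 𝔾)), z⁻¹ * y ∈ K := by
    have hy := hO hyO
    have hnK : ∀ g ∈ closure (T : Set 𝔾), ∀ x ∈ K, g * x * g⁻¹ ∈ K := fun g hg => hn g (hcl g hg).1
    -- every element of `K ⊔ closure T` is a product
    have h2 : ∀ u ∈ K ⊔ closure (T : Set 𝔾), ∃ v ∈ closure (T : Set 𝔾), v⁻¹ * u ∈ K := by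
      intro u hu
      rw [sup_eq_closure] at hu
      induction hu using closure_induction with
      | mem x hx =>
        rcases hx with hx | hx
        · exact ⟨1, one_mem _, by simpa using hx⟩
        · exact ⟨x, hx, by simp⟩
      | one => exact ⟨1, one_mem _, by simp⟩
      | mul x y _ _ hx hy =>
        obtain ⟨v, hv, hvx⟩ := hx
        obtain ⟨v', hv', hvy⟩ := hy
        refine ⟨v * v', mul_mem hv hv', ?_⟩
        have h1 : (v * v')⁻¹ * (x * y) = (v'⁻¹ * (v⁻¹ * x) * v'⁻¹⁻¹) * (v'⁻¹ * y) := by group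
        rw [h1]
        exact K.mul_mem (hnK _ (inv_mem hv') _ hvx) hvy
      | inv x _ hx =>
        obtain ⟨v, hv, hvx⟩ := hx
        refine ⟨v⁻¹, inv_mem hv, ?_⟩
        have h1 : v⁻¹⁻¹ * x⁻¹ = v * (v⁻¹ * x)⁻¹ * v⁻¹ := by group
        rw [h1]
        exact hnK v hv _ (K.inv_mem hvx)
    obtain ⟨v, hv, hvy⟩ := h2 y hy
    obtain ⟨hv0, z, hz, hzv⟩ := hcl v hv
    refine ⟨z, hz, ?_⟩
    have h3 : z⁻¹ * y = (z⁻¹ * v) * (v⁻¹ * y) := by group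
    rw [h3]
    exact K.mul_mem hzv hvy
  obtain ⟨z, hz, hzy⟩ := h1
  have h2 : y = z * (z⁻¹ * y) := by group
  rw [h2]
  exact mul_mem (mem_sup_right hz) (mem_sup_left ⟨hzy, D.mul_mem (D.inv_mem (hfD hz)) hyD⟩)

/-- **The abstract theorem.** -/
theorem main_abs (t1 : S_transfer) (t2 : S_comm) (t3 : S_pext) [TopologicalSpace 𝔾]
    [ContinuousMul 𝔾] (p : ℕ) [hp : Fact p.Prime]
    {Ω : Type} [MulAction 𝔾 Ω] {I : Ω → Subgroup 𝔾}
    (hI : ∀ (g : 𝔾) (w : Ω), ∀ x ∈ I w, g * x * g⁻¹ ∈ I (g • w))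
    {A B : Subgroup 𝔾} (hBA : B ≤ A) (hBn : ∀ a ∈ A, ∀ x ∈ B, a * x * a⁻¹ ∈ B)
    {J : Type} {Dm : J → Subgroup 𝔾} (hDo : ∀ j, IsOpen (Dm j : Set 𝔾))
    (hDn : ∀ j, (Dm j).Normal) (hDf : ∀ j, (Dm j).index ≠ 0)
    (P : Subgroup 𝔾 → Prop)
    (hP : ∀ K, P K → K ≤ B ∧ IsOpen (K : Set 𝔾) ∧ K.index ≠ 0 ∧ ∀ a ∈ A, ∀ x ∈ K, a * x * a⁻¹ ∈ K)
    (hup : ∀ K O, P K → K ≤ O → O ≤ B → (∀ a ∈ A, ∀ x ∈ O, a * x * a⁻¹ ∈ O) → P O)
    (hram : ∀ K, P K → ∃ t, ∀ j, ∃ T : Finset Ω, T.card ≤ t ∧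
      ∀ w, I w ⊓ Dm j ≤ K ∨ ∃ u ∈ T, ∃ d ∈ Dm j, w = d • u)
    (hbase : ∃ C, ∀ j, RankLe p I (B ⊓ Dm j) C)
    (hU : ∀ K, P K → ∀ c ∈ B, c ∉ K → ∀ ℓ : ℕ, ℓ.Prime → ℓ ≠ p → c ^ ℓ ∈ K →
      ∃ C, ∀ j, ∃ (K' : Subgroup 𝔾) (h : 𝔾), K' ≤ K ⊓ Dm j ∧ ¬ p ∣ K'.relIndex (K ⊓ Dm j) ∧
        IsOpen (K' : Set 𝔾) ∧ h ∈ Dm j ∧ c⁻¹ * h ∈ K ∧ (∀ x ∈ K', h * x * h⁻¹ ∈ K') ∧
        RelLe p I K' h C) :
    ∀ K, P K → ∃ C, ∀ j, RankLe p I (K ⊓ Dm j) C := by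
  classical
  suffices H : ∀ N : ℕ, ∀ K, P K → K.relIndex B = N → ∃ C, ∀ j, RankLe p I (K ⊓ Dm j) C from
    fun K hK => H _ K hK rfl
  intro N
  induction N using Nat.strong_induction_on with
  | _ N ih =>
  intro K hK hN
  obtain ⟨hKB, hKo, hKf, hKA⟩ := hP K hK
  have hKn : ∀ b ∈ B, ∀ x ∈ K, b * x * b⁻¹ ∈ K := fun b hb => hKA b (hBA hb)
  have hKBf : K.relIndex B ≠ 0 := by
    intro h0
    have h1 := relIndex_mul_index hKB
    rw [h0, zero_mul] at h1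
    exact hKf h1.symm
  obtain ⟨t, ht⟩ := hram K hK
  have hlef : ∀ {X Y : Subgroup 𝔾} (j : J), X ≤ Y → X.index ≠ 0 →
      (X ⊓ Dm j).relIndex (Y ⊓ Dm j) ≠ 0 ∧ (X ⊓ Dm j).relIndex (Y ⊓ Dm j) ≤ X.index := by
    intro X Y j hXY hX
    have h1 : (X ⊓ Dm j).relIndex (Y ⊓ Dm j) = X.relIndex (Y ⊓ Dm j) := by
      rw [← inf_relIndex_right X]
      congr 1
      ext x
      simp only [mem_inf]
      constructor
      · rintro ⟨h1, h2⟩
        exact ⟨h1, hXY h1, h2⟩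
      · rintro ⟨h1, -, h2⟩
        exact ⟨h1, h2⟩
    have hXf : X.FiniteIndex := ⟨hX⟩
    rw [h1]
    refine ⟨?_, relIndex_le_index X _ hX⟩
    exact (inferInstance : (X.subgroupOf (Y ⊓ Dm j)).FiniteIndex).index_ne_zero
  obtain ⟨T, hT1, hT2⟩ := exists_reps hKB hKBf hKn p
  by_cases hemp : T = ∅
  · -- a `p`-group
    obtain ⟨a, ha⟩ := pgroup_of_empty hKB hKBf hKn p (fun c hc => by
      rcases hT2 c hc with h | ⟨c', hc', -⟩
      · exact h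
      · rw [hemp] at hc'
        exact absurd hc' (Finset.notMem_empty _))
    obtain ⟨C, hC⟩ := hbase
    refine ⟨(cst K.index (K.index * (B.index * t)) * C) ^ K.index, fun j => ?_⟩
    obtain ⟨T0, hT0, hT0'⟩ := ht j
    have hBf : B.index ≠ 0 := by
      intro h0
      have h1 := relIndex_mul_index hKB
      rw [h0, mul_zero] at h1
      exact hKf h1.symm
    have hLD : (B ⊓ Dm j).relIndex (Dm j) ≠ 0 ∧ (B ⊓ Dm j).relIndex (Dm j) ≤ B.index := by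
      rw [inf_relIndex_right]
      have hBfi : B.FiniteIndex := ⟨hBf⟩
      exact ⟨(inferInstance : (B.subgroupOf (Dm j)).FiniteIndex).index_ne_zero,
        relIndex_le_index B _ hBf⟩
    obtain ⟨T', hT'1, hT'2⟩ := exists_TL hLD.1 T0
    obtain ⟨a', -, ha'⟩ := (Nat.dvd_prime_pow hp.out).1
      (ha ▸ relIndex_inf_dvd (D := Dm j) hKB hKn)
    refine t3 𝔾 p Ω I (K ⊓ Dm j) (B ⊓ Dm j) K.index (B.index * t) a' C T' hI
      (inf_le_inf_right _ hKB) ?_ ha' (hlef j hKB hKf).2 ?_ ?_ (hC j)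
    · rintro d ⟨hd, hd'⟩ x ⟨hx, hx'⟩
      exact ⟨hKn d hd x hx, (hDn j).conj_mem x hx' d⟩
    · exact hT'1.trans (Nat.mul_le_mul hLD.2 hT0)
    · intro w
      rcases hT0' w with h | ⟨u, hu, d, hd, rfl⟩
      · left
        rintro x ⟨hx, -, hx'⟩
        exact ⟨h ⟨hx, hx'⟩, hx'⟩
      · right
        obtain ⟨u', hu', l, hl, h⟩ := hT'2 u hu d hd
        exact ⟨u', hu', l, hl, h⟩
  · -- the general case
    have hch : ∀ c ∈ T, ∃ C, ∀ j, ∃ (K' : Subgroup 𝔾) (h : 𝔾), K' ≤ K ⊓ Dm j ∧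
        ¬ p ∣ K'.relIndex (K ⊓ Dm j) ∧ IsOpen (K' : Set 𝔾) ∧ h ∈ Dm j ∧ c⁻¹ * h ∈ K ∧
        (∀ x ∈ K', h * x * h⁻¹ ∈ K') ∧ RelLe p I K' h C := by
      intro c hc
      obtain ⟨⟨hcB, ℓ, hℓ, hℓp, hcℓ⟩, hcK⟩ := hT1 c hc
      exact hU K hK c hcB hcK ℓ hℓ hℓp hcℓ
    choose! Cc hCc using hch
    set O : Subgroup 𝔾 := K ⊔ closure (Tor p B K) with hO
    have hKO : K ≤ O := le_sup_left
    have hOB : O ≤ B := sup_le hKB ((closure_le _).2 fun c hc => hc.1)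
    have hOA : ∀ a ∈ A, ∀ x ∈ O, a * x * a⁻¹ ∈ O := by
      intro a ha x hx
      have h1 : O ≤ O.comap (MulAut.conj a).toMonoidHom := by
        rw [hO, sup_le_iff, closure_le]
        constructor
        · intro y hy
          exact mem_sup_left (hKA a ha y hy)
        · rintro y ⟨hyB, ℓ, hℓ, hℓp, hy⟩
          refine mem_sup_right (subset_closure ⟨hBn a ha y hyB, ℓ, hℓ, hℓp, ?_⟩)
          have h2 : (MulAut.conj a y) ^ ℓ = a * y ^ ℓ * a⁻¹ := by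
            rw [← map_pow]
            rfl
          change (MulAut.conj a y) ^ ℓ ∈ K
          rw [h2]
          exact hKA a ha _ hy
      exact h1 hx
    have hPO : P O := hup K O hK hKO hOB hOA
    have hOT : O ≤ K ⊔ closure (T : Set 𝔾) := by
      refine sup_le le_sup_left ((closure_le _).2 fun c hc => ?_)
      rcases hT2 c hc with h | ⟨c', hc', h⟩
      · exact mem_sup_left h
      · have h2 : c = c' * (c'⁻¹ * c) := by group
        rw [h2]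
        exact mul_mem (mem_sup_right (subset_closure hc')) (mem_sup_left h)
    have hlt : O.relIndex B < N := by
      have h1 := relIndex_mul_relIndex K O B hKO hOB
      have h2 : K.relIndex O ≠ 0 := by
        intro h0
        rw [h0, zero_mul] at h1
        exact hKBf h1.symm
      have h3 : K.relIndex O ≠ 1 := by
        rw [Ne, relIndex_eq_one]
        intro h3
        obtain ⟨c, hc⟩ := Finset.nonempty_of_ne_empty hemp
        obtain ⟨h4, h5⟩ := hT1 c hc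
        exact h5 (h3 (mem_sup_right (subset_closure h4)))
      have h4 : O.relIndex B ≠ 0 := by
        intro h0
        rw [h0, mul_zero] at h1
        exact hKBf h1.symm
      have h5 : 2 ≤ K.relIndex O := by omega
      rw [← hN, ← h1]
      nlinarith [Nat.pos_of_ne_zero h4]
    obtain ⟨CO, hCO⟩ := ih _ hlt O hPO rfl
    obtain ⟨-, hOo, hOf, -⟩ := hP O hPO
    set C := T.sup Cc with hCdef
    refine ⟨(C + 1) ^ T.card * (cst K.index (O.index * t) * CO), fun j => ?_⟩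
    intro W hWK hWo hWf hg
    set Kj := K ⊓ Dm j with hKj
    set Oj := O ⊓ Dm j with hOj
    have hKjn : ∀ g ∈ B ⊓ Dm j, ∀ x ∈ Kj, g * x * g⁻¹ ∈ Kj := by
      rintro d ⟨hd, hd'⟩ x ⟨hx, hx'⟩
      exact ⟨hKn d hd x hx, (hDn j).conj_mem x hx' d⟩
    obtain ⟨W', hW'W, hW'o, hW'f, hW'g, hW's⟩ := exists_core hI (K := Kj) (D := B ⊓ Dm j) hKjn
      (hlef j hKB hKf).1 hWK hWo hWf hg
    choose! K' h hK' using fun c hc => hCc c hc j
    obtain ⟨Q, hWQ, hQK, hQc, hQi⟩ := t2 𝔾 p Ω I Kj Oj W' (T.image h) (C + 1)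
      (inf_le_inf_right _ hKO) (fun g hg => hKjn g ⟨hOB hg.1, hg.2⟩) (hW'W.trans hWK) hW'f hW'g
      (fun g hg => hW's g ⟨hOB hg.1, hg.2⟩) (by
        intro c hc
        obtain ⟨c0, hc0, rfl⟩ := Finset.mem_image.1 hc
        obtain ⟨-, -, -, h4, h5, -⟩ := hK' c0 hc0
        refine ⟨?_, h4⟩
        have h6 : h c0 = c0 * (c0⁻¹ * h c0) := by group
        rw [h6]
        exact O.mul_mem (mem_sup_right (subset_closure (hT1 c0 hc0).1)) (hKO h5)) (by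
        rw [Finset.coe_image]
        exact gen_replace hKO (fun b hb => hKn b (hOB hb)) T
          (fun c hc => mem_sup_right (subset_closure (hT1 c hc).1)) hOT h (fun c hc => by
            obtain ⟨-, -, -, h4, h5, -⟩ := hK' c hc
            exact ⟨h4, h5⟩)) (by
        intro c hc
        obtain ⟨c0, hc0, rfl⟩ := Finset.mem_image.1 hc
        obtain ⟨h1, h2, h3, h4, h5, h6, h7⟩ := hK' c0 hc0
        obtain ⟨⟨hcB, ℓ, hℓ, hℓp, hcℓ⟩, hcK⟩ := hT1 c0 hc0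
        have hhB : h c0 ∈ B := by
          have h8 : h c0 = c0 * (c0⁻¹ * h c0) := by group
          rw [h8]
          exact B.mul_mem hcB (hKB h5)
        obtain ⟨W₁, hW1, hW2, hW3, hW4⟩ := t1 𝔾 p Ω I Kj (K' c0) (h c0) ℓ (Cc c0) h1 h2 h3
          (hKjn _ ⟨hhB, h4⟩) h6 ⟨pow_mem_of hKB hKn hcB h5 hcℓ, (Dm j).pow_mem h4 _⟩
          (fun hd => hℓp ((Nat.prime_dvd_prime_iff_eq hp.out hℓ).1 hd).symm) h7 W'
          (hW'W.trans hWK) hW'o hW'f hW'g (hW's _ ⟨hhB, h4⟩)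
        exact ⟨W₁, hW1, hW2, hW3, hW4.trans ((Finset.le_sup (f := Cc) hc0).trans (Nat.le_succ _))⟩)
    have hQf : Q.relIndex Kj ≠ 0 := by
      intro h0
      have h1 := relIndex_mul_relIndex W' Q Kj hWQ hQK
      rw [h0, mul_zero] at h1
      exact hW'f h1.symm
    obtain ⟨T0, hT0, hT0'⟩ := ht j
    have hLD : (O ⊓ Dm j).relIndex (Dm j) ≠ 0 ∧ (O ⊓ Dm j).relIndex (Dm j) ≤ O.index := by
      rw [inf_relIndex_right]
      have hOfi : O.FiniteIndex := ⟨hOf⟩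
      exact ⟨(inferInstance : (O.subgroupOf (Dm j)).FiniteIndex).index_ne_zero,
        relIndex_le_index O _ hOf⟩
    obtain ⟨T', hT'1, hT'2⟩ := exists_TL hLD.1 T0
    have hgen := genus hI (K := Kj) (L := Oj) (Q := Q) (inf_le_inf_right _ hKO)
      (hlef j hKO hKf).1 hQK (Subgroup.isOpen_mono hWQ hW'o) hQf
      (fun x hx => hWQ (hW'g hx)) hQc T' (by
        intro w
        rcases hT0' w with h | ⟨u, hu, d, hd, rfl⟩
        · left
          rintro x ⟨hx, -, hx'⟩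
          exact ⟨h ⟨hx, hx'⟩, hx'⟩
        · right
          obtain ⟨u', hu', l, hl, h⟩ := hT'2 u hu d hd
          exact ⟨u', hu', l, hl, h⟩) (hCO j)
    have h1 := relIndex_mul_relIndex W' Q Kj hWQ hQK
    have h2 := relIndex_mul_relIndex W' W Kj hW'W hWK
    have h3 : W.relIndex Kj ≤ W'.relIndex Kj := by
      rw [← h2]
      refine Nat.le_mul_of_pos_left _ (Nat.pos_of_ne_zero fun h0 => ?_)
      rw [h0, zero_mul] at h2
      exact hW'f h2.symm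
    refine h3.trans ?_
    rw [← h1]
    refine Nat.mul_le_mul (hQi.trans ?_) (hgen.trans ?_)
    · exact Nat.pow_le_pow_right (Nat.succ_pos _) Finset.card_image_le
    · refine Nat.mul_le_mul_right _ (cst_mono (Nat.pos_of_ne_zero (hlef j hKO hKf).1)
        (hlef j hKO hKf).2 (hT'1.trans (Nat.mul_le_mul hLD.2 hT0)))

end Pool.Agent.Run7.h759.UM
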