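import Pool.Agent.Run7.h759.UM.Iface

/-!
# `p`-extensions
-/

set_option autoImplicit false

namespace Pool.Agent.Run7.h759.UM

open Subgroup Pool.Agent.Q60.MU Pool.Agent.W5h77.MB
open scoped commutatorElement Pointwise

theorem t_pext : S_pext := by
  intro 𝔾 _ _ _ p hp Ω _ I K L n t a C T hI hKL hn ha hidx hTt hT hC
  classical
  have hf : K.relIndex L ≠ 0 := by
    rw [ha]
    exact pow_ne_zero _ hp.out.ne_zero
  have hdet : Detects (ZMod p) (K.subgroupOf L) ({L} : Finset (Subgroup 𝔾))
      (fun L' => L'.subgroupOf L) := by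
    intro S _ _ _ σ htriv hsim
    have hnt : Nontrivial S := hsim.1
    refine ⟨L, Finset.mem_singleton_self _, ?_⟩
    have hN : (K.subgroupOf L).Normal := by
      refine ⟨fun x hx g => ?_⟩
      rw [mem_subgroupOf] at hx ⊢
      exact hn g g.2 x hx
    -- the representation of the quotient
    have hk : K.subgroupOf L ≤ (σ : L →* (S →ₗ[ZMod p] S)).ker := by
      intro g hg
      rw [MonoidHom.mem_ker]
      exact LinearMap.ext fun x => htriv g hg x
    let σ' : Representation (ZMod p) (L ⧸ K.subgroupOf L) S := QuotientGroup.lift _ σ hk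
    have hσ' : ∀ g : L, σ' (g : L ⧸ K.subgroupOf L) = σ g := fun g => rfl
    have hpg : IsPGroup p (L ⧸ K.subgroupOf L) := by
      refine IsPGroup.of_card (n := a) ?_
      exact ha
    obtain ⟨v, hv, hfix⟩ := exists_fixed hpg σ'
    have hfix' : ∀ g : L, σ g v = v := fun g => hfix g
    have hst : Stable σ (Submodule.span (ZMod p) {v}) := by
      intro g x hx
      obtain ⟨r, rfl⟩ := Submodule.mem_span_singleton.1 hx
      rw [map_smul, hfix']
      exact Submodule.smul_mem _ _ (Submodule.mem_span_singleton_self v)
    have htop : Submodule.span (ZMod p) {v} = ⊤ := by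
      rcases hsim.2 _ hst with h | h
      · exact absurd (Submodule.span_singleton_eq_bot.1 h) hv
      · exact h
    have hall : ∀ (g : L) (x : S), σ g x = x := by
      intro g x
      have hx : x ∈ Submodule.span (ZMod p) {v} := by
        rw [htop]
        exact Submodule.mem_top
      obtain ⟨r, rfl⟩ := Submodule.mem_span_singleton.1 hx
      rw [map_smul, hfix']
    intro h
    have h1 : coinv σ (L.subgroupOf L) ≤ ⊥ := by
      unfold coinv
      rw [Submodule.span_le]
      rintro _ ⟨g, hg, x, rfl⟩
      simp [hall]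
    rw [h] at h1
    exact top_ne_bot (le_bot_iff.1 h1)
  have h1 := main_ineq (p := p) hI hKL hn hf hidx ({L} : Finset (Subgroup 𝔾))
    (by
      intro L' hL'
      rw [Finset.mem_singleton] at hL'
      rw [hL']
      exact ⟨hKL, le_refl _⟩) hdet T hTt hT (C := C) (by
      intro L' hL'
      rw [Finset.mem_singleton] at hL'
      rw [hL']
      exact hC)
  rw [Finset.card_singleton, mul_one] at h1
  exact h1

end Pool.Agent.Run7.h759.UM
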