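import Pool.Agent.Run7.h759.UM.One
import Pool.Agent.Run7.h759.UM.P3
import Pool.Agent.Run7.h759.UM.P5
import Pool.Agent.Run7.h759.UM.P6
import Pool.Agent.Run7.h594.UM.P1
import Pool.Agent.Run7.h594.UM.P2
import Pool.Agent.Run7.h594.UM.P7
import Pool.Agent.Run7.h403.UM.Q1
import Pool.Agent.Run7.h429.UM.Q2
import Pool.Agent.Run7.h321.UM.Q3
import Pool.Agent.Run7.h232.UM.Q4
import Pool.Agent.Run7.h228.UM.Q5

/-!
# The theorems with all ingredients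
-/

set_option autoImplicit false

namespace Pool.Agent.Run7.h759.UM

open Subgroup Pool.Agent.Q60.MU Pool.Agent.W5h77.MB IntermediateField
open scoped commutatorElement Pointwise ComplexConjugate

theorem s_layer : S_layer := Pool.Agent.Run7.h321.UM.t_Q3 Pool.Agent.Run7.h403.UM.t_nil
  Pool.Agent.Run7.h429.UM.t_Q2

/-- The class of fields is closed under subfields and under composites with totally real cyclic
extensions of `ℚ` of prime degree different from `p`. -/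
def ClosedClass (p : ℕ) (Q : IntermediateField ℚ Qb → Prop) : Prop :=
  (∀ N N' : IntermediateField ℚ Qb, Q N → N' ≤ N → Q N') ∧
  ∀ N A : IntermediateField ℚ Qb, Q N → FiniteDimensional ℚ A →
    (∃ ℓ : ℕ, ℓ.Prime ∧ ℓ ≠ p ∧ Module.finrank ℚ A = ℓ) →
    (∀ σ τ : Gal(Qb/ℚ), ∀ x ∈ A, σ (τ x) = τ (σ x)) →
    (∀ (ι : Qb →+* ℂ) (c : Gal(Qb/ℚ)), (∀ x, ι (c x) = conj (ι x)) → ∀ x ∈ A, c x = x) →
    Q (N ⊔ A)

section

variable (p : ℕ) [hp : Fact p.Prime] (hp2 : p ≠ 2)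
  {I : ValuationSubring Qb → Subgroup Gal(Qb/ℚ)}
  (hI : ∀ (g : Gal(Qb/ℚ)) (w : ValuationSubring Qb), ∀ x ∈ I w, g * x * g⁻¹ ∈ I (g • w))
  (hI2 : ∀ A : ValuationSubring Qb, (p : Qb) ∉ A.nonunits → I A ≤ inertia A)
  {a k : IntermediateField ℚ Qb} (hak : a ≤ k) (hk : FiniteDimensional ℚ k)
  (hka : StableOver a k) {Q : IntermediateField ℚ Qb → Prop} (hQk : Q k)
  (hQ : ClosedClass p Q) {m : ℕ} (hm : m ≠ 0)

include hp2 hI hI2 hak hk hka hQk hQ hm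

/-- The relative form. -/
theorem cls_rel :
    (∀ N : IntermediateField ℚ Qb, FiniteDimensional ℚ N → k ≤ N → StableOver a N → Q N →
      MuI p I N) ↔
    (MuI p I k ∧ ∀ (ℓ : ℕ) (M N : IntermediateField ℚ Qb), ℓ.Prime → ℓ ≠ p → k ≤ M →
      StableOver a N → Q N → UnrStep ℓ m M N → RelI p I M N) :=
  gen_main Pool.Agent.Run7.h594.UM.P1 Pool.Agent.Run7.h594.UM.P2 t_pext t_findec t_rel p hp2 hI
    hI2 hak hk hka Q hQk hQ.1 hQ.2 hm

/-- The form with one layer. -/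
theorem cls_one
    (hI3 : ∀ A : ValuationSubring Qb, (p : Qb) ∈ A.nonunits → inertia A ≤ I A) :
    (∀ N : IntermediateField ℚ Qb, FiniteDimensional ℚ N → k ≤ N → StableOver a N → Q N →
      MuI p I N) ↔
    (MuI p I k ∧ ∀ (ℓ : ℕ) (M N : IntermediateField ℚ Qb), ℓ.Prime → ℓ ≠ p → k ≤ M →
      StableOver a N → Q N → UnrStep ℓ m M N → OneLayer p I ℓ M N) := by
  constructor
  · intro h
    obtain ⟨h1, h2⟩ := (cls_rel p hp2 hI hI2 hak hk hka hQk hQ hm).1 h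
    exact ⟨h1, fun ℓ M N h3 h4 h5 h6 h7 h8 => oneLayer_of_relI Pool.Agent.Run7.h232.UM.t_Q4 hp.out
      hp2 h8.1 (h2 ℓ M N h3 h4 h5 h6 h7 h8)⟩
  · rintro ⟨hmk, hst⟩ N hNd hkN hN hQN
    exact gen_core Pool.Agent.Run7.h594.UM.P1 Pool.Agent.Run7.h594.UM.P2 t_pext t_findec t_rel p
      hp2 hI hI2 hak hk hka Q hQ.1 hQ.2 hm hmk (fun ℓ M N hℓ hℓp hkM hN hQN hu =>
        relL_of_oneLayer t_rel s_layer Pool.Agent.Run7.h232.UM.t_Q4 p hp2 hI hI2 hI3 hℓ hℓp hu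
          (hst ℓ M N hℓ hℓp hkM hN hQN hu)) N hNd hkN hN hQN

/-- The form with one layer, without ramification above `p`. -/
theorem cls_one0
    (hI4 : ∀ (n : ℕ) (R : IntermediateField ℚ Qb), IsLayer p n R → ∀ A, I A ≤ R.fixingSubgroup) :
    (∀ N : IntermediateField ℚ Qb, FiniteDimensional ℚ N → k ≤ N → StableOver a N → Q N →
      MuI p I N) ↔
    (MuI p I k ∧ ∀ (ℓ : ℕ) (M N : IntermediateField ℚ Qb), ℓ.Prime → ℓ ≠ p → k ≤ M →
      StableOver a N → Q N → UnrStep ℓ m M N → OneLayer0 p I ℓ M N) := by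
  constructor
  · intro h
    obtain ⟨h1, h2⟩ := (cls_rel p hp2 hI hI2 hak hk hka hQk hQ hm).1 h
    exact ⟨h1, fun ℓ M N h3 h4 h5 h6 h7 h8 => oneLayer0_of_relI Pool.Agent.Run7.h232.UM.t_Q4 hp.out
      hp2 h8.1 (h2 ℓ M N h3 h4 h5 h6 h7 h8)⟩
  · rintro ⟨hmk, hst⟩ N hNd hkN hN hQN
    exact gen_core Pool.Agent.Run7.h594.UM.P1 Pool.Agent.Run7.h594.UM.P2 t_pext t_findec t_rel p
      hp2 hI hI2 hak hk hka Q hQ.1 hQ.2 hm hmk (fun ℓ M N hℓ hℓp hkM hN hQN hu =>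
        relL_of_oneLayer0 t_rel Pool.Agent.Run7.h228.UM.t_Q5 Pool.Agent.Run7.h232.UM.t_Q4 p hp2 hI
          hI4 hℓ hℓp hu (hst ℓ M N hℓ hℓp hkM hN hQN hu)) N hNd hkN hN hQN

end

theorem mu_bot (p : ℕ) [Fact p.Prime] : MuI p inertia ⊥ := muI_bot Pool.Agent.Run7.h594.UM.P7 p

end Pool.Agent.Run7.h759.UM
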