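import Pool.Agent.Run7.h759.UM.Abs

/-!
# The theorem for subgroups of the absolute Galois group of `ℚ`
-/

set_option autoImplicit false

namespace Pool.Agent.Run7.h759.UM

open Subgroup Pool.Agent.Q60.MU Pool.Agent.W5h77.MB IntermediateField
open scoped commutatorElement Pointwise ComplexConjugate

/-- `M' / M` is a Galois extension of degree `ℓ`, unramified at all places, and the primes above `m`
and all the primes which ramify in `M' / ℚ` split completely in `M' / M`. -/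
def UnrStep (ℓ m : ℕ) (M M' : IntermediateField ℚ Qb) : Prop :=
  FiniteDimensional ℚ M' ∧ M ≤ M' ∧ Module.finrank ℚ M' = ℓ * Module.finrank ℚ M ∧
    (∀ σ ∈ M.fixingSubgroup, ∀ x ∈ M', σ x ∈ M') ∧
    (∀ A, ∀ σ ∈ inertia A, σ ∈ M.fixingSubgroup → ∀ x ∈ M', σ x = x) ∧
    (∀ A : ValuationSubring Qb,
      ((m : Qb) ∈ A.nonunits ∨ ∃ τ ∈ inertia A, ∃ x ∈ M', τ x ≠ x) →
      ∀ σ : Gal(Qb/ℚ), σ • A = A → σ ∈ M.fixingSubgroup → ∀ x ∈ M', σ x = x) ∧
    ∀ (ι : Qb →+* ℂ) (c : Gal(Qb/ℚ)), (∀ x, ι (c x) = conj (ι x)) → c ∈ M.fixingSubgroup →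
      ∀ x ∈ M', c x = x

/-- the elements of `K ⊔ ⟨h⟩` -/
theorem mem_sup_zpowers {𝔾 : Type} [Group 𝔾] {K : Subgroup 𝔾} {h : 𝔾} {n : ℕ} (hn : n ≠ 0)
    (hK : ∀ x ∈ K, h * x * h⁻¹ ∈ K) (hh : h ^ n ∈ K) {σ : 𝔾} :
    σ ∈ K ⊔ zpowers h ↔ ∃ (j : ℕ) (κ : 𝔾), κ ∈ K ∧ σ = h ^ j * κ := by
  have hpow : ∀ (j : ℕ) (x : 𝔾), x ∈ K → h ^ j * x * (h ^ j)⁻¹ ∈ K := by
    intro j
    induction j with
    | zero => intro x hx; simpa using hx
    | succ j ih =>
      intro x hx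
      have h1 : h ^ (j + 1) * x * (h ^ (j + 1))⁻¹ = h * (h ^ j * x * (h ^ j)⁻¹) * h⁻¹ := by
        rw [pow_succ' h j]
        group
      rw [h1]
      exact hK _ (ih x hx)
  -- the inverse conjugation
  have hinv : ∀ (j : ℕ) (x : 𝔾), x ∈ K → (h ^ j)⁻¹ * x * h ^ j ∈ K := by
    intro j x hx
    have h2 : ((h ^ n) ^ j)⁻¹ * (h ^ (j * (n - 1)) * x * (h ^ (j * (n - 1)))⁻¹) * (h ^ n) ^ j =
        (h ^ j)⁻¹ * x * h ^ j := by
      have h3 : (h ^ n) ^ j = h ^ (j * (n - 1)) * h ^ j := by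
        rw [← pow_mul, ← pow_add]
        congr 1
        obtain ⟨k, rfl⟩ : ∃ k, n = k + 1 := ⟨n - 1, by omega⟩
        simp only [Nat.add_sub_cancel]
        ring
      have h4 : h ^ (j * (n - 1)) * h ^ j = h ^ j * h ^ (j * (n - 1)) := by
        rw [← pow_add, ← pow_add, add_comm]
      have h5 : ((h ^ n) ^ j)⁻¹ * h ^ (j * (n - 1)) = (h ^ j)⁻¹ := by
        rw [h3, h4]
        group
      have h6 : (h ^ (j * (n - 1)))⁻¹ * (h ^ n) ^ j = h ^ j := by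
        rw [h3]
        group
      calc _ = (((h ^ n) ^ j)⁻¹ * h ^ (j * (n - 1))) * x * ((h ^ (j * (n - 1)))⁻¹ * (h ^ n) ^ j) := by
            group
        _ = _ := by rw [h5, h6]
    rw [← h2]
    have h7 : (h ^ n) ^ j ∈ K := K.pow_mem hh j
    exact K.mul_mem (K.mul_mem (K.inv_mem h7) (hpow _ x hx)) h7
  constructor
  · intro hσ
    rw [sup_eq_closure] at hσ
    induction hσ using closure_induction with
    | mem x hx =>
      rcases hx with hx | hx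
      · exact ⟨0, x, hx, by simp⟩
      · obtain ⟨z, rfl⟩ := mem_zpowers_iff.1 hx
        -- a natural exponent
        obtain ⟨k, hk⟩ : ∃ k : ℕ, 0 ≤ z + n * k := by
          refine ⟨z.natAbs, ?_⟩
          have h1 : (1 : ℤ) ≤ n := by exact_mod_cast Nat.one_le_iff_ne_zero.2 hn
          have h2 : -z ≤ z.natAbs := by omega
          nlinarith [Int.natCast_nonneg z.natAbs]
        refine ⟨(z + n * k).toNat, ((h ^ n) ^ k)⁻¹, K.inv_mem (K.pow_mem hh k), ?_⟩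
        rw [← zpow_natCast h (z + n * k).toNat, Int.toNat_of_nonneg hk, zpow_add, zpow_mul,
          zpow_natCast, zpow_natCast]
        group
    | one => exact ⟨0, 1, K.one_mem, by simp⟩
    | mul x y _ _ hx hy =>
      obtain ⟨i, κ, hκ, rfl⟩ := hx
      obtain ⟨j, κ', hκ', rfl⟩ := hy
      refine ⟨i + j, ((h ^ j)⁻¹ * κ * h ^ j) * κ', K.mul_mem (hinv j κ hκ) hκ', ?_⟩
      rw [pow_add]
      group
    | inv x _ hx =>
      obtain ⟨i, κ, hκ, rfl⟩ := hx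
      have h3 : (h ^ n) ^ i = h ^ i * h ^ ((n - 1) * i) := by
        rw [← pow_mul, ← pow_add]
        congr 1
        obtain ⟨k, rfl⟩ : ∃ k, n = k + 1 := ⟨n - 1, by omega⟩
        simp only [Nat.add_sub_cancel]
        ring
      have h4 : (h ^ n) ^ i = h ^ ((n - 1) * i) * h ^ i := by
        rw [← pow_mul, ← pow_add]
        congr 1
        obtain ⟨k, rfl⟩ : ∃ k, n = k + 1 := ⟨n - 1, by omega⟩
        simp only [Nat.add_sub_cancel]
        ring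
      have h5 : h ^ ((n - 1) * i) * ((h ^ n) ^ i)⁻¹ = (h ^ i)⁻¹ := by
        rw [h3]
        group
      refine ⟨(n - 1) * i, ((h ^ n) ^ i)⁻¹ * (h ^ i * κ⁻¹ * (h ^ i)⁻¹),
        K.mul_mem (K.inv_mem (K.pow_mem hh i)) (hpow i _ (K.inv_mem hκ)), ?_⟩
      rw [← mul_assoc, h5]
      group
  · rintro ⟨j, κ, hκ, rfl⟩
    exact mul_mem (mem_sup_right (pow_mem (mem_zpowers h) j)) (mem_sup_left hκ)

/-- the index of `K` in `K ⊔ ⟨h⟩` -/
theorem relIndex_sup_zpowers {𝔾 : Type} [Group 𝔾] {K : Subgroup 𝔾} {h : 𝔾} {ℓ : ℕ} (hℓ : ℓ.Prime)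
    (hK : ∀ x ∈ K, h * x * h⁻¹ ∈ K) (hh : h ^ ℓ ∈ K) (hhK : h ∉ K) :
    K.relIndex (K ⊔ zpowers h) = ℓ := by
  classical
  have hℓf : Fact ℓ.Prime := ⟨hℓ⟩
  set D := K ⊔ zpowers h with hD
  have hmem : ∀ σ, σ ∈ D ↔ ∃ (j : ℕ) (κ : 𝔾), κ ∈ K ∧ σ = h ^ j * κ := fun σ =>
    mem_sup_zpowers hℓ.ne_zero hK hh
  have hpow : ∀ (j : ℕ) (x : 𝔾), x ∈ K → h ^ j * x * (h ^ j)⁻¹ ∈ K := by
    intro j
    induction j with
    | zero => intro x hx; simpa using hx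
    | succ j ih =>
      intro x hx
      have h1 : h ^ (j + 1) * x * (h ^ (j + 1))⁻¹ = h * (h ^ j * x * (h ^ j)⁻¹) * h⁻¹ := by
        rw [pow_succ' h j]
        group
      rw [h1]
      exact hK _ (ih x hx)
  have hN : (K.subgroupOf D).Normal := by
    refine ⟨fun x hx g => ?_⟩
    rw [mem_subgroupOf] at hx ⊢
    obtain ⟨j, κ, hκ, hg⟩ := (hmem _).1 g.2
    push_cast
    rw [hg]
    have h1 : h ^ j * κ * (x : 𝔾) * (h ^ j * κ)⁻¹ = h ^ j * (κ * x * κ⁻¹) * (h ^ j)⁻¹ := by group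
    rw [h1]
    exact hpow j _ (K.mul_mem (K.mul_mem hκ hx) (K.inv_mem hκ))
  let h0 : D := ⟨h, mem_sup_right (mem_zpowers h)⟩
  let x : D ⧸ K.subgroupOf D := QuotientGroup.mk' _ h0
  have hx1 : x ≠ 1 := by
    intro h1
    have h2 := (QuotientGroup.eq_one_iff (N := K.subgroupOf D) h0).1 h1
    exact hhK h2
  have hx2 : x ^ ℓ = 1 := by
    change (QuotientGroup.mk' (K.subgroupOf D) h0) ^ ℓ = 1
    rw [← map_pow]
    refine (QuotientGroup.eq_one_iff (N := K.subgroupOf D) _).2 ?_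
    rw [mem_subgroupOf]
    push_cast
    exact hh
  have hord : orderOf x = ℓ := orderOf_eq_prime hx2 hx1
  have htop : ∀ y : D ⧸ K.subgroupOf D, y ∈ zpowers x := by
    intro y
    obtain ⟨g, rfl⟩ := QuotientGroup.mk_surjective y
    obtain ⟨j, κ, hκ, hg⟩ := (hmem _).1 g.2
    refine mem_zpowers_iff.2 ⟨j, ?_⟩
    rw [zpow_natCast]
    change (QuotientGroup.mk' (K.subgroupOf D) h0) ^ j = QuotientGroup.mk' (K.subgroupOf D) g
    rw [← map_pow]
    refine QuotientGroup.eq.2 ?_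
    rw [mem_subgroupOf]
    push_cast
    rw [hg]
    have h1 : ((h0 : D) : 𝔾) = h := rfl
    rw [h1, inv_mul_cancel_left]
    exact hκ
  change Nat.card (D ⧸ K.subgroupOf D) = ℓ
  rw [← hord]
  exact (orderOf_eq_card_of_forall_mem_zpowers htop).symm

end Pool.Agent.Run7.h759.UM
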