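import Pool.Agent.W5h77.MB.Mu
import Pool.Agent.W5h77.MB.Cop

/-!
# Interface of the project UM: `μ`-invariants and everywhere unramified extensions of prime degree
-/

set_option autoImplicit false

namespace Pool.Agent.Run7.h759.UM

open Subgroup Pool.Agent.Q60.MU Pool.Agent.W5h77.MB
open scoped commutatorElement Pointwise ComplexConjugate

/-- Every open subgroup `W` of finite index of `K` which contains `gens p I K` (the `p`-th powers, the
commutators and the inertia groups), is stable under `h` and on whose quotient `K / W` the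
conjugation by `h` has no nontrivial fixed point, has index at most `C`. -/
def RelLe {𝔾 : Type} [Group 𝔾] [TopologicalSpace 𝔾] (p : ℕ) {Ω : Type} (I : Ω → Subgroup 𝔾)
    (K : Subgroup 𝔾) (h : 𝔾) (C : ℕ) : Prop :=
  ∀ W : Subgroup 𝔾, W ≤ K → IsOpen (W : Set 𝔾) → W.relIndex K ≠ 0 → gens p I K ⊆ W →
    (∀ x ∈ W, h * x * h⁻¹ ∈ W) → (∀ x ∈ K, ⁅h, x⁆ ∈ W → x ∈ W) → W.relIndex K ≤ C

/-- **P1.** Let `K' ≤ K` be stable under conjugation by `h`, of index prime to `p`, `h ^ n ∈ K` with `n`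
prime to `p`. If the relative part is bounded by `C` for `K'`, then for all `W` as in `RankLe` for
`K` which are stable under `h`, the group of the `x ∈ K` with `⁅h, x⁆ ∈ W` has index at most `C`.

PROOF. `V = K / W` is a finite elementary abelian `p`-group, written additively; `h` acts on it by
conjugation, `h ^ n` acts trivially (as `h ^ n ∈ K` and `K / W` is abelian). Let
`W₁ = {x ∈ K | ⁅h, x⁆ ∈ W}` (a subgroup, since `x ↦ ⁅h, x⁆` is a homomorphism `K → K / W`), so `W₁ / W = V^h`.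
`h` acts on `K / W₁` without fixed points: if `x ∈ K` and `⁅h, x⁆ ∈ W₁`, i.e. `(h - 1)² x̄ = 0` in `V`, then
`h^n x̄ = x̄ + n (h - 1) x̄` (induction), so `n (h - 1) x̄ = 0`, and `(h - 1) x̄ = 0` since `p V = 0` and `p` does not
divide `n`; so `x ∈ W₁`. Put `W' = W₁ ⊓ K'`: it contains `gens p I K'` (as `gens p I K' ⊆ gens p I K ⊆ W`), is open
(contains the open subgroup `W ⊓ K'`; `K'` is open), of finite index in `K'`, stable under `h`
(`h W₁ h⁻¹ ⊆ W₁`: `⁅h, h x h⁻¹⁆ = h ⁅h, x⁆ h⁻¹`), and satisfies the last condition of `RelLe`. So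
`W'.relIndex K' ≤ C`. Finally `W₁.relIndex K = (W₁ ⊓ K').relIndex K'`: the index of `W₁ ⊔ K'` in `K` divides `[K : K']`
(prime to `p`) and `[K : W]`, a power of `p`, so `W₁ ⊔ K' = K` (`W₁` is normal in `K`, it contains all
commutators), and then the second isomorphism theorem: `Subgroup.relIndex_sup_right`-like lemmas, or
`Subgroup.inf_relIndex_right`, or: the map `K' ⧸ (W₁ ⊓ K') → K ⧸ W₁` is surjective so
`W₁.relIndex K ≤ (W₁ ⊓ K').relIndex K'` which is all that is needed. -/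
def S_transfer : Prop := ∀ (𝔾 : Type) [Group 𝔾] [TopologicalSpace 𝔾] [ContinuousMul 𝔾] (p : ℕ)
  [Fact p.Prime] (Ω : Type) (I : Ω → Subgroup 𝔾) (K K' : Subgroup 𝔾) (h : 𝔾) (n C : ℕ),
  K' ≤ K → ¬ p ∣ K'.relIndex K → IsOpen (K' : Set 𝔾) → (∀ x ∈ K, h * x * h⁻¹ ∈ K) →
  (∀ x ∈ K', h * x * h⁻¹ ∈ K') → h ^ n ∈ K → ¬ p ∣ n → RelLe p I K' h C →
  ∀ W : Subgroup 𝔾, W ≤ K → IsOpen (W : Set 𝔾) → W.relIndex K ≠ 0 → gens p I K ⊆ W →
    (∀ x ∈ W, h * x * h⁻¹ ∈ W) →
    ∃ W₁ : Subgroup 𝔾, W ≤ W₁ ∧ W₁ ≤ K ∧ (∀ x ∈ W₁, ⁅h, x⁆ ∈ W) ∧ W₁.relIndex K ≤ C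

/-- **P2.** Let `K ≤ O`, `W ≤ K` be stable under conjugation by `O`, `K / W` finite elementary abelian, `O`
generated by `K` and a finite set `T`. If for each `c ∈ T` the subgroup of `K` on which `⁅c, ·⁆ ∈ W` has index
at most `C` then `[O, K] W / W` has order at most `C ^ |T|`.

PROOF. For `c ∈ T` the map `x ↦ ⁅c, x⁆ W` is a homomorphism from `K` to the abelian group `V = K / W` which is trivial on
`W₁`, so its image `(c - 1) V` has order at most `W₁.relIndex K ≤ C`. Let `Q / W` be the sum of these images; its order is at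
most `C ^ |T|` (`Pool.Agent.Q60.MU.card_sup_le'`). The set of the `l ∈ O` with `⁅l, k⁆ ∈ Q` for all `k ∈ K` contains `K`
(as `⁅k', k⁆ ∈ gens p I K ⊆ W`) and `T`, and is a subgroup: `⁅a b, k⁆ = ⁅a, ⁅b, k⁆⁆ * ⁅b, k⁆ * ⁅a, k⁆` with `⁅b, k⁆ ∈ K`, and
`⁅a⁻¹, k⁆ = ⁅a, a⁻¹ k a⁆⁻¹` with `a⁻¹ k a ∈ K`. -/
def S_comm : Prop := ∀ (𝔾 : Type) [Group 𝔾] (p : ℕ) [Fact p.Prime] (Ω : Type) (I : Ω → Subgroup 𝔾)
  (K O W : Subgroup 𝔾) (T : Finset 𝔾) (C : ℕ),
  K ≤ O → (∀ g ∈ O, ∀ x ∈ K, g * x * g⁻¹ ∈ K) → W ≤ K → W.relIndex K ≠ 0 → gens p I K ⊆ W →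
  (∀ g ∈ O, ∀ x ∈ W, g * x * g⁻¹ ∈ W) → (∀ c ∈ T, c ∈ O) → O ≤ K ⊔ closure (T : Set 𝔾) →
  (∀ c ∈ T, ∃ W₁ : Subgroup 𝔾, W ≤ W₁ ∧ W₁ ≤ K ∧ (∀ x ∈ W₁, ⁅c, x⁆ ∈ W) ∧ W₁.relIndex K ≤ C) →
  ∃ Q : Subgroup 𝔾, W ≤ Q ∧ Q ≤ K ∧ (∀ l ∈ O, ∀ k ∈ K, ⁅l, k⁆ ∈ Q) ∧ W.relIndex Q ≤ C ^ T.card

/-- **P3.** The case of `p`-extensions.

PROOF. `Pool.Agent.Q60.MU.main_ineq` with `D := L` and `𝓗 := {L}`. The hypothesis `hdet` (`Detects`): let `σ` be a
simple representation of `L` over `ZMod p`, trivial on `K.subgroupOf L`. It is a representation of the `p`-group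
`L / K`, so there is a nonzero fixed vector (`Pool.Agent.Q60.MU.exists_fixed`), the line spanned by it is stable, so it is
everything, so `L` acts trivially and `coinv σ (L.subgroupOf L) = ⊥ ≠ ⊤`. -/
def S_pext : Prop := ∀ (𝔾 : Type) [Group 𝔾] [TopologicalSpace 𝔾] [ContinuousMul 𝔾] (p : ℕ)
  [Fact p.Prime] (Ω : Type) [MulAction 𝔾 Ω] (I : Ω → Subgroup 𝔾) (K L : Subgroup 𝔾) (n t a C : ℕ)
  (T : Finset Ω), (∀ (g : 𝔾) (w : Ω), ∀ x ∈ I w, g * x * g⁻¹ ∈ I (g • w)) → K ≤ L →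
  (∀ d ∈ L, ∀ x ∈ K, d * x * d⁻¹ ∈ K) → K.relIndex L = p ^ a → K.relIndex L ≤ n → T.card ≤ t →
  (∀ w, I w ⊓ L ≤ K ∨ ∃ u ∈ T, ∃ d ∈ L, w = d • u) → RankLe p I L C →
  RankLe p I K ((cst n (n * t) * C) ^ n)

/-- **P4.** Auxiliary cyclic extensions of `ℚ` of prime degree `ℓ`, contained in `ℚ(ζ_q)`.

PROOF. Take the prime `q` from `Pool.Agent.K4H40.ST.Aux.exists_l ℓ _ m.primeFactors _ (b + |disc N| + m)` where `N` is the
fixed field of `K` (see `Pool.Agent.Run7.h508.BR.aux_char` of helper508, file `Run7/h508/BR/AuxC.lean`, which is the same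
statement for abstract number fields and can be followed closely; it uses `chi_surj`, `chi_decomp` there). Let `ζ ∈ Qb` be a
primitive `q`-th root of unity, `χ : Gal(Qb/ℚ) → (ZMod q)ˣ` the cyclotomic character (`IsPrimitiveRoot.autToPow`), `A₁` the kernel of
`χ ^ ((q - 1) / ℓ)`. `index = ℓ` since `χ` is surjective. Open: it contains the fixing subgroup of `ℚ(ζ)`. Inertia groups
away from `q`: `σ z - z ∈ A.nonunits` and `σ z = z` as in `Pool.Agent.W5h77.MB.root_eq_one`/`inertia_le_layer` (so `χ σ = 1`).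
Decomposition groups `σ • A = A` of rings `A` with `(m : Qb) ∈ A.nonunits`: there is a prime `r ∣ m`, `r ≠ q`, with
`(r : Qb) ∈ A.nonunits`; `σ` acts on the residue field of `A` (characteristic `r`), so on the `q`-th roots of unity of it as a power
of Frobenius: `χ σ = r ^ j` (compare `chi_decomp`), and `r ^ ((q - 1) / ℓ) = 1` in `ZMod q`.
Complex conjugation: `χ c = -1` and `(-1) ^ ((q - 1) / ℓ) = 1` because `2 ℓ ∣ q - 1`.
`K ⊔ A₁ = ⊤`: for each `u` there is `g ∈ K` with `g ζ = ζ ^ u` (`chi_surj` for `N ⊆ M = N(ζ)` as `q` is prime to `disc N`, and lift to `Qb`,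
`IntermediateField` version: `AlgEquiv.restrictNormalHom_surjective` / `IsAlgClosed.lift`). -/
def S_aux : Prop := ∀ (ℓ m b : ℕ), ℓ.Prime → m ≠ 0 → ∀ K : Subgroup Gal(Qb/ℚ),
  IsOpen (K : Set Gal(Qb/ℚ)) → K.index ≠ 0 →
  ∃ (q : ℕ) (A₁ : Subgroup Gal(Qb/ℚ)), q.Prime ∧ b < q ∧ A₁.Normal ∧
    IsOpen (A₁ : Set Gal(Qb/ℚ)) ∧ A₁.index = ℓ ∧ (∀ σ τ : Gal(Qb/ℚ), ⁅σ, τ⁆ ∈ A₁) ∧
    (∀ A : ValuationSubring Qb, (q : Qb) ∉ A.nonunits → inertia A ≤ A₁) ∧
    (∀ A : ValuationSubring Qb, (m : Qb) ∈ A.nonunits → ∀ σ : Gal(Qb/ℚ), σ • A = A → σ ∈ A₁) ∧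
    (∀ (ι : Qb →+* ℂ) (c : Gal(Qb/ℚ)), (∀ x, ι (c x) = conj (ι x)) → c ∈ A₁) ∧
    ∀ g : Gal(Qb/ℚ), ∃ κ ∈ K, κ * g ∈ A₁

/-- **P5.** In the cyclotomic `ℤ_p`-extension (`p` odd) every prime number has a bounded number of primes above it.

PROOF. Let `r` be prime. All the rings `A` with `(r : Qb) ∈ A.nonunits` are conjugate (`conj_of_one` for `M = ⊥`, where
`OnePrime r ⊥` because a valuation ring of `ℚ` with `r` in its maximal ideal is the localisation at `r`). If there is none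
take `T = ∅`. Fix `A₀` and let `D = {σ | σ • A₀ = A₀}`. For a layer `R` put `H = R.fixingSubgroup`, normal of index `p ^ m`.
It suffices that the index of `D ⊔ H` is bounded: take for `T` the set of the `g • A₀`, `g` in a set of representatives of
`Gal / (D ⊔ H)` (`g h d • A₀ = g h g⁻¹ • g • A₀`, `H` normal).
(i) `r = p`: `D ⊔ H = ⊤`. Indeed inertia of `A₀` maps onto `Gal(R/ℚ)`. Or directly: there is only one prime of `R` above `p`
(e.g. because `z - 1`, `z` a primitive `p^N`-th root of unity, generates the only prime of `ℤ[z]` above `p`; in terms of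
conjugacy: for two rings `A, B` above `p` it suffices to find `g ∈ adjoin(...).fixingSubgroup` with `A = g • B`, by
`H639R3.exists_aut` it suffices that `A ∩ ℚ(z) = B ∩ ℚ(z)`). This case may also be done by `conj_of_one` and `OnePrime p R`.
(ii) `r ≠ p`. There is `φ ∈ D` which acts on the residue field of `A₀` as `x ↦ x ^ r` at least on the roots of unity of order
`p ^ N` (for each given `N`): Mathlib has arithmetic Frobenius elements for finite Galois extensions (`IsArithFrobAt`,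
`AlgHom.IsArithFrobAt`, `exists_isArithFrobAt`…), applied to `ℚ(z)`, `z` of order `p ^ N`, or to `Qb`, and `H639R3.exists_aut` to lift into
`D`. So `φ z = z ^ r` for the roots of unity `z` of order `p ^ N` (away from `p` congruent roots of unity are equal, `root_eq_one`).
Let `s` be such that `p ^ s` does not divide `r ^ (p - 1) - 1` (e.g. `s = r ^ p`). If `m ≥ s` then the fixed field of `D ⊔ H` is a
subfield of `R` of degree `p ^ j`, where `j` is bounded by `s`: otherwise it contains the layer `R_s ⊆ R` of degree `p ^ s` (the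
subfields of a cyclic extension of degree `p ^ m` are totally ordered), so `φ` is trivial on `R_s`; as
`Gal(ℚ(z_{s+1})/R_s)` is cyclic of order `p - 1`, `φ ^ (p - 1)` is trivial on `ℚ(z_{s+1})`, so `r ^ (p - 1) = 1` modulo `p ^ (s + 1)`,
a contradiction. (Any other proof is fine, e.g. with `IsCyclotomicExtension.Rat.inertiaDeg…` of Mathlib; the bound `t` may
depend on `p` and `r` in any way.) -/
def S_findec : Prop := ∀ p : ℕ, p.Prime → p ≠ 2 → ∀ r : ℕ, r.Prime → ∃ t : ℕ, ∀ (m : ℕ)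
  (R : IntermediateField ℚ Qb), IsLayer p m R → ∃ T : Finset (ValuationSubring Qb), T.card ≤ t ∧
    ∀ A : ValuationSubring Qb, (r : Qb) ∈ A.nonunits → ∃ B ∈ T, ∃ σ ∈ R.fixingSubgroup, A = σ • B

/-- The field-theoretic form of `RelLe`: each finite extension `E` of `M'` which is Galois over `M`, with
`Gal(E/M')` an elementary abelian `p`-group, not met by the groups `I w`, and such that no nontrivial element of
`Gal(E/M')` commutes with `Gal(E/M)`, has degree at most `C` over `M'`. -/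
def RelDeg (p : ℕ) {Ω : Type} (I : Ω → Subgroup Gal(Qb/ℚ)) (M M' : IntermediateField ℚ Qb) (C : ℕ) :
    Prop :=
  ∀ E : IntermediateField ℚ Qb, M' ≤ E → FiniteDimensional ℚ E →
    (∀ σ ∈ M.fixingSubgroup, ∀ x ∈ E, σ x ∈ E) →
    (∀ σ ∈ M'.fixingSubgroup, ∀ τ ∈ M'.fixingSubgroup, ∀ x ∈ E, σ (τ x) = τ (σ x)) →
    (∀ σ ∈ M'.fixingSubgroup, ∀ x ∈ E, (σ ^ p) x = x) →
    (∀ w, ∀ σ ∈ I w, σ ∈ M'.fixingSubgroup → ∀ x ∈ E, σ x = x) →
    (∀ σ ∈ M'.fixingSubgroup, (∀ τ ∈ M.fixingSubgroup, ∀ x ∈ E, σ (τ x) = τ (σ x)) →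
      ∀ x ∈ E, σ x = x) →
    Module.finrank ℚ E ≤ C * Module.finrank ℚ M'

/-- **P6.** `RelDeg` and `RankLe` for a general family `I`, and the comparison of `RelDeg` with `RelLe`.

PROOF. Follow `Pool.Agent.Q60.MU.rankLe_iff` (file `Q60/MU/Fields.lean`): given `W` take `E = fixedField W`. In (2): `E` is stable
under `M.fixingSubgroup` because `W` is normalised by `h` and by `M'.fixingSubgroup` (it contains the commutators), and
`σ ∈ M'.fixingSubgroup` commutes with `h` on `E` iff `⁅h, σ⁆ ∈ W` (use that `h⁻¹` also normalises `W`: `W` has finite index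
in `K`, `h W h⁻¹ ≤ W ≤ K` and the indices of `W` and of `h W h⁻¹` in `K = h K h⁻¹` agree; or conjugation by `h⁻¹ = h^(n-1) (h^n)⁻¹`,
`h ^ n ∈ K`), then it commutes with all of `M.fixingSubgroup`, which is generated by `h` and `M'.fixingSubgroup`. -/
def S_rel : Prop :=
  (∀ (p : ℕ) (Ω : Type) (I : Ω → Subgroup Gal(Qb/ℚ)) (E : IntermediateField ℚ Qb) (C : ℕ),
    FiniteDimensional ℚ E →
    (RankLe p I E.fixingSubgroup C ↔
      ∀ M : IntermediateField ℚ Qb, E ≤ M → FiniteDimensional ℚ M →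
      (∀ σ ∈ E.fixingSubgroup, ∀ x ∈ M, σ x ∈ M) →
      (∀ σ ∈ E.fixingSubgroup, ∀ τ ∈ E.fixingSubgroup, ∀ x ∈ M, σ (τ x) = τ (σ x)) →
      (∀ σ ∈ E.fixingSubgroup, ∀ x ∈ M, (σ ^ p) x = x) →
      (∀ w, ∀ σ ∈ I w, σ ∈ E.fixingSubgroup → ∀ x ∈ M, σ x = x) →
      Module.finrank ℚ M ≤ C * Module.finrank ℚ E)) ∧
  (∀ (p : ℕ) (Ω : Type) (I : Ω → Subgroup Gal(Qb/ℚ)) (M M' : IntermediateField ℚ Qb)
    (h : Gal(Qb/ℚ)) (n C : ℕ), FiniteDimensional ℚ M' → M ≤ M' → h ∈ M.fixingSubgroup → n ≠ 0 →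
    h ^ n ∈ M'.fixingSubgroup → (∀ σ ∈ M.fixingSubgroup, ∀ x ∈ M'.fixingSubgroup,
      σ * x * σ⁻¹ ∈ M'.fixingSubgroup) →
    (∀ σ ∈ M.fixingSubgroup, ∃ (j : ℕ) (κ : Gal(Qb/ℚ)), κ ∈ M'.fixingSubgroup ∧ σ = h ^ j * κ) →
    RelDeg p I M M' C → RelLe p I M'.fixingSubgroup h C)

/-- **P7.** `μ = 0` for `ℚ`.

PROOF. `Pool.Agent.W5h77.MB.one_prime` with `M = ⊥`. `OnePrime p ⊥` is elementary (see P5). `DegLe p ⊥ 1` is Minkowski's theorem: a
finite Galois extension `E` of `ℚ` all of whose inertia groups are trivial is `ℚ`. Mathlib: `NumberField.discr` and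
`NumberField.abs_discr_gt_two`, and the theorem that a prime which divides the discriminant ramifies; the translation between the
inertia groups of the valuation rings `A` of `Qb` and the primes of `𝓞 E` is as in `Pool.Agent.Q60.MU.exists_bad`
and in `H639R3.exists_aut`. Search the library for `unramified`, `differentIdeal`, `Ideal.inertia`, `lift_inertia`. -/
def S_base : Prop := ∀ (p : ℕ) [Fact p.Prime] (m : ℕ) (R : IntermediateField ℚ Qb),
  IsLayer p m R → DegLe p R 1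

end Pool.Agent.Run7.h759.UM
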