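import Mathlib
import Pool.Agent.K4H40.ST.AuxB
import Pool.Agent.Run7.h759.UM.Iface

/-!
# Piece P4: auxiliary cyclic extensions of prime degree contained in `ℚ(ζ_q)`
-/

set_option autoImplicit false
set_option linter.unusedSectionVars false

namespace Pool.Agent.Run7.h759.UM

open NumberField Polynomial IntermediateField Pool.Agent.Q60.MU Pool.Agent.W5h77.MB
  Pool.Agent.K4H40.ST.Aux
open scoped commutatorElement Pointwise ComplexConjugate

namespace P4

lemma val_unit_eq {M : Type} [Field M] {q : ℕ} [Fact q.Prime] {ζ : M} (hζ : IsPrimitiveRoot ζ q)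
    {u v : (ZMod q)ˣ} (h : ζ ^ (u : ZMod q).val = ζ ^ (v : ZMod q).val) : u = v := by
  apply Units.ext
  apply ZMod.val_injective
  exact hζ.pow_inj (ZMod.val_lt _) (ZMod.val_lt _) h

set_option backward.isDefEq.respectTransparency false in
/-- the cyclotomic character is surjective on the Galois group over a field whose discriminant is
prime to `q` (copied from `Pool.Agent.Run7.h508.BR.chi_surj`) -/
lemma chi_surj {N M : Type} [Field N] [NumberField N] [Field M] [NumberField M] [Algebra N M]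
    [IsGalois N M] {q : ℕ} [hq : Fact q.Prime] {ζ : M} (hζ : IsPrimitiveRoot ζ q)
    (hd : ¬ q ∣ (discr N).natAbs) (u : (ZMod q)ˣ) : ∃ g : M ≃ₐ[N] M, g ζ = ζ ^ (u : ZMod q).val := by
  classical
  let i : N →ₐ[ℚ] M := IsScalarTower.toAlgHom ℚ N M
  let L : IntermediateField ℚ M := i.fieldRange
  let e : N ≃ₐ[ℚ] L := AlgEquiv.ofInjectiveField i
  have hLM : IsGalois L M := by
    refine IsGalois.of_equiv_equiv (F := N) (E := M) (f := e.toRingEquiv) (g := RingEquiv.refl M) ?_
    ext x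
    rfl
  let K1 : IntermediateField ℚ M := IntermediateField.adjoin ℚ {ζ}
  have hcyc : IsCyclotomicExtension {q} ℚ K1 := hζ.intermediateField_adjoin_isCyclotomicExtension ℚ
  have hK1 : IsGalois ℚ K1 := IsCyclotomicExtension.isGalois {q} ℚ K1
  have hcop : IsCoprime (discr K1) (discr L) := by
    rw [← discr_eq_discr_of_algEquiv N e, Int.isCoprime_iff_nat_coprime,
      IsCyclotomicExtension.Rat.natAbs_discr q K1]
    refine Nat.Coprime.coprime_div_left ?_ (Nat.prod_primeFactors_pow_totient_ediv_dvd hq.out.pos)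
    exact Nat.Coprime.pow_left _ ((Nat.Prime.coprime_iff_not_dvd hq.out).mpr hd)
  have hnorm : Normal ℚ K1 := hK1.to_normal
  have hdis := (linearDisjoint_of_isGalois_isCoprime_discr M K1 L hcop).inf_eq_bot
  have hsurj := IntermediateField.restrictRestrictAlgEquivMapHom_surjective K1 L hdis
  let ζ' : K1 := ⟨ζ, IntermediateField.mem_adjoin_simple_self ℚ ζ⟩
  have hζ' : IsPrimitiveRoot ζ' q :=
    IsPrimitiveRoot.of_map_of_injective (f := algebraMap K1 M) hζ (algebraMap K1 M).injective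
  have hz := IsCyclotomicExtension.zeta_spec q ℚ K1
  obtain ⟨a, -, ha⟩ := hz.eq_pow_of_pow_eq_one hζ'.pow_eq_one
  let σ : K1 ≃ₐ[ℚ] K1 := (IsCyclotomicExtension.autEquivPow K1
    (cyclotomic.irreducible_rat hq.out.pos)).symm u
  have hσ : σ (IsCyclotomicExtension.zeta q ℚ K1) =
      IsCyclotomicExtension.zeta q ℚ K1 ^ (u : ZMod q).val := by
    rw [← hz.autToPow_spec ℚ σ]
    have h1 : hz.autToPow ℚ σ = u := by
      have h2 := (IsCyclotomicExtension.autEquivPow K1
        (cyclotomic.irreducible_rat hq.out.pos)).apply_symm_apply u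
      exact h2
    rw [h1]
  have hσ2 : σ ζ' = ζ' ^ (u : ZMod q).val := by
    rw [← ha, map_pow, hσ, ← pow_mul, ← pow_mul, mul_comm]
  obtain ⟨g', hg'⟩ := hsurj σ
  let g : M ≃ₐ[N] M := AlgEquiv.ofRingEquiv (f := g'.toRingEquiv) (fun x => by
    exact g'.commutes (e x))
  refine ⟨g, ?_⟩
  have h3 := IntermediateField.restrictRestrictAlgEquivMapHom_apply K1 L g' ζ'
  rw [hg', hσ2] at h3
  exact h3.symm

/-- Every value of the cyclotomic character is taken on the absolute Galois group of a number field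
with discriminant prime to `q`. -/
lemma surj (N : IntermediateField ℚ Qb) [FiniteDimensional ℚ N] [NumberField N] {q : ℕ}
    [hq : Fact q.Prime] {ζ : Qb} (hζ : IsPrimitiveRoot ζ q) (hd : ¬ q ∣ (discr N).natAbs)
    (u : (ZMod q)ˣ) : ∃ κ ∈ N.fixingSubgroup, hζ.autToPow ℚ κ = u := by
  classical
  let M : IntermediateField N Qb := IntermediateField.adjoin N {ζ}
  have hcyc : IsCyclotomicExtension {q} N M := hζ.intermediateField_adjoin_isCyclotomicExtension N
  have hG : IsGalois N M := IsCyclotomicExtension.isGalois {q} N M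
  have hfin : FiniteDimensional N M := IsCyclotomicExtension.finiteDimensional {q} N M
  have hfin2 : FiniteDimensional ℚ M := Module.Finite.trans N M
  have hnf : NumberField M := { to_charZero := inferInstance, to_finiteDimensional := hfin2 }
  let ζ' : M := ⟨ζ, IntermediateField.mem_adjoin_simple_self N ζ⟩
  have hζ' : IsPrimitiveRoot ζ' q :=
    IsPrimitiveRoot.of_map_of_injective (f := algebraMap M Qb) hζ (algebraMap M Qb).injective
  obtain ⟨g, hg⟩ := chi_surj (N := N) (M := M) hζ' hd u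
  obtain ⟨G, hG2⟩ := AlgEquiv.restrictNormalHom_surjective (F := N) (K₁ := M) Qb g
  let κ : Gal(Qb/ℚ) := G.restrictScalars ℚ
  refine ⟨κ, ?_, ?_⟩
  · rw [IntermediateField.mem_fixingSubgroup_iff]
    intro x hx
    exact G.commutes (⟨x, hx⟩ : N)
  · refine val_unit_eq hζ ?_
    rw [hζ.autToPow_spec ℚ κ]
    have h1 : G ζ = ((g ζ' : M) : Qb) := by
      rw [← hG2]
      exact (AlgEquiv.restrictNormalHom_apply (F := N) (K₁ := Qb) M G ζ').symm
    show G ζ = _
    rw [h1, hg]
    rfl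

lemma exists_prime_mem {R : Type} [CommRing R] {Q : Ideal R} (hQ : Q.IsPrime) {n : ℕ} (hn : n ≠ 0)
    (h : (n : R) ∈ Q) : ∃ p : ℕ, p.Prime ∧ p ∣ n ∧ (p : R) ∈ Q := by
  induction n using Nat.strong_induction_on with
  | _ n ih =>
    have hn1 : n ≠ 1 := by
      rintro rfl
      rw [Nat.cast_one] at h
      exact hQ.ne_top ((Ideal.eq_top_iff_one _).2 h)
    have hp : n.minFac.Prime := Nat.minFac_prime hn1
    obtain ⟨m, hm⟩ := Nat.minFac_dvd n
    have hm0 : m ≠ 0 := by
      rintro rfl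
      rw [mul_zero] at hm
      exact hn hm
    have hlt : m < n := by
      calc m < n.minFac * m := by
            have := hp.two_le
            have := Nat.pos_of_ne_zero hm0
            nlinarith
        _ = n := hm.symm
    have hmem' : ((n.minFac : ℕ) : R) * (m : R) ∈ Q := by
      rw [← Nat.cast_mul, ← hm]
      exact h
    rcases hQ.mem_or_mem hmem' with h | h
    · exact ⟨_, hp, Nat.minFac_dvd n, h⟩
    · obtain ⟨p, h1, h2, h3⟩ := ih m hlt hm0 h
      exact ⟨p, h1, h2.trans ⟨n.minFac, by rw [mul_comm]; exact hm⟩, h3⟩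

/-- A valuation ring over the prime `r` is not over the prime `q`. -/
lemma not_both {q r : ℕ} (hq : q.Prime) (hr : r.Prime) (hrq : r ≠ q) {A : ValuationSubring Qb}
    (hA : (r : Qb) ∈ A.nonunits) : (q : Qb) ∉ A.nonunits := by
  intro hB
  have h1 : ((r : ℕ) : A) ∈ IsLocalRing.maximalIdeal A := by
    rw [← ValuationSubring.coe_mem_nonunits_iff]
    exact_mod_cast hA
  have h2 : ((q : ℕ) : A) ∈ IsLocalRing.maximalIdeal A := by
    rw [← ValuationSubring.coe_mem_nonunits_iff]
    exact_mod_cast hB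
  exact notMem_of_coprime (IsLocalRing.maximalIdeal.isMaximal A).ne_top
    ((Nat.coprime_primes hr hq).2 hrq) h1 h2

/-- the cyclotomic character on the decomposition groups -/
lemma decomp {q r : ℕ} [hq : Fact q.Prime] (hr : r.Prime) (hrq : r ≠ q) {ζ : Qb}
    (hζ : IsPrimitiveRoot ζ q) {A : ValuationSubring Qb} (hA : (r : Qb) ∈ A.nonunits)
    {σ : Gal(Qb/ℚ)} (hσ : σ • A = A) :
    ∃ j : ℕ, ((hζ.autToPow ℚ σ : (ZMod q)ˣ) : ZMod q) = (r : ZMod q) ^ j := by
  classical
  have hrf : Fact r.Prime := ⟨hr⟩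
  have hmem : ∀ x ∈ A, σ x ∈ A := fun x hx => by
    have h6 := ValuationSubring.smul_mem_pointwise_smul σ x A hx
    rwa [hσ] at h6
  have hσ' : σ⁻¹ • A = A := by rw [inv_smul_eq_iff, hσ]
  have hmem' : ∀ x ∈ A, σ⁻¹ x ∈ A := fun x hx => by
    have h6 := ValuationSubring.smul_mem_pointwise_smul σ⁻¹ x A hx
    rwa [hσ'] at h6
  let f : A →+* A := RingHom.restrict (σ : Qb →+* Qb) A A hmem
  have hf : ∀ x : A, ((f x : A) : Qb) = σ x := fun x => rfl
  have hloc : IsLocalHom f := by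
    refine ⟨fun x hx => ?_⟩
    obtain ⟨y, hy⟩ := hx.exists_right_inv
    refine IsUnit.of_mul_eq_one (⟨σ⁻¹ y, hmem' y y.2⟩ : A) ?_
    apply Subtype.ext
    have h1 : σ (x : Qb) * (y : Qb) = 1 := by
      have h2 := congrArg (fun t : A => (t : Qb)) hy
      exact h2
    have h3 : σ⁻¹ (σ (x : Qb)) = x := by
      rw [← AlgEquiv.mul_apply, inv_mul_cancel, AlgEquiv.one_apply]
    have h4 := congrArg (fun t : Qb => σ⁻¹ t) h1
    simp only [map_mul, map_one] at h4
    rw [h3] at h4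
    exact h4
  let φ : IsLocalRing.ResidueField A →+* IsLocalRing.ResidueField A := IsLocalRing.ResidueField.map f
  have hφ : ∀ x : A, φ (IsLocalRing.residue A x) = IsLocalRing.residue A (f x) :=
    fun x => IsLocalRing.ResidueField.map_residue f x
  have hchar : CharP (IsLocalRing.ResidueField A) r := by
    obtain ⟨c, hc⟩ := CharP.exists (IsLocalRing.ResidueField A)
    have h1 : ((r : ℕ) : IsLocalRing.ResidueField A) = 0 := by
      rw [← map_natCast (IsLocalRing.residue A), IsLocalRing.residue_eq_zero_iff,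
        ← ValuationSubring.coe_mem_nonunits_iff]
      exact_mod_cast hA
    have h2 : c ∣ r := (CharP.cast_eq_zero_iff _ c r).1 h1
    have h3 : c ≠ 1 := CharP.char_ne_one (IsLocalRing.ResidueField A) c
    have h4 : c = r := ((Nat.dvd_prime hr).1 h2).resolve_left h3
    rw [← h4]
    exact hc
  have hζA : ζ ∈ A := root_mem hq.out.ne_zero hζ.pow_eq_one
  let z : A := ⟨ζ, hζA⟩
  have hz : IsLocalRing.residue A z ^ q = 1 := by
    rw [← map_pow]
    have h1 : z ^ q = 1 := by
      apply Subtype.ext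
      exact hζ.pow_eq_one
    rw [h1, map_one]
  have hz1 : IsLocalRing.residue A z ≠ 1 := by
    intro h
    have h1 : z - 1 ∈ IsLocalRing.maximalIdeal A := by
      rw [← IsLocalRing.residue_eq_zero_iff, map_sub, h, map_one, sub_self]
    rw [← ValuationSubring.coe_mem_nonunits_iff] at h1
    have h2 : ζ - 1 ∈ A.nonunits := h1
    have h3 := root_eq_one hq.out (not_both hq.out hr hrq hA) (N := 1) (u := ζ)
      (by rw [pow_one]; exact hζ.pow_eq_one) h2
    exact hζ.ne_one hq.out.one_lt h3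
  have hc : φ (IsLocalRing.residue A z) =
      IsLocalRing.residue A z ^ ((hζ.autToPow ℚ σ : (ZMod q)ˣ) : ZMod q).val := by
    rw [hφ, ← map_pow]
    congr 1
    apply Subtype.ext
    exact (hζ.autToPow_spec ℚ σ).symm
  obtain ⟨j, hj⟩ := char_eq r q hrq φ hz hz1 hc
  refine ⟨j, ?_⟩
  rw [← hj, ZMod.natCast_zmod_val]

/-- the inertia groups away from `q` fix the `q`-th roots of unity -/
lemma inertia_fix {q : ℕ} (hq : q.Prime) {A : ValuationSubring Qb} (hA : (q : Qb) ∉ A.nonunits)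
    {σ : Gal(Qb/ℚ)} (hσ : σ ∈ inertia A) {z : Qb} (hz : z ^ q = 1) : σ z = z := by
  have hq0 : q ≠ 0 := hq.ne_zero
  have hz0 : z ≠ 0 := by
    rintro rfl
    rw [zero_pow hq0] at hz
    exact zero_ne_one hz
  have hzA : z ∈ A := root_mem hq0 hz
  have hz' : z⁻¹ ∈ A := root_mem hq0 (by rw [inv_pow, hz, inv_one])
  have h2 : σ z * z⁻¹ = 1 := by
    apply root_eq_one hq hA (N := 1)
    · rw [pow_one, mul_pow, inv_pow, ← map_pow, hz, map_one, inv_one, mul_one]
    · have h3 : σ z * z⁻¹ - 1 = (σ z - z) * z⁻¹ := by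
        rw [sub_mul, mul_inv_cancel₀ hz0]
      rw [h3]
      exact mul_nonunits (hσ.2 z hzA) hz'
  exact (mul_inv_eq_one₀ hz0).1 h2

end P4

open P4 in
/-- **P4.** -/
theorem t_P4 : S_aux := by
  classical
  intro ℓ m b hℓ hm K hKo hK0
  let N : IntermediateField ℚ Qb := fixedField K
  have hKc : IsClosed (K : Set Gal(Qb/ℚ)) := Subgroup.isClosed_of_isOpen K hKo
  have hNK : N.fixingSubgroup = K := InfiniteGalois.fixingSubgroup_fixedField ⟨K, hKc⟩
  have hfd : FiniteDimensional ℚ N := (InfiniteGalois.isOpen_iff_finite N).1 (by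
    rw [hNK]
    exact hKo)
  have hnf : NumberField N := { to_charZero := inferInstance, to_finiteDimensional := hfd }
  obtain ⟨q, hq, hqb, hdiv, hres⟩ := exists_l ℓ hℓ.pos m.primeFactors
    (fun p hp => Nat.prime_of_mem_primeFactors hp) (b + (discr N).natAbs + m)
  have hqf : Fact q.Prime := ⟨hq⟩
  have hd : ¬ q ∣ (discr N).natAbs := by
    intro h
    have h1 := Nat.le_of_dvd (Int.natAbs_pos.mpr (discr_ne_zero N)) h
    omega
  have : NeZero ((q : ℕ) : AlgebraicClosure ℚ) := ⟨by exact_mod_cast hq.ne_zero⟩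
  obtain ⟨ζ, hζ⟩ : ∃ ζ : Qb, IsPrimitiveRoot ζ q :=
    HasEnoughRootsOfUnity.exists_primitiveRoot (AlgebraicClosure ℚ) q
  let χ : Gal(Qb/ℚ) →* (ZMod q)ˣ := hζ.autToPow ℚ
  have hsurj : ∀ u : (ZMod q)ˣ, ∃ κ ∈ K, χ κ = u := by
    intro u
    obtain ⟨κ, h1, h2⟩ := surj N hζ hd u
    exact ⟨κ, hNK ▸ h1, h2⟩
  let n := (q - 1) / ℓ
  have hlq : ℓ ∣ q - 1 := (Dvd.intro_left 2 rfl).trans hdiv
  have hln : ℓ * n = q - 1 := Nat.mul_div_cancel' hlq
  have hn0 : 0 < n := Nat.div_pos (Nat.le_of_dvd (Nat.sub_pos_of_lt hq.one_lt) hlq) hℓ.pos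
  have hn2 : 2 ∣ n := by
    obtain ⟨d, hd⟩ := hdiv
    refine ⟨d, ?_⟩
    have h1 : ℓ * n = ℓ * (2 * d) := by
      rw [hln, hd]
      ring
    exact Nat.eq_of_mul_eq_mul_left hℓ.pos h1
  let τ : Gal(Qb/ℚ) →* (ZMod q)ˣ := (powMonoidHom n : (ZMod q)ˣ →* (ZMod q)ˣ).comp χ
  have hτ : ∀ σ, τ σ = χ σ ^ n := fun σ => rfl
  have hχ1 : ∀ σ, χ σ = 1 → σ ∈ τ.ker := by
    intro σ h
    rw [MonoidHom.mem_ker, hτ, h, one_pow]
  have hfix : ∀ σ : Gal(Qb/ℚ), σ ζ = ζ → χ σ = 1 := by
    intro σ h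
    refine val_unit_eq hζ ?_
    rw [Units.val_one, ZMod.val_one, pow_one]
    exact (hζ.autToPow_spec ℚ σ).trans h
  refine ⟨q, τ.ker, hq, by omega, inferInstance, ?_, ?_, ?_, ?_, ?_, ?_, ?_⟩
  · -- open
    have hE : FiniteDimensional ℚ (adjoin ℚ {ζ}) :=
      adjoin.finiteDimensional (hζ.isIntegral hq.pos).tower_top
    refine Subgroup.isOpen_mono (H₁ := (adjoin ℚ {ζ}).fixingSubgroup) ?_
      (IntermediateField.fixingSubgroup_isOpen _)
    intro σ hσ
    rw [IntermediateField.mem_fixingSubgroup_iff] at hσ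
    exact hχ1 σ (hfix σ (hσ ζ (mem_adjoin_simple_self ℚ ζ)))
  · -- index
    rw [Subgroup.index_ker]
    have h1 : τ.range = (powMonoidHom n : (ZMod q)ˣ →* (ZMod q)ˣ).range := by
      ext y
      constructor
      · rintro ⟨σ, rfl⟩
        exact ⟨χ σ, rfl⟩
      · rintro ⟨u, rfl⟩
        obtain ⟨κ, -, hκ⟩ := hsurj u
        exact ⟨κ, by rw [hτ, hκ]; rfl⟩
    rw [h1, IsCyclic.card_powMonoidHom_range, Nat.card_eq_fintype_card, ZMod.card_units q, ← hln,
      Nat.gcd_eq_right (Dvd.intro_left ℓ rfl), Nat.mul_div_cancel _ hn0]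
  · -- commutators
    intro σ τ'
    rw [MonoidHom.mem_ker, map_commutatorElement, commutatorElement_eq_one_iff_mul_comm]
    exact mul_comm _ _
  · -- inertia
    intro A hA σ hσ
    exact hχ1 σ (hfix σ (inertia_fix hq hA hσ hζ.pow_eq_one))
  · -- decomposition
    intro A hA σ hσ
    have h1 : ((m : ℕ) : A) ∈ IsLocalRing.maximalIdeal A := by
      rw [← ValuationSubring.coe_mem_nonunits_iff]
      exact_mod_cast hA
    obtain ⟨r, hr, hrm, hrA⟩ := exists_prime_mem (IsLocalRing.maximalIdeal.isMaximal A).isPrime hm h1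
    have hrA' : (r : Qb) ∈ A.nonunits := by
      rw [← ValuationSubring.coe_mem_nonunits_iff] at hrA
      exact_mod_cast hrA
    have hrq : r ≠ q := by
      rintro rfl
      have := Nat.le_of_dvd (Nat.pos_of_ne_zero hm) hrm
      omega
    obtain ⟨j, hj⟩ := decomp hr hrq hζ hrA' hσ
    rw [MonoidHom.mem_ker, hτ]
    apply Units.ext
    rw [Units.val_pow_eq_pow_val]
    change (((hζ.autToPow ℚ σ : (ZMod q)ˣ) : ZMod q)) ^ n = _
    rw [hj, ← pow_mul, mul_comm, pow_mul, hres r (Nat.mem_primeFactors.mpr ⟨hr, hrm, hm⟩), one_pow,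
      Units.val_one]
  · -- complex conjugation
    intro ι c hc
    have h1 : c * c = 1 := by
      ext x
      apply ι.injective
      show ι (c (c x)) = ι x
      rw [hc, hc, Complex.conj_conj]
    rw [MonoidHom.mem_ker, hτ]
    obtain ⟨d, hd⟩ := hn2
    rw [hd, pow_mul, ← map_pow, pow_two, h1, map_one, one_pow]
  · -- complement
    intro g
    obtain ⟨κ, hκ, h⟩ := hsurj (χ g)⁻¹
    refine ⟨κ, hκ, hχ1 _ ?_⟩
    rw [map_mul, h, inv_mul_cancel]

end Pool.Agent.Run7.h759.UM
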