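import Pool.Agent.Run7.h759.UM.P4a
import Pool.Agent.Run7.h759.UM.P4

/-!
# Auxiliary cyclic extensions of `ℚ` of prime degree
-/

set_option autoImplicit false

namespace Pool.Agent.Run7.h759.UM

open Subgroup Pool.Agent.Q60.MU Pool.Agent.W5h77.MB IntermediateField NumberField
  Pool.Agent.K4H40.ST.Aux
open scoped commutatorElement Pointwise ComplexConjugate

/-- the cyclotomic character on the decomposition groups -/
theorem chi_dec {q : ℕ} [hq : Fact q.Prime] {ζ : Qb} (hζ : IsPrimitiveRoot ζ q) {r : ℕ}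
    (hr : r.Prime) (hrq : r ≠ q) {A : ValuationSubring Qb} (hA : (r : Qb) ∈ A.nonunits)
    {σ : Gal(Qb/ℚ)} (hσ : σ • A = A) :
    ∃ j : ℕ, ((hζ.autToPow ℚ σ : (ZMod q)ˣ) : ZMod q) = (r : ZMod q) ^ j := by
  classical
  have hrf : Fact r.Prime := ⟨hr⟩
  have hσA : ∀ x : Qb, x ∈ A → σ x ∈ A := by
    intro x hx
    have h1 := ValuationSubring.smul_mem_pointwise_smul σ x A hx
    rwa [hσ] at h1
  have hσA' : ∀ x : Qb, σ x ∈ A → x ∈ A := by
    intro x hx
    rw [← hσ] at hx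
    exact ValuationSubring.smul_mem_pointwise_smul_iff.1 hx
  let φA : A →+* A :=
    { toFun := fun x => ⟨σ x, hσA x x.2⟩
      map_one' := Subtype.ext (map_one σ)
      map_mul' := fun x y => Subtype.ext (map_mul σ _ _)
      map_zero' := Subtype.ext (map_zero σ)
      map_add' := fun x y => Subtype.ext (map_add σ _ _) }
  have hloc : IsLocalHom φA := by
    refine ⟨fun x hx => ?_⟩
    obtain ⟨u, hu⟩ := hx
    have h1 : (φA x : Qb) * ((↑(u⁻¹) : A) : Qb) = 1 := by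
      rw [← hu]
      have h2 : ((u : A) * (↑(u⁻¹) : A)) = 1 := u.mul_inv
      exact congrArg (fun z : A => (z : Qb)) h2
    have hx0 : (x : Qb) ≠ 0 := by
      intro h2
      have h3 : (φA x : Qb) = 0 := by
        change σ (x : Qb) = 0
        rw [h2, map_zero]
      rw [h3, zero_mul] at h1
      exact zero_ne_one h1
    have h2 : σ ((x : Qb)⁻¹) ∈ A := by
      have h3 : σ ((x : Qb)⁻¹) = ((↑(u⁻¹) : A) : Qb) := by
        rw [map_inv₀]
        exact inv_eq_of_mul_eq_one_right h1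
      rw [h3]
      exact SetLike.coe_mem _
    have h3 := hσA' _ h2
    exact IsUnit.of_mul_eq_one ⟨(x : Qb)⁻¹, h3⟩ (Subtype.ext (mul_inv_cancel₀ hx0))
  have hchar : CharP (IsLocalRing.ResidueField A) r := by
    obtain ⟨c, hc⟩ := CharP.exists (IsLocalRing.ResidueField A)
    have h1 : ((r : ℕ) : IsLocalRing.ResidueField A) = 0 := by
      rw [← map_natCast (IsLocalRing.residue A), IsLocalRing.residue_eq_zero_iff,
        ValuationSubring.valuation_lt_one_iff]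
      have h2 := (ValuationSubring.mem_nonunits_iff A).1 hA
      push_cast
      exact h2
    have h2 : c ∣ r := (CharP.cast_eq_zero_iff _ c r).1 h1
    have h3 : c ≠ 1 := CharP.char_ne_one (IsLocalRing.ResidueField A) c
    have h4 : c = r := ((Nat.dvd_prime hr).1 h2).resolve_left h3
    rw [← h4]
    exact hc
  have hζA : ζ ∈ A := root_mem hq.out.ne_zero hζ.pow_eq_one
  let z0 : A := ⟨ζ, hζA⟩
  have hz0 : z0 ^ q = 1 := Subtype.ext hζ.pow_eq_one
  have hqA : (q : Qb) ∉ A.nonunits := not_both ((Nat.coprime_primes hr hq.out).2 hrq) hA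
  have hz1 : IsLocalRing.residue A z0 ≠ 1 := by
    intro h
    have h1 : IsLocalRing.residue A (z0 - 1) = 0 := by
      rw [map_sub, h, map_one, sub_self]
    rw [IsLocalRing.residue_eq_zero_iff, ValuationSubring.valuation_lt_one_iff] at h1
    have h2 : ζ - 1 ∈ A.nonunits := (ValuationSubring.mem_nonunits_iff A).2 h1
    exact hζ.ne_one hq.out.one_lt (root_eq_one hq.out hqA (N := 1)
      (by rw [pow_one]; exact hζ.pow_eq_one) h2)
  have hz : IsLocalRing.residue A z0 ^ q = 1 := by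
    rw [← map_pow, hz0, map_one]
  have hc : IsLocalRing.ResidueField.map φA (IsLocalRing.residue A z0) =
      IsLocalRing.residue A z0 ^ ((hζ.autToPow ℚ σ : (ZMod q)ˣ) : ZMod q).val := by
    have h1 : φA z0 = z0 ^ ((hζ.autToPow ℚ σ : (ZMod q)ˣ) : ZMod q).val :=
      Subtype.ext (hζ.autToPow_spec ℚ σ).symm
    rw [← map_pow, ← h1]
    rfl
  obtain ⟨j, hj⟩ := char_eq r q hrq (IsLocalRing.ResidueField.map φA) hz hz1 hc
  refine ⟨j, ?_⟩
  rw [← hj, ZMod.natCast_zmod_val]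

set_option backward.isDefEq.respectTransparency false in
/-- surjectivity on the open subgroups -/
theorem chi_surj' (K : Subgroup Gal(Qb/ℚ)) (hKo : IsOpen (K : Set Gal(Qb/ℚ))) (hKf : K.index ≠ 0) :
    ∃ b : ℕ, ∀ (q : ℕ) [Fact q.Prime], b < q → ∀ (ζ : Qb) (hζ : IsPrimitiveRoot ζ q)
      (u : (ZMod q)ˣ), ∃ g ∈ K, hζ.autToPow ℚ g = u := by
  classical
  let N : IntermediateField ℚ Qb := fixedField K
  have hNd : FiniteDimensional ℚ N := finite_fixed hKo hKf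
  have hNn : NumberField N := ⟨⟩
  refine ⟨(discr N).natAbs, fun q hq hbq ζ hζ u => ?_⟩
  have hd : ¬ q ∣ (discr N).natAbs := by
    intro h
    have h1 := Nat.le_of_dvd (Int.natAbs_pos.mpr (discr_ne_zero N)) h
    omega
  let M : IntermediateField N Qb := IntermediateField.adjoin N {ζ}
  have hcyc : IsCyclotomicExtension {q} N M := hζ.intermediateField_adjoin_isCyclotomicExtension N
  have hMG : IsGalois N M := IsCyclotomicExtension.isGalois {q} N M
  have hMd : FiniteDimensional N M := IsCyclotomicExtension.finiteDimensional {q} N M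
  have hMQ : FiniteDimensional ℚ M := Module.Finite.trans N M
  have hMn : NumberField M :=
    { to_charZero := charZero_of_injective_algebraMap (algebraMap N M).injective
      to_finiteDimensional := by
        convert hMQ }
  let ζM : M := ⟨ζ, IntermediateField.mem_adjoin_simple_self N ζ⟩
  have hζM : IsPrimitiveRoot ζM q :=
    IsPrimitiveRoot.of_map_of_injective (f := algebraMap M Qb) hζ (algebraMap M Qb).injective
  obtain ⟨g, hg⟩ := P4.chi_surj (N := N) (M := M) hζM hd u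
  have hNG : IsGalois N Qb := IsGalois.tower_top_of_isGalois ℚ N Qb
  obtain ⟨g', hg'⟩ := AlgEquiv.restrictNormalHom_surjective (F := N) (K₁ := M) Qb g
  have h1 : g' ζ = ζ ^ (u : ZMod q).val := by
    have h2 := AlgEquiv.restrictNormal_commutes g' M ζM
    have h3 : (AlgEquiv.restrictNormal g' M) ζM = ζM ^ (u : ZMod q).val := by
      have h4 : AlgEquiv.restrictNormal g' M = g := hg'
      rw [h4]
      exact hg
    rw [h3, map_pow] at h2
    exact h2.symm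
  refine ⟨g'.restrictScalars ℚ, ?_, ?_⟩
  · rw [← fix_fixed hKo, IntermediateField.mem_fixingSubgroup_iff]
    intro x hx
    exact g'.commutes (⟨x, hx⟩ : N)
  · refine P4.val_unit_eq hζ ?_
    rw [hζ.autToPow_spec ℚ]
    exact h1

/-- the auxiliary extensions, with control of the decomposition groups above the primes `≡ 1` modulo `q` -/
def S_aux2 : Prop := ∀ (ℓ m b n₀ : ℕ), ℓ.Prime → m ≠ 0 → n₀ ≠ 0 → ∀ K : Subgroup Gal(Qb/ℚ),
  IsOpen (K : Set Gal(Qb/ℚ)) → K.index ≠ 0 →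
  ∃ (q : ℕ) (A₁ : Subgroup Gal(Qb/ℚ)), q.Prime ∧ b < q ∧ n₀ ∣ q - 1 ∧ A₁.Normal ∧
    IsOpen (A₁ : Set Gal(Qb/ℚ)) ∧ A₁.index = ℓ ∧ (∀ σ τ : Gal(Qb/ℚ), ⁅σ, τ⁆ ∈ A₁) ∧
    (∀ A : ValuationSubring Qb, (q : Qb) ∉ A.nonunits → inertia A ≤ A₁) ∧
    (∀ A : ValuationSubring Qb, (m : Qb) ∈ A.nonunits → ∀ σ : Gal(Qb/ℚ), σ • A = A → σ ∈ A₁) ∧
    (∀ r : ℕ, r.Prime → q ∣ r - 1 → ∀ A : ValuationSubring Qb, (r : Qb) ∈ A.nonunits →
      ∀ σ : Gal(Qb/ℚ), σ • A = A → σ ∈ A₁) ∧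
    (∀ (ι : Qb →+* ℂ) (c : Gal(Qb/ℚ)), (∀ x, ι (c x) = conj (ι x)) → c ∈ A₁) ∧
    ∀ g : Gal(Qb/ℚ), ∃ κ ∈ K, κ * g ∈ A₁

theorem t_aux2 : S_aux2 := by
  intro ℓ m b n₀ hℓ hm hn₀ K hKo hKf
  classical
  obtain ⟨b', hb'⟩ := chi_surj' K hKo hKf
  obtain ⟨q, hq, hqN, hdiv, hres⟩ := exists_l (ℓ * n₀) (Nat.mul_pos hℓ.pos (Nat.pos_of_ne_zero hn₀))
    m.primeFactors (fun p hp => Nat.prime_of_mem_primeFactors hp) (b + b' + m)
  have hqf : Fact q.Prime := ⟨hq⟩
  obtain ⟨ζ, hζ⟩ : ∃ ζ : Qb, IsPrimitiveRoot ζ q := by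
    have : NeZero ((q : ℕ) : Qb) := ⟨by exact_mod_cast hq.ne_zero⟩
    exact HasEnoughRootsOfUnity.exists_primitiveRoot Qb q
  let χ : Gal(Qb/ℚ) →* (ZMod q)ˣ := hζ.autToPow ℚ
  let M := (q - 1) / ℓ
  have hlq : ℓ ∣ q - 1 := Dvd.dvd.trans ⟨2 * n₀, by ring⟩ hdiv
  have hnq : n₀ ∣ q - 1 := Dvd.dvd.trans ⟨2 * ℓ, by ring⟩ hdiv
  have hlm : ℓ * M = q - 1 := Nat.mul_div_cancel' hlq
  have hM0 : 0 < M := Nat.div_pos (Nat.le_of_dvd (Nat.sub_pos_of_lt hq.one_lt) hlq) hℓ.pos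
  have hM2 : 2 ∣ M := by
    obtain ⟨c, hc⟩ := hdiv
    refine ⟨n₀ * c, ?_⟩
    have h1 : ℓ * M = ℓ * (2 * (n₀ * c)) := by
      rw [hlm, hc]
      ring
    exact Nat.eq_of_mul_eq_mul_left hℓ.pos h1
  let f : Gal(Qb/ℚ) →* (ZMod q)ˣ := (powMonoidHom M : (ZMod q)ˣ →* (ZMod q)ˣ).comp χ
  have hf : ∀ σ, f σ = χ σ ^ M := fun σ => rfl
  have hmem : ∀ σ, σ ∈ f.ker ↔ χ σ ^ M = 1 := fun σ => Iff.rfl
  have hsurj : ∀ u : (ZMod q)ˣ, ∃ g ∈ K, χ g = u := fun u => hb' q (by omega) ζ hζ u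
  have hfix : ∀ σ : Gal(Qb/ℚ), σ ζ = ζ → χ σ = 1 := by
    intro σ h
    refine P4.val_unit_eq hζ ?_
    have h1 : ζ ^ (((χ σ : (ZMod q)ˣ) : ZMod q)).val = σ ζ := hζ.autToPow_spec ℚ σ
    rw [h1, h]
    have h2 : (((1 : (ZMod q)ˣ) : ZMod q)).val = 1 := by
      have : Fact (1 < q) := ⟨hq.one_lt⟩
      rw [Units.val_one, ZMod.val_one]
    rw [h2, pow_one]
  have hMn : M = (q - 1) / (ℓ * n₀) * n₀ := by
    obtain ⟨c, hc⟩ := hdiv
    have h1 : q - 1 = ℓ * n₀ * (2 * c) := by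
      rw [hc]
      ring
    have h2 : (q - 1) / (ℓ * n₀) = 2 * c := by
      rw [h1]
      exact Nat.mul_div_cancel_left _ (Nat.mul_pos hℓ.pos (Nat.pos_of_ne_zero hn₀))
    rw [h2]
    refine Nat.eq_of_mul_eq_mul_left hℓ.pos ?_
    rw [hlm, h1]
    ring
  refine ⟨q, f.ker, hq, by omega, hnq, inferInstance, ?_, ?_, ?_, ?_, ?_, ?_, ?_, ?_⟩
  · -- open
    let F : IntermediateField ℚ Qb := IntermediateField.adjoin ℚ {ζ}
    have hFd : FiniteDimensional ℚ F :=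
      IntermediateField.adjoin.finiteDimensional (hζ.isIntegral hq.pos).tower_top
    refine Subgroup.isOpen_mono (H₁ := F.fixingSubgroup) ?_ F.fixingSubgroup_isOpen
    intro σ hσ
    rw [hmem, hfix σ ((IntermediateField.mem_fixingSubgroup_iff F σ).1 hσ ζ
      (IntermediateField.mem_adjoin_simple_self ℚ ζ)), one_pow]
  · -- index
    rw [Subgroup.index_ker]
    have h1 : f.range = (powMonoidHom M : (ZMod q)ˣ →* (ZMod q)ˣ).range := by
      ext x
      constructor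
      · rintro ⟨σ, rfl⟩
        exact ⟨χ σ, rfl⟩
      · rintro ⟨u, rfl⟩
        obtain ⟨g, -, hg⟩ := hsurj u
        exact ⟨g, by rw [hf, hg]; rfl⟩
    rw [h1, IsCyclic.card_powMonoidHom_range, Nat.card_eq_fintype_card, ZMod.card_units q, ← hlm,
      Nat.gcd_eq_right (Dvd.intro_left ℓ rfl), Nat.mul_div_cancel _ hM0]
  · intro σ τ
    rw [hmem, commutatorElement_def]
    simp only [map_mul, map_inv]
    rw [mul_comm (χ σ) (χ τ), mul_inv_cancel_right, mul_inv_cancel, one_pow]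
  · intro A hA σ hσ
    have hζA : ζ ∈ A := root_mem hq.ne_zero hζ.pow_eq_one
    have hζA' : ζ⁻¹ ∈ A := root_mem hq.ne_zero (by rw [inv_pow, hζ.pow_eq_one, inv_one])
    have h2 : σ ζ * ζ⁻¹ = 1 := by
      apply root_eq_one hq hA (N := 1)
      · rw [pow_one, mul_pow, inv_pow, ← map_pow, hζ.pow_eq_one, map_one, inv_one, mul_one]
      · have h3 : σ ζ * ζ⁻¹ - 1 = (σ ζ - ζ) * ζ⁻¹ := by
          rw [sub_mul, mul_inv_cancel₀ (hζ.ne_zero hq.ne_zero)]
        rw [h3]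
        exact mul_nonunits (hσ.2 ζ hζA) hζA'
    rw [hmem, hfix σ ((mul_inv_eq_one₀ (hζ.ne_zero hq.ne_zero)).1 h2), one_pow]
  · intro A hA σ hσ
    obtain ⟨r, hr, hrm, hrA⟩ := exists_prime_nonunit hm hA
    have hrq : r ≠ q := by
      rintro rfl
      have := Nat.le_of_dvd (Nat.pos_of_ne_zero hm) hrm
      omega
    obtain ⟨j, hj⟩ := chi_dec hζ hr hrq hrA hσ
    rw [hmem]
    apply Units.ext
    rw [Units.val_pow_eq_pow_val]
    change (((hζ.autToPow ℚ σ : (ZMod q)ˣ) : ZMod q)) ^ M = _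
    rw [hj, ← pow_mul, mul_comm, pow_mul, hMn, pow_mul,
      hres r (Nat.mem_primeFactors.mpr ⟨hr, hrm, hm⟩), one_pow, one_pow, Units.val_one]
  · intro r hr hrq A hA σ hσ
    have hr1 : ((r : ℕ) : ZMod q) = 1 := by
      have h1 : ((r - 1 : ℕ) : ZMod q) = 0 := (ZMod.natCast_eq_zero_iff _ _).2 hrq
      have h2 : r = (r - 1) + 1 := by
        have := hr.pos
        omega
      rw [h2, Nat.cast_add, h1, Nat.cast_one, zero_add]
    have hrq' : r ≠ q := by
      rintro rfl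
      rw [ZMod.natCast_self] at hr1
      exact zero_ne_one hr1
    obtain ⟨j, hj⟩ := chi_dec hζ hr hrq' hA hσ
    rw [hmem]
    apply Units.ext
    rw [Units.val_pow_eq_pow_val]
    change (((hζ.autToPow ℚ σ : (ZMod q)ˣ) : ZMod q)) ^ M = _
    rw [hj, hr1, one_pow, one_pow, Units.val_one]
  · intro ι c hc
    have h1 : c * c = 1 := by
      ext x
      apply ι.injective
      change ι (c (c x)) = ι x
      rw [hc, hc, Complex.conj_conj]
    obtain ⟨d, hd⟩ := hM2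
    rw [hmem, hd, pow_mul, ← map_pow, pow_two, h1, map_one, one_pow]
  · intro g
    obtain ⟨κ, hκ, h⟩ := hsurj (χ g)⁻¹
    refine ⟨κ, hκ, ?_⟩
    rw [hmem, map_mul, h, inv_mul_cancel, one_pow]

end Pool.Agent.Run7.h759.UM
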