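import Pool.Agent.Run7.h759.UM.Fld
import Pool.Agent.Run7.h759.UM.P4b

/-!
# Auxiliary subgroups and the ramification bound
-/

set_option autoImplicit false

namespace Pool.Agent.Run7.h759.UM

open Subgroup Pool.Agent.Q60.MU Pool.Agent.W5h77.MB IntermediateField
open scoped commutatorElement Pointwise ComplexConjugate

theorem pow_mem_dvd {𝔾 : Type} [Group 𝔾] {A : Subgroup 𝔾} {h : 𝔾} {ℓ : ℕ} (hℓ : ℓ.Prime)
    (h1 : h ^ ℓ ∈ A) (h2 : h ∉ A) {j : ℕ} (hj : h ^ j ∈ A) : ℓ ∣ j := by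
  by_contra hd
  have hc : Nat.Coprime ℓ j := (Nat.Prime.coprime_iff_not_dvd hℓ).2 hd
  apply h2
  have h3 := Nat.gcd_eq_gcd_ab ℓ j
  rw [hc] at h3
  have h4 : h = (h ^ ℓ) ^ (Nat.gcdA ℓ j) * (h ^ j) ^ (Nat.gcdB ℓ j) := by
    rw [← zpow_natCast h ℓ, ← zpow_natCast h j, ← zpow_mul, ← zpow_mul, ← zpow_add, ← h3]
    simp
  rw [h4]
  exact A.mul_mem (A.zpow_mem h1 _) (A.zpow_mem hj _)

/-- **The auxiliary subgroup.** -/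
theorem exists_unr {ℓ m : ℕ} (hℓ : ℓ.Prime) (hm : m ≠ 0) {A B K : Subgroup Gal(Qb/ℚ)}
    (hBA : B ≤ A) (hKB : K ≤ B) (hKo : IsOpen (K : Set Gal(Qb/ℚ))) (hKf : K.index ≠ 0)
    (hKA : ∀ a ∈ A, ∀ x ∈ K, a * x * a⁻¹ ∈ K) {c : Gal(Qb/ℚ)} (hc : c ∈ B) (hcℓ : c ^ ℓ ∈ K)
    (Qs : Subgroup Gal(Qb/ℚ) → Prop) (hQ : Qs K)
    (hext : ∀ K A₁ : Subgroup Gal(Qb/ℚ), IsOpen (K : Set Gal(Qb/ℚ)) →
      IsOpen (A₁ : Set Gal(Qb/ℚ)) → A₁.index = ℓ → Qs K → (∀ σ τ : Gal(Qb/ℚ), ⁅σ, τ⁆ ∈ A₁) →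
      (∀ (ι : Qb →+* ℂ) (c : Gal(Qb/ℚ)), (∀ x, ι (c x) = conj (ι x)) → c ∈ A₁) → Qs (K ⊓ A₁)) :
    ∃ (K' : Subgroup Gal(Qb/ℚ)) (h : Gal(Qb/ℚ)), K' ≤ K ∧ IsOpen (K' : Set Gal(Qb/ℚ)) ∧
      K'.index ≠ 0 ∧ (∀ a ∈ A, ∀ x ∈ K', a * x * a⁻¹ ∈ K') ∧ Qs K' ∧ K'.relIndex K ∣ ℓ ^ 2 ∧
      h ∈ B ∧ c⁻¹ * h ∈ K ∧ h ^ ℓ ∈ K' ∧ h ∉ K' ∧
      (∀ A, ∀ σ ∈ inertia A, σ ∈ K' ⊔ zpowers h → σ ∈ K') ∧
      (∀ A : ValuationSubring Qb, ((m : Qb) ∈ A.nonunits ∨ ¬ inertia A ≤ K') →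
        ∀ σ : Gal(Qb/ℚ), σ • A = A → σ ∈ K' ⊔ zpowers h → σ ∈ K') ∧
      ∀ (ι : Qb →+* ℂ) (c : Gal(Qb/ℚ)), (∀ x, ι (c x) = conj (ι x)) → c ∈ K' ⊔ zpowers h →
        c ∈ K' := by
  classical
  have hfd := finite_fixed hKo hKf
  have hfix := fix_fixed hKo
  obtain ⟨b, hb0, hb⟩ := exists_bad (fixedField K)
  rw [hfix] at hb
  have hmb : m * b ≠ 0 := mul_ne_zero hm hb0
  obtain ⟨q₁, A₁, hq₁, -, -, hA₁n, hA₁o, hA₁i, hA₁c, hA₁r, hA₁d, hA₁e, hA₁x, hA₁s⟩ :=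
    t_aux2 ℓ (m * b) 0 1 hℓ hmb one_ne_zero K hKo hKf
  have hKA₁o : IsOpen ((K ⊓ A₁ : Subgroup Gal(Qb/ℚ)) : Set Gal(Qb/ℚ)) := by
    rw [Subgroup.coe_inf]
    exact hKo.inter hA₁o
  have hKA₁f : (K ⊓ A₁).index ≠ 0 := by
    have h1 : K.FiniteIndex := ⟨hKf⟩
    have h2 : A₁.FiniteIndex := ⟨by rw [hA₁i]; exact hℓ.ne_zero⟩
    exact (inferInstance : (K ⊓ A₁).FiniteIndex).index_ne_zero
  obtain ⟨q₂, A₂, hq₂, hq₁₂, hq₂₁, hA₂n, hA₂o, hA₂i, hA₂c, hA₂r, hA₂d, -, hA₂x, hA₂s⟩ :=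
    t_aux2 ℓ q₁ q₁ q₁ hℓ hq₁.ne_zero hq₁.ne_zero (K ⊓ A₁) hKA₁o hKA₁f
  set K' := K ⊓ A₁ ⊓ A₂ with hK'
  have hK'f : K'.index ≠ 0 := by
    have h1 : (K ⊓ A₁).FiniteIndex := ⟨hKA₁f⟩
    have h2 : A₂.FiniteIndex := ⟨by rw [hA₂i]; exact hℓ.ne_zero⟩
    exact (inferInstance : (K ⊓ A₁ ⊓ A₂).FiniteIndex).index_ne_zero
  have hK'A : ∀ a ∈ A, ∀ x ∈ K', a * x * a⁻¹ ∈ K' := by
    rintro a ha x ⟨⟨h1, h2⟩, h3⟩
    exact ⟨⟨hKA a ha x h1, hA₁n.conj_mem x h2 a⟩, hA₂n.conj_mem x h3 a⟩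
  -- the element
  obtain ⟨a₁, ha₁⟩ : ∃ a, a ∉ A₁ := by
    by_contra hcon
    push Not at hcon
    have h1 : A₁ = ⊤ := eq_top_iff.2 fun x _ => hcon x
    rw [h1, index_top] at hA₁i
    exact hℓ.one_lt.ne hA₁i
  obtain ⟨a₂, ha₂⟩ : ∃ a, a ∉ A₂ := by
    by_contra hcon
    push Not at hcon
    have h1 : A₂ = ⊤ := eq_top_iff.2 fun x _ => hcon x
    rw [h1, index_top] at hA₂i
    exact hℓ.one_lt.ne hA₂i
  obtain ⟨κ₁, hκ₁, hκ₁'⟩ := hA₁s (c * a₁⁻¹)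
  set h₁ := κ₁ * c with hh₁
  have hh₁A : h₁ ∉ A₁ := by
    intro h
    apply ha₁
    have h1 : a₁ = (κ₁ * (c * a₁⁻¹))⁻¹ * h₁ := by
      rw [hh₁]
      group
    rw [h1]
    exact A₁.mul_mem (A₁.inv_mem hκ₁') h
  obtain ⟨κ₂, hκ₂, hκ₂'⟩ := hA₂s (h₁ * a₂⁻¹)
  set h := κ₂ * h₁ with hh
  have hhA₂ : h ∉ A₂ := by
    intro h0
    apply ha₂
    have h1 : a₂ = (κ₂ * (h₁ * a₂⁻¹))⁻¹ * h := by
      rw [hh]
      group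
    rw [h1]
    exact A₂.mul_mem (A₂.inv_mem hκ₂') h0
  have hhA₁ : h ∉ A₁ := by
    intro h0
    apply hh₁A
    have h1 : h₁ = κ₂⁻¹ * h := by
      rw [hh]
      group
    rw [h1]
    exact A₁.mul_mem (A₁.inv_mem hκ₂.2) h0
  have hcA := hBA hc
  have hch : c⁻¹ * h ∈ K := by
    have h1 : c⁻¹ * h = c⁻¹ * (κ₂ * κ₁) * c⁻¹⁻¹ := by
      rw [hh, hh₁]
      group
    rw [h1]
    exact hKA _ (A.inv_mem hcA) _ (K.mul_mem hκ₂.1 hκ₁)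
  have hhB : h ∈ B := by
    rw [hh, hh₁]
    exact B.mul_mem (hKB hκ₂.1) (B.mul_mem (hKB hκ₁) hc)
  have hhℓ : h ^ ℓ ∈ K' := by
    refine ⟨⟨pow_mem_of hKB (fun b hb => hKA b (hBA hb)) hc hch hcℓ, ?_⟩, ?_⟩
    · rw [← hA₁i]
      exact A₁.pow_index_mem h
    · rw [← hA₂i]
      exact A₂.pow_index_mem h
  have hhK' : h ∉ K' := fun h0 => hhA₂ h0.2
  have hconj : ∀ x ∈ K', h * x * h⁻¹ ∈ K' := hK'A h (hBA hhB)
  have key : ∀ σ ∈ K' ⊔ zpowers h, (σ ∈ A₁ ∨ σ ∈ A₂) → σ ∈ K' := by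
    intro σ hσ hor
    obtain ⟨j, κ, hκ, rfl⟩ := (mem_sup_zpowers hℓ.ne_zero hconj hhℓ).1 hσ
    have hj : ℓ ∣ j := by
      rcases hor with h0 | h0
      · refine pow_mem_dvd hℓ hhℓ.1.2 hhA₁ (j := j) ?_
        have h1 : h ^ j = (h ^ j * κ) * κ⁻¹ := by group
        rw [h1]
        exact A₁.mul_mem h0 (A₁.inv_mem hκ.1.2)
      · refine pow_mem_dvd hℓ hhℓ.2 hhA₂ (j := j) ?_
        have h1 : h ^ j = (h ^ j * κ) * κ⁻¹ := by group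
        rw [h1]
        exact A₂.mul_mem h0 (A₂.inv_mem hκ.2)
    obtain ⟨i, rfl⟩ := hj
    rw [pow_mul]
    exact K'.mul_mem (K'.pow_mem hhℓ i) hκ
  refine ⟨K', h, inf_le_left.trans inf_le_left, ?_, hK'f, hK'A, ?_, ?_, hhB, hch, hhℓ, hhK', ?_, ?_, ?_⟩
  · rw [hK', Subgroup.coe_inf]
    exact hKA₁o.inter hA₂o
  · exact hext _ _ hKA₁o hA₂o hA₂i (hext _ _ hKo hA₁o hA₁i hQ hA₁c hA₁x) hA₂c hA₂x
  · have h1 : K'.relIndex K = K'.relIndex (K ⊓ A₁) * (K ⊓ A₁).relIndex K :=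
      (relIndex_mul_relIndex _ _ _ inf_le_left inf_le_left).symm
    rw [h1, pow_two]
    refine mul_dvd_mul ?_ ?_
    · rw [hK', inf_relIndex_left]
      rw [← hA₂i]
      exact relIndex_dvd_index_of_normal _ _
    · rw [inf_relIndex_left]
      rw [← hA₁i]
      exact relIndex_dvd_index_of_normal _ _
  · intro R σ hσ hσD
    by_cases hR : (q₁ : Qb) ∈ R.nonunits
    · have h1 : (q₂ : Qb) ∉ R.nonunits :=
        not_both ((Nat.coprime_primes hq₁ hq₂).2 hq₁₂.ne) hR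
      exact key σ hσD (Or.inr (hA₂r R h1 hσ))
    · exact key σ hσD (Or.inl (hA₁r R hR hσ))
  · intro R hR σ hσ hσD
    have hmul : ∀ c d : ℕ, (c : Qb) ∈ R.nonunits → ((c * d : ℕ) : Qb) ∈ R.nonunits := by
      intro c d hc
      push_cast
      exact mul_nonunits hc (natCast_mem R d)
    by_cases h1 : ((m * b : ℕ) : Qb) ∈ R.nonunits
    · exact key σ hσD (Or.inl (hA₁d R h1 σ hσ))
    by_cases h2 : (q₁ : Qb) ∈ R.nonunits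
    · exact key σ hσD (Or.inr (hA₂d R h2 σ hσ))
    by_cases h3 : (q₂ : Qb) ∈ R.nonunits
    · exact key σ hσD (Or.inl (hA₁e q₂ hq₂ hq₂₁ R h3 σ hσ))
    exfalso
    rcases hR with hR | hR
    · exact h1 (hmul m b hR)
    · apply hR
      refine le_inf (le_inf ?_ (hA₁r R h2)) (hA₂r R h3)
      intro τ hτ
      by_contra hτK
      apply h1
      rw [mul_comm]
      exact hmul b m (hb R τ hτ hτK)
  · intro ι d hd hdD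
    exact key d hdD (Or.inl (hA₁x ι d hd))

/-- **Bounded ramification in the tower.** -/
theorem ram_bound (t5 : S_findec) {p : ℕ} (hp : p.Prime) (hp2 : p ≠ 2)
    {I : ValuationSubring Qb → Subgroup Gal(Qb/ℚ)}
    (hI2 : ∀ A : ValuationSubring Qb, (p : Qb) ∉ A.nonunits → I A ≤ inertia A)
    {K : Subgroup Gal(Qb/ℚ)} (hKo : IsOpen (K : Set Gal(Qb/ℚ))) (hKf : K.index ≠ 0) :
    ∃ t, ∀ j : {R : IntermediateField ℚ Qb // ∃ n, IsLayer p n R},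
      ∃ T : Finset (ValuationSubring Qb), T.card ≤ t ∧
      ∀ w, I w ⊓ j.1.fixingSubgroup ≤ K ∨ ∃ u ∈ T, ∃ d ∈ j.1.fixingSubgroup, w = d • u := by
  classical
  have hfd := finite_fixed hKo hKf
  have hfix := fix_fixed hKo
  obtain ⟨c, hc0, hc⟩ := exists_bad (fixedField K)
  rw [hfix] at hc
  have hd := t5 p hp hp2
  choose! t ht using hd
  have hcp : c * p ≠ 0 := mul_ne_zero hc0 hp.ne_zero
  refine ⟨∑ r ∈ (c * p).primeFactors, t r, ?_⟩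
  rintro ⟨R, n, hR⟩
  choose! T hTt hT using fun r (hr : r.Prime) => ht r hr n R hR
  refine ⟨(c * p).primeFactors.biUnion T, ?_, ?_⟩
  · exact Finset.card_biUnion_le.trans (Finset.sum_le_sum fun r hr =>
      hTt r (Nat.prime_of_mem_primeFactors hr))
  · intro A
    have hgo : ∀ r : ℕ, r.Prime → r ∣ c * p → (r : Qb) ∈ A.nonunits →
        ∃ u ∈ (c * p).primeFactors.biUnion T, ∃ d ∈ R.fixingSubgroup, A = d • u := by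
      intro r hr hrc hrA
      obtain ⟨B, hB, σ, hσ, h3⟩ := hT r hr A hrA
      exact ⟨B, Finset.mem_biUnion.2 ⟨r, Nat.mem_primeFactors.2 ⟨hr, hrc, hcp⟩, hB⟩, σ, hσ, h3⟩
    by_cases hA : (p : Qb) ∈ A.nonunits
    · exact Or.inr (hgo p hp (Dvd.intro_left c rfl) hA)
    · by_cases h : inertia A ≤ K
      · exact Or.inl (inf_le_left.trans ((hI2 A hA).trans h))
      · right
        obtain ⟨σ, hσ, hσK⟩ := SetLike.not_le_iff_exists.1 h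
        obtain ⟨r, hr, hrc, hrA⟩ := exists_prime_nonunit hc0 (hc A σ hσ hσK)
        exact hgo r hr (hrc.trans (Dvd.intro p rfl)) hrA

end Pool.Agent.Run7.h759.UM
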