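import Pool.Agent.Run7.h759.UM.Fld
import Pool.Agent.Run7.h759.UM.Iface3

/-!
# Lemmas on the relative bounds and on cyclic quotients
-/

set_option autoImplicit false

namespace Pool.Agent.Run7.h759.UM

open Subgroup Pool.Agent.Q60.MU Pool.Agent.W5h77.MB
open scoped commutatorElement Pointwise ComplexConjugate

section Abstract

variable {𝔾 : Type} [Group 𝔾]

/-- A quotient of prime order. -/
theorem prime_gen {K D : Subgroup 𝔾} (hKD : K ≤ D) (hn : ∀ g ∈ D, ∀ x ∈ K, g * x * g⁻¹ ∈ K) {ℓ : ℕ}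
    (hℓ : ℓ.Prime) (hi : K.relIndex D = ℓ) {h : 𝔾} (hh : h ∈ D) (hhK : h ∉ K) :
    h ^ ℓ ∈ K ∧ ∀ σ ∈ D, ∃ (j : ℕ) (κ : 𝔾), κ ∈ K ∧ σ = h ^ j * κ := by
  have hnor : (K.subgroupOf D).Normal := ⟨fun x hx g => by
    rw [mem_subgroupOf] at hx ⊢
    exact hn g g.2 x hx⟩
  have h1 : h ^ ℓ ∈ K := by
    have h2 := (K.subgroupOf D).pow_index_mem ⟨h, hh⟩
    rw [mem_subgroupOf] at h2
    have h3 : (K.subgroupOf D).index = ℓ := hi
    rw [h3] at h2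
    exact h2
  refine ⟨h1, fun σ hσ => ?_⟩
  have h2 := relIndex_sup_zpowers hℓ (hn h hh) h1 hhK
  have hle : K ⊔ zpowers h ≤ D := sup_le hKD ((zpowers_le).2 hh)
  have h3 := relIndex_mul_relIndex K (K ⊔ zpowers h) D le_sup_left hle
  rw [h2, hi] at h3
  have h4 : (K ⊔ zpowers h).relIndex D = 1 := by
    have := hℓ.pos
    exact Nat.eq_of_mul_eq_mul_left this (by rw [h3, mul_one])
  rw [relIndex_eq_one] at h4
  exact (mem_sup_zpowers hℓ.ne_zero (hn h hh) h1).1 (h4 hσ)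

/-- The relative bound depends only on the class of `h`. -/
theorem RelLe.congr [TopologicalSpace 𝔾] {p : ℕ} {Ω : Type} {I : Ω → Subgroup 𝔾}
    {K : Subgroup 𝔾} {h κ : 𝔾} {C : ℕ} (hκ : κ ∈ K) (H : RelLe p I K h C) :
    RelLe p I K (h * κ) C := by
  intro W hWK hWo hWf hg hW hx
  have hc : ∀ a ∈ K, ∀ b ∈ K, ⁅a, b⁆ ∈ W := fun a ha b hb =>
    hg (Or.inl (Or.inr ⟨a, ha, b, hb, rfl⟩))
  have hW' : ∀ x ∈ W, h * x * h⁻¹ ∈ W := by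
    intro x hx
    have h1 : κ⁻¹ * x * κ ∈ W := by
      have h2 : κ⁻¹ * x * κ = ⁅κ⁻¹, x⁆ * x := by
        rw [commutatorElement_def]
        group
      rw [h2]
      exact W.mul_mem (hc _ (K.inv_mem hκ) _ (hWK hx)) hx
    have h2 := hW _ h1
    have h3 : h * κ * (κ⁻¹ * x * κ) * (h * κ)⁻¹ = h * x * h⁻¹ := by group
    rwa [h3] at h2
  refine H W hWK hWo hWf hg hW' ?_
  intro x hxK hhx
  refine hx x hxK ?_
  have h1 : ⁅h * κ, x⁆ = (h * ⁅κ, x⁆ * h⁻¹) * ⁅h, x⁆ := by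
    simp only [commutatorElement_def]
    group
  rw [h1]
  exact W.mul_mem (hW' _ (hc _ hκ _ hxK)) hhx

/-- Comparison with a larger group. -/
theorem RelLe.of_le [TopologicalSpace 𝔾] {p : ℕ} {Ω : Type} {I : Ω → Subgroup 𝔾}
    {K L : Subgroup 𝔾} {h : 𝔾} (hKL : K ≤ L) (hKo : IsOpen (K : Set 𝔾)) (hf : K.relIndex L ≠ 0)
    (hhK : ∀ x ∈ K, h * x * h⁻¹ ∈ K) {C : ℕ} (hC : RelLe p I K h C) :
    RelLe p I L h (C * K.relIndex L) := by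
  intro W hWL hWo hWf hg hW hx
  have h1 : (W ⊓ K).relIndex K ≠ 0 := by
    rw [inf_relIndex_right]
    exact fun h => hWf (relIndex_eq_zero_of_le_right hKL h)
  have h2 := hC (W ⊓ K) inf_le_right (by
    rw [coe_inf]
    exact hWo.inter hKo) h1 (fun x hx => ⟨hg (gens_mono hKL hx), gens_subset hx⟩)
    (fun x hx => ⟨hW x hx.1, hhK x hx.2⟩)
    (fun x hxK hhx => ⟨hx x (hKL hxK) hhx.1, hxK⟩)
  have h3 := relIndex_mul_relIndex (W ⊓ K) K L inf_le_right hKL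
  have h4 : (W ⊓ K).relIndex L ≠ 0 := by
    rw [← h3]
    exact mul_ne_zero h1 hf
  calc W.relIndex L ≤ (W ⊓ K).relIndex L := relIndex_le_of_le_left inf_le_left h4
    _ = (W ⊓ K).relIndex K * K.relIndex L := h3.symm
    _ ≤ C * K.relIndex L := Nat.mul_le_mul_right _ h2

theorem RelLe.mono [TopologicalSpace 𝔾] {p : ℕ} {Ω : Type} {I : Ω → Subgroup 𝔾}
    {K : Subgroup 𝔾} {h : 𝔾} {C C' : ℕ} (hC : RelLe p I K h C) (hle : C ≤ C') :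
    RelLe p I K h C' :=
  fun W h1 h2 h3 h4 h5 h6 => (hC W h1 h2 h3 h4 h5 h6).trans hle

/-- The powers of a generator modulo a normal subgroup. -/
theorem gen_quot {K N : Subgroup 𝔾} (hn : ∀ g ∈ K, ∀ x ∈ N, g * x * g⁻¹ ∈ N)
    (hNK : N ≤ K) {γ : 𝔾} (hγ : γ ∈ K) (hgen : ∀ x ∈ K, ∃ i : ℕ, ∃ κ ∈ N, x = γ ^ i * κ) (i : ℕ) :
    γ ^ i ∈ N ↔ N.relIndex K ∣ i := by
  have hnor : (N.subgroupOf K).Normal := ⟨fun x hx g => by
    rw [mem_subgroupOf] at hx ⊢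
    exact hn g g.2 x hx⟩
  set y : K ⧸ N.subgroupOf K := QuotientGroup.mk' (N.subgroupOf K) ⟨γ, hγ⟩ with hy
  have h1 : ∀ x : K ⧸ N.subgroupOf K, x ∈ Subgroup.zpowers y := by
    intro x
    obtain ⟨⟨x, hx⟩, rfl⟩ := QuotientGroup.mk'_surjective _ x
    obtain ⟨i, κ, hκ, rfl⟩ := hgen x hx
    have h2 : (⟨γ ^ i * κ, hx⟩ : K) = ⟨γ, hγ⟩ ^ i * ⟨κ, hNK hκ⟩ := rfl
    have h3 : QuotientGroup.mk' (N.subgroupOf K) ⟨κ, hNK hκ⟩ = 1 :=
      (QuotientGroup.eq_one_iff _).2 (by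
        rw [mem_subgroupOf]
        exact hκ)
    rw [h2, map_mul, h3, mul_one, map_pow]
    exact Subgroup.pow_mem _ (Subgroup.mem_zpowers _) i
  have h2 : orderOf y = N.relIndex K := by
    rw [orderOf_eq_card_of_forall_mem_zpowers h1]
    rfl
  have h3 : γ ^ i ∈ N ↔ y ^ i = 1 := by
    rw [hy, ← map_pow]
    refine Iff.trans ?_ (QuotientGroup.eq_one_iff _).symm
    rw [mem_subgroupOf]
    rfl
  rw [h3, ← h2, orderOf_dvd_iff_pow_eq_one]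

/-- Subgroups of a group with a cyclic quotient. -/
theorem cyc_sub {D : Subgroup 𝔾} (hDn : D.Normal) (hDf : D.index ≠ 0) {γ₀ : 𝔾}
    (hγ₀ : ∀ x : 𝔾, ∃ i : ℕ, (γ₀ ^ i)⁻¹ * x ∈ D) (K : Subgroup 𝔾) :
    ∃ γ ∈ K, ∀ x ∈ K, ∃ i : ℕ, ∃ κ ∈ K ⊓ D, x = γ ^ i * κ := by
  classical
  -- the smallest positive exponent
  have hex : ∃ d : ℕ, 0 < d ∧ ∃ k ∈ K, (γ₀ ^ d)⁻¹ * k ∈ D := by
    refine ⟨D.index, Nat.pos_of_ne_zero hDf, 1, K.one_mem, ?_⟩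
    rw [mul_one]
    exact D.inv_mem (D.pow_index_mem γ₀)
  obtain ⟨hd, γ, hγ, hγd⟩ := Nat.find_spec hex
  have hmin := fun m (hm : m < Nat.find hex) => Nat.find_min hex hm
  set d := Nat.find hex with hdd
  -- congruences modulo `D`
  have hpow : ∀ t : ℕ, (γ₀ ^ (d * t))⁻¹ * γ ^ t ∈ D := by
    intro t
    have h1 : (QuotientGroup.mk' D γ₀) ^ d = QuotientGroup.mk' D γ := by
      rw [← map_pow]
      exact QuotientGroup.eq.2 hγd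
    have h2 : QuotientGroup.mk' D (γ₀ ^ (d * t)) = QuotientGroup.mk' D (γ ^ t) := by
      rw [map_pow, map_pow, pow_mul, h1]
    exact QuotientGroup.eq.1 h2
  refine ⟨γ, hγ, fun x hx => ?_⟩
  obtain ⟨i, hi⟩ := hγ₀ x
  have h0 : i % d = 0 := by
    by_contra hne
    refine hmin (i % d) (Nat.mod_lt _ hd) ⟨Nat.pos_of_ne_zero hne, (γ ^ (i / d))⁻¹ * x,
      K.mul_mem (K.inv_mem (K.pow_mem hγ _)) hx, ?_⟩
    have h1 : QuotientGroup.mk' D (γ₀ ^ i) = QuotientGroup.mk' D x := QuotientGroup.eq.2 hi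
    have h2 : QuotientGroup.mk' D (γ₀ ^ (d * (i / d))) = QuotientGroup.mk' D (γ ^ (i / d)) :=
      QuotientGroup.eq.2 (hpow (i / d))
    have h3 : QuotientGroup.mk' D (γ₀ ^ (i % d)) =
        QuotientGroup.mk' D ((γ ^ (i / d))⁻¹ * x) := by
      rw [map_mul, map_inv, ← h1, ← h2, ← map_inv, ← map_mul]
      congr 1
      rw [eq_inv_mul_iff_mul_eq, ← pow_add, Nat.div_add_mod]
    exact QuotientGroup.eq.1 h3
  have h1 : (γ₀ ^ i)⁻¹ * γ ^ (i / d) ∈ D := by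
    have h2 := hpow (i / d)
    have h3 : d * (i / d) = i := by
      have := Nat.div_add_mod i d
      omega
    rwa [h3] at h2
  have h2 : (γ ^ (i / d))⁻¹ * x ∈ D := by
    have h3 : (γ ^ (i / d))⁻¹ * x = ((γ₀ ^ i)⁻¹ * γ ^ (i / d))⁻¹ * ((γ₀ ^ i)⁻¹ * x) := by group
    rw [h3]
    exact D.mul_mem (D.inv_mem h1) hi
  exact ⟨i / d, (γ ^ (i / d))⁻¹ * x, ⟨K.mul_mem (K.inv_mem (K.pow_mem hγ _)) hx, h2⟩, by group⟩

theorem comm_mem {D : Subgroup 𝔾} (hDn : D.Normal) {γ₀ : 𝔾}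
    (hγ₀ : ∀ x : 𝔾, ∃ i : ℕ, (γ₀ ^ i)⁻¹ * x ∈ D) (σ τ : 𝔾) : ⁅σ, τ⁆ ∈ D := by
  have h1 : ∀ x : 𝔾, ∃ i : ℕ, QuotientGroup.mk' D x = (QuotientGroup.mk' D γ₀) ^ i := by
    intro x
    obtain ⟨i, hi⟩ := hγ₀ x
    refine ⟨i, ?_⟩
    rw [← map_pow]
    exact (QuotientGroup.eq.2 hi).symm
  obtain ⟨i, hi⟩ := h1 σ
  obtain ⟨j, hj⟩ := h1 τ
  have h2 : QuotientGroup.mk' D ⁅σ, τ⁆ = 1 := by
    rw [map_commutatorElement, hi, hj, commutatorElement_eq_one_iff_mul_comm, ← pow_add, ← pow_add,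
      add_comm]
  exact (QuotientGroup.eq_one_iff _).1 h2

end Abstract

end Pool.Agent.Run7.h759.UM
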