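import Pool.Agent.Run7.h759.UM.Fld2
import Pool.Agent.Run7.h759.UM.LayA

/-!
# The theorem for subgroups of the absolute Galois group of `ℚ`: main part
-/

set_option autoImplicit false

namespace Pool.Agent.Run7.h759.UM

open Subgroup Pool.Agent.Q60.MU Pool.Agent.W5h77.MB IntermediateField
open scoped commutatorElement Pointwise ComplexConjugate

theorem sup_zpowers_le {K' A : Subgroup Gal(Qb/ℚ)} {h : Gal(Qb/ℚ)} (hK : K' ≤ A) (hh : h ∈ A) :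
    K' ⊔ zpowers h ≤ A := sup_le hK ((zpowers_le).2 hh)

/-- the fields of the auxiliary subgroups -/
theorem unrStep_of {ℓ m : ℕ} (hℓ : ℓ.Prime) {A K' : Subgroup Gal(Qb/ℚ)} {h : Gal(Qb/ℚ)}
    (hK'A : K' ≤ A) (hhA : h ∈ A) (hK'o : IsOpen (K' : Set Gal(Qb/ℚ))) (hK'f : K'.index ≠ 0)
    (hK'n : ∀ a ∈ A, ∀ x ∈ K', a * x * a⁻¹ ∈ K') (hhℓ : h ^ ℓ ∈ K') (hhK : h ∉ K')
    (hr : ∀ R, ∀ σ ∈ inertia R, σ ∈ K' ⊔ zpowers h → σ ∈ K')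
    (hd : ∀ R : ValuationSubring Qb, ((m : Qb) ∈ R.nonunits ∨ ¬ inertia R ≤ K') →
        ∀ σ : Gal(Qb/ℚ), σ • R = R → σ ∈ K' ⊔ zpowers h → σ ∈ K')
    (hx : ∀ (ι : Qb →+* ℂ) (c : Gal(Qb/ℚ)), (∀ x, ι (c x) = conj (ι x)) → c ∈ K' ⊔ zpowers h →
        c ∈ K') : UnrStep ℓ m (fixedField (K' ⊔ zpowers h)) (fixedField K') := by
  have hDo : IsOpen ((K' ⊔ zpowers h : Subgroup Gal(Qb/ℚ)) : Set Gal(Qb/ℚ)) :=
    Subgroup.isOpen_mono le_sup_left hK'o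
  have hfixK := fix_fixed hK'o
  have hfixD := fix_fixed hDo
  have hmem : ∀ σ ∈ K', ∀ x ∈ fixedField K', σ x = x := fun σ hσ x hx =>
    (mem_fixedField_iff _ _).1 hx σ hσ
  refine ⟨finite_fixed hK'o hK'f, fixedField_antitone le_sup_left, ?_, ?_, ?_, ?_, ?_⟩
  · rw [finrank_eq_fixingSubgroup_index Qb, finrank_eq_fixingSubgroup_index Qb, hfixK, hfixD,
      ← relIndex_mul_index (le_sup_left : K' ≤ K' ⊔ zpowers h),
      relIndex_sup_zpowers hℓ (hK'n h hhA) hhℓ hhK]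
  · intro σ hσ x hx
    rw [hfixD] at hσ
    have hσA := sup_zpowers_le hK'A hhA hσ
    rw [mem_fixedField_iff]
    intro κ hκ
    have h1 := hK'n σ⁻¹ (A.inv_mem hσA) κ hκ
    have h2 := hmem _ h1 x hx
    have h3 : κ (σ x) = σ ((σ⁻¹ * κ * σ⁻¹⁻¹) x) := by
      rw [← AlgEquiv.mul_apply, ← AlgEquiv.mul_apply]
      congr 1
      group
    rw [h3, h2]
  · intro R σ hσ hσD x hx
    rw [hfixD] at hσD
    exact hmem σ (hr R σ hσ hσD) x hx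
  · intro R hR σ hσ hσD x hx
    rw [hfixD] at hσD
    refine hmem σ (hd R (hR.imp id ?_) σ hσ hσD) x hx
    rintro ⟨τ, hτ, y, hy, hne⟩ hle
    exact hne (hmem τ (hle hτ) y hy)
  · intro ι c hc hcD x hx'
    rw [hfixD] at hcD
    exact hmem c (hx ι c hc hcD) x hx'

/-- **The theorem for subgroups of the absolute Galois group.** -/
theorem fld_main (t1 : S_transfer) (t2 : S_comm) (t3 : S_pext) (t5 : S_findec) (p : ℕ) [hp : Fact p.Prime] (hp2 : p ≠ 2)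
    {I : ValuationSubring Qb → Subgroup Gal(Qb/ℚ)}
    (hI : ∀ (g : Gal(Qb/ℚ)) (w : ValuationSubring Qb), ∀ x ∈ I w, g * x * g⁻¹ ∈ I (g • w))
    (hI2 : ∀ A : ValuationSubring Qb, (p : Qb) ∉ A.nonunits → I A ≤ inertia A)
    {A B : Subgroup Gal(Qb/ℚ)} (hBA : B ≤ A) (hBn : ∀ a ∈ A, ∀ x ∈ B, a * x * a⁻¹ ∈ B)
    (Qs : Subgroup Gal(Qb/ℚ) → Prop) (hup : ∀ K O, Qs K → K ≤ O → Qs O)
    (hext : ∀ K A₁ : Subgroup Gal(Qb/ℚ), IsOpen (K : Set Gal(Qb/ℚ)) →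
      IsOpen (A₁ : Set Gal(Qb/ℚ)) → (∃ ℓ : ℕ, ℓ.Prime ∧ ℓ ≠ p ∧ A₁.index = ℓ) → Qs K → (∀ σ τ : Gal(Qb/ℚ), ⁅σ, τ⁆ ∈ A₁) →
      (∀ (ι : Qb →+* ℂ) (c : Gal(Qb/ℚ)), (∀ x, ι (c x) = conj (ι x)) → c ∈ A₁) → Qs (K ⊓ A₁))
    {m : ℕ} (hm : m ≠ 0)
    (hbase : ∃ C, ∀ (n : ℕ) (R : IntermediateField ℚ Qb), IsLayer p n R →
      RankLe p I (B ⊓ R.fixingSubgroup) C)
    (hstep : ∀ (K' : Subgroup Gal(Qb/ℚ)) (h : Gal(Qb/ℚ)) (ℓ : ℕ), K' ≤ B →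
      IsOpen (K' : Set Gal(Qb/ℚ)) → K'.index ≠ 0 → (∀ a ∈ A, ∀ x ∈ K', a * x * a⁻¹ ∈ K') → Qs K' →
      h ∈ B → h ∉ K' → ℓ.Prime → ℓ ≠ p → h ^ ℓ ∈ K' →
      UnrStep ℓ m (fixedField (K' ⊔ zpowers h)) (fixedField K') →
      ∃ C, ∀ (n : ℕ) (R : IntermediateField ℚ Qb), IsLayer p n R →
        ∀ g ∈ K' ⊔ zpowers h, g ∉ K' → g ∈ R.fixingSubgroup →
          RelLe p I (K' ⊓ R.fixingSubgroup) g C) :
    ∀ K : Subgroup Gal(Qb/ℚ), K ≤ B → IsOpen (K : Set Gal(Qb/ℚ)) → K.index ≠ 0 →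
      (∀ a ∈ A, ∀ x ∈ K, a * x * a⁻¹ ∈ K) → Qs K →
      ∃ C, ∀ (n : ℕ) (R : IntermediateField ℚ Qb), IsLayer p n R →
        RankLe p I (K ⊓ R.fixingSubgroup) C := by
  classical
  intro K hKB hKo hKf hKA hKQ
  have main := main_abs t1 t2 t3 p (I := I) hI hBA hBn
    (J := {R : IntermediateField ℚ Qb // ∃ n, IsLayer p n R})
    (Dm := fun j => j.1.fixingSubgroup)
    (fun j => by
      obtain ⟨n, hn⟩ := j.2
      have := layer_fd hp.out hn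
      exact j.1.fixingSubgroup_isOpen)
    (fun j => by
      obtain ⟨n, hn⟩ := j.2
      exact layer_normal hp.out hn)
    (fun j => by
      obtain ⟨n, hn⟩ := j.2
      have := layer_fd hp.out hn
      exact index_ne_zero' j.1)
    (fun K => K ≤ B ∧ IsOpen (K : Set Gal(Qb/ℚ)) ∧ K.index ≠ 0 ∧
      (∀ a ∈ A, ∀ x ∈ K, a * x * a⁻¹ ∈ K) ∧ Qs K)
    (fun K hK => ⟨hK.1, hK.2.1, hK.2.2.1, hK.2.2.2.1⟩)
    (fun K O hK hKO hOB hOA => ⟨hOB, Subgroup.isOpen_mono hKO hK.2.1, fun h0 => hK.2.2.1 (by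
      have h1 := relIndex_mul_index hKO
      rw [h0, mul_zero] at h1
      exact h1.symm), hOA, hup K O hK.2.2.2.2 hKO⟩)
    (fun K hK => ram_bound t5 hp.out hp2 hI2 hK.2.1 hK.2.2.1)
    (by
      obtain ⟨C, hC⟩ := hbase
      exact ⟨C, fun j => by
        obtain ⟨n, hn⟩ := j.2
        exact hC n j.1 hn⟩)
    ?_ K ⟨hKB, hKo, hKf, hKA, hKQ⟩
  · obtain ⟨C, hC⟩ := main
    exact ⟨C, fun n R hR => hC ⟨R, n, hR⟩⟩
  -- the steps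
  rintro K ⟨hKB, hKo, hKf, hKA, hKQ⟩ c hc hcK ℓ hℓ hℓp hcℓ
  obtain ⟨K', h, hK'K, hK'o, hK'f, hK'A, hK'Q, hK'i, hhB, hch, hhℓ, hhK', hr, hd, hx⟩ :=
    exists_unr hℓ hm hBA hKB hKo hKf hKA hc hcℓ Qs hKQ
      (fun K A₁ h1 h2 h3 => hext K A₁ h1 h2 ⟨ℓ, hℓ, hℓp, h3⟩)
  have hK'B := hK'K.trans hKB
  have hstepU := unrStep_of (m := m) hℓ (hK'B.trans hBA) (hBA hhB) hK'o hK'f hK'A hhℓ hhK' hr hd hx
  obtain ⟨C, hC⟩ := hstep K' h ℓ hK'B hK'o hK'f hK'A hK'Q hhB hhK' hℓ hℓp hhℓ hstepU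
  have hDo : IsOpen ((K' ⊔ zpowers h : Subgroup Gal(Qb/ℚ)) : Set Gal(Qb/ℚ)) :=
    Subgroup.isOpen_mono le_sup_left hK'o
  have hDB : K' ⊔ zpowers h ≤ B := sup_zpowers_le hK'B hhB
  refine ⟨C, ?_⟩
  rintro ⟨R, n, hR⟩
  have hRfd := layer_fd hp.out hR
  have hRn := layer_normal hp.out hR
  have hRi : R.fixingSubgroup.index = p ^ n := by
    rw [← hR.1, finrank_eq_fixingSubgroup_index Qb R]
  -- the exponent
  have hcop : Nat.Coprime ℓ (p ^ n) :=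
    Nat.Coprime.pow_right n ((Nat.coprime_primes hℓ hp.out).2 hℓp)
  obtain ⟨e, he1, he2⟩ := Nat.chineseRemainder hcop 1 0
  have hpe : p ^ n ∣ e := (Nat.modEq_zero_iff_dvd).1 he2
  have hhe : h ^ e ∈ R.fixingSubgroup := by
    obtain ⟨i, rfl⟩ := hpe
    rw [pow_mul, ← hRi]
    exact R.fixingSubgroup.pow_mem (R.fixingSubgroup.pow_index_mem h) i
  have hediff : ∀ j : ℕ, ∃ κ ∈ K', h ^ j = h ^ (e * j) * κ := by
    intro j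
    have h1 : e * j ≡ j [MOD ℓ] := by
      have h2 := he1.mul_right j
      rwa [one_mul] at h2
    -- `h ^ (e j)` and `h ^ j` differ by a power of `h ^ ℓ`
    have h3 : ∀ a b : ℕ, a ≡ b [MOD ℓ] → (h ^ a)⁻¹ * h ^ b ∈ K' := by
      intro a b hab
      rcases le_total a b with hle | hle
      · obtain ⟨k, hk⟩ := (Nat.modEq_iff_dvd' hle).1 hab
        have h4 : b = a + ℓ * k := by omega
        rw [h4, pow_add, pow_mul, inv_mul_cancel_left]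
        exact K'.pow_mem hhℓ k
      · obtain ⟨k, hk⟩ := (Nat.modEq_iff_dvd' hle).1 hab.symm
        have h4 : a = b + ℓ * k := by omega
        rw [h4, pow_add, pow_mul]
        have h5 : (h ^ b * (h ^ ℓ) ^ k)⁻¹ * h ^ b = ((h ^ ℓ) ^ k)⁻¹ := by group
        rw [h5]
        exact K'.inv_mem (K'.pow_mem hhℓ k)
    exact ⟨(h ^ (e * j))⁻¹ * h ^ j, h3 _ _ h1, by group⟩
  have hpℓ : ¬ p ∣ ℓ ^ 2 := fun hdv =>
    hℓp ((Nat.prime_dvd_prime_iff_eq hp.out hℓ).1 (hp.out.dvd_of_dvd_pow hdv)).symm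
  obtain ⟨κ₁, hκ₁, hκ₁'⟩ := hediff 1
  rw [pow_one, mul_one] at hκ₁'
  refine ⟨K' ⊓ R.fixingSubgroup, h ^ e, inf_le_inf_right _ hK'K, ?_, ?_, hhe, ?_, ?_, ?_⟩
  · intro hdv
    exact hpℓ ((hdv.trans (relIndex_inf_dvd hK'K fun b hb =>
      hK'A b (hBA (hKB hb)))).trans hK'i)
  · rw [Subgroup.coe_inf]
    exact hK'o.inter R.fixingSubgroup_isOpen
  · have h1 : c⁻¹ * h ^ e = (c⁻¹ * h) * κ₁⁻¹ := by
      have h2 : h ^ e = h * κ₁⁻¹ := by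
        rw [eq_mul_inv_iff_mul_eq]
        exact hκ₁'.symm
      rw [h2]
      group
    rw [h1]
    exact K.mul_mem hch (K.inv_mem (hK'K hκ₁))
  · rintro x ⟨hx1, hx2⟩
    exact ⟨hK'A _ (A.pow_mem (hBA hhB) e) x hx1, hRn.conj_mem x hx2 _⟩
  · refine hC n R hR (h ^ e) (mem_sup_right (pow_mem (mem_zpowers h) e)) ?_ hhe
    intro h0
    apply hhK'
    rw [hκ₁']
    exact K'.mul_mem h0 hκ₁

end Pool.Agent.Run7.h759.UM
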