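import Pool.Agent.Run7.h759.UM.LayA
import Pool.Agent.Run7.h759.UM.Fld3

/-!
# One layer is enough: subgroups of the absolute Galois group of `ℚ`
-/

set_option autoImplicit false

namespace Pool.Agent.Run7.h759.UM

open Subgroup Pool.Agent.Q60.MU Pool.Agent.W5h77.MB IntermediateField
open scoped commutatorElement Pointwise ComplexConjugate

theorem pow_modEq_mem {𝔾 : Type} [Group 𝔾] {K : Subgroup 𝔾} {h : 𝔾} {ℓ : ℕ} (hh : h ^ ℓ ∈ K)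
    {a b : ℕ} (hab : a ≡ b [MOD ℓ]) : (h ^ a)⁻¹ * h ^ b ∈ K := by
  rcases le_total a b with hle | hle
  · obtain ⟨k, hk⟩ := (Nat.modEq_iff_dvd' hle).1 hab
    have h4 : b = a + ℓ * k := by omega
    rw [h4, pow_add, pow_mul, inv_mul_cancel_left]
    exact K.pow_mem hh k
  · obtain ⟨k, hk⟩ := (Nat.modEq_iff_dvd' hle).1 hab.symm
    have h4 : a = b + ℓ * k := by omega
    rw [h4, pow_add, pow_mul]
    have h5 : (h ^ b * (h ^ ℓ) ^ k)⁻¹ * h ^ b = ((h ^ ℓ) ^ k)⁻¹ := by group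
    rw [h5]
    exact K.inv_mem (K.pow_mem hh k)

theorem layer_index {p n : ℕ} (hp : p.Prime) {R : IntermediateField ℚ Qb} (hR : IsLayer p n R) :
    R.fixingSubgroup.index = p ^ n := by
  have := layer_fd hp hR
  rw [← hR.1, finrank_eq_fixingSubgroup_index Qb R]

/-- Total ramification in the tower above a layer. -/
theorem tot_ram (tt : S_tot) {p : ℕ} (hp : p.Prime) (hp2 : p ≠ 2) {K : Subgroup Gal(Qb/ℚ)}
    {n₀ n' : ℕ} {R₀ R' : IntermediateField ℚ Qb} (hR₀ : IsLayer p n₀ R₀) (hR' : IsLayer p n' R')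
    (hn : n₀ ≤ n') (hT : ∀ σ : Gal(Qb/ℚ), ∃ j : ℕ, ¬ p ^ (n₀ + 1) ∣ j ∧ σ ^ j ∈ K)
    {w : ValuationSubring Qb} (hw : (p : Qb) ∈ w.nonunits) {x : Gal(Qb/ℚ)}
    (hx : x ∈ K ⊓ R₀.fixingSubgroup) :
    ∃ τ ∈ inertia w, ∃ κ ∈ K ⊓ R'.fixingSubgroup, τ = x * κ := by
  obtain ⟨tt1, tt2, -, tt4, -⟩ := tt p hp hp2
  have hle : R'.fixingSubgroup ≤ R₀.fixingSubgroup := fixingSubgroup_le (tt4 n₀ n' R₀ R' hR₀ hR' hn)
  have hDn := layer_normal hp hR'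
  have hD₀n := layer_normal hp hR₀
  obtain ⟨γ₀, hγ₀⟩ := tt1 n' R' hR'
  obtain ⟨σ, hσ, hσγ⟩ := tt2 n' R' hR' w hw γ₀
  obtain ⟨j, hj, hσj⟩ := hT σ
  have hmk : QuotientGroup.mk' R'.fixingSubgroup σ = QuotientGroup.mk' R'.fixingSubgroup γ₀ :=
    QuotientGroup.eq.2 hσγ
  have hgen : ∀ y : Gal(Qb/ℚ), ∃ i : ℕ, (σ ^ i)⁻¹ * y ∈ R'.fixingSubgroup := by
    intro y
    obtain ⟨i, hi⟩ := hγ₀ y
    refine ⟨i, ?_⟩
    have h1 : QuotientGroup.mk' R'.fixingSubgroup (γ₀ ^ i) =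
      QuotientGroup.mk' R'.fixingSubgroup y := QuotientGroup.eq.2 hi
    have h2 : QuotientGroup.mk' R'.fixingSubgroup (σ ^ i) =
        QuotientGroup.mk' R'.fixingSubgroup y := by
      rw [map_pow, hmk, ← map_pow, h1]
    exact QuotientGroup.eq.1 h2
  obtain ⟨i, hi⟩ := hgen x
  have hσi : σ ^ i ∈ R₀.fixingSubgroup := by
    have h1 : σ ^ i = x * ((σ ^ i)⁻¹ * x)⁻¹ := by group
    rw [h1]
    exact R₀.fixingSubgroup.mul_mem hx.2 (R₀.fixingSubgroup.inv_mem (hle hi))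
  have hpi : p ^ n₀ ∣ i := by
    have h1 := (gen_quot (K := (⊤ : Subgroup Gal(Qb/ℚ))) (N := R₀.fixingSubgroup)
      (fun g _ x hx => hD₀n.conj_mem x hx g) le_top (γ := σ) (mem_top _) (fun y _ => by
        obtain ⟨i, hi⟩ := hgen y
        exact ⟨i, (σ ^ i)⁻¹ * y, hle hi, by group⟩) i).1 hσi
    rwa [relIndex_top_right, layer_index hp hR₀] at h1
  have hgcd : Nat.gcd j (p ^ n') ∣ i := by
    obtain ⟨s, -, hs⟩ := (Nat.dvd_prime_pow hp).1 (Nat.gcd_dvd_right j (p ^ n'))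
    rw [hs]
    have h1 : s ≤ n₀ := by
      by_contra hlt
      push Not at hlt
      exact hj ((pow_dvd_pow p hlt).trans (hs ▸ Nat.gcd_dvd_left j (p ^ n')))
    exact (pow_dvd_pow p h1).trans hpi
  obtain ⟨a, b, hab⟩ : ∃ a b : ℤ, (i : ℤ) = j * a + (p ^ n' : ℕ) * b := by
    have h1 : Int.gcd (j : ℤ) ((p ^ n' : ℕ) : ℤ) ∣ i := by
      rw [Int.gcd_natCast_natCast]
      exact hgcd
    exact Int.gcd_dvd_iff.1 h1
  refine ⟨(σ ^ j) ^ a, Subgroup.zpow_mem _ (Subgroup.pow_mem _ hσ j) a, x⁻¹ * (σ ^ j) ^ a,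
    ⟨K.mul_mem (K.inv_mem hx.1) (K.zpow_mem hσj a), ?_⟩, by group⟩
  have h1 : QuotientGroup.mk' R'.fixingSubgroup (σ ^ i) =
    QuotientGroup.mk' R'.fixingSubgroup x := QuotientGroup.eq.2 hi
  have h2 : QuotientGroup.mk' R'.fixingSubgroup (σ ^ (p ^ n')) = 1 := by
    refine (QuotientGroup.eq_one_iff _).2 ?_
    rw [← layer_index hp hR']
    exact R'.fixingSubgroup.pow_index_mem σ
  have h3 : QuotientGroup.mk' R'.fixingSubgroup x =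
      QuotientGroup.mk' R'.fixingSubgroup ((σ ^ j) ^ a) := by
    rw [← h1]
    have h4 : σ ^ i = (σ ^ j) ^ a * (σ ^ (p ^ n')) ^ b := by
      rw [← zpow_natCast σ i, hab, zpow_add, zpow_mul, zpow_mul, zpow_natCast, zpow_natCast]
    rw [h4, map_mul, map_zpow (QuotientGroup.mk' R'.fixingSubgroup) (σ ^ (p ^ n')), h2, one_zpow,
      mul_one]
  exact QuotientGroup.eq.1 h3

/-- The data for the comparison of two layers. -/
theorem lay_data (tt : S_tot) {p : ℕ} (hp : p.Prime) (hp2 : p ≠ 2)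
    {I : ValuationSubring Qb → Subgroup Gal(Qb/ℚ)}
    (hI2 : ∀ A : ValuationSubring Qb, (p : Qb) ∉ A.nonunits → I A ≤ inertia A)
    (hI3 : ∀ A : ValuationSubring Qb, (p : Qb) ∈ A.nonunits → inertia A ≤ I A)
    {K : Subgroup Gal(Qb/ℚ)} (hKf : K.index ≠ 0)
    {n₀ n n' : ℕ} {R₀ R R' : IntermediateField ℚ Qb} (hR₀ : IsLayer p n₀ R₀) (hR : IsLayer p n R)
    (hR' : IsLayer p n' R') (hn : n₀ ≤ n) (hn' : n ≤ n')
    (hT : ∀ σ : Gal(Qb/ℚ), ∃ j : ℕ, ¬ p ^ (n₀ + 1) ∣ j ∧ σ ^ j ∈ K) {h : Gal(Qb/ℚ)}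
    (hhK : ∀ x ∈ K, h * x * h⁻¹ ∈ K) :
    ∃ γ : Gal(Qb/ℚ), Lay p I K (K ⊓ R.fixingSubgroup) (K ⊓ R'.fixingSubgroup) γ h
      ((K ⊓ R₀.fixingSubgroup).relIndex K) ((K ⊓ R.fixingSubgroup).relIndex K) := by
  obtain ⟨tt1, tt2, tt3, tt4, -⟩ := tt p hp hp2
  have hle : R'.fixingSubgroup ≤ R.fixingSubgroup := fixingSubgroup_le (tt4 n n' R R' hR hR' hn')
  have hle₀ : R.fixingSubgroup ≤ R₀.fixingSubgroup := fixingSubgroup_le (tt4 n₀ n R₀ R hR₀ hR hn)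
  have hD'n := layer_normal hp hR'
  have hDn := layer_normal hp hR
  have hD₀n := layer_normal hp hR₀
  have hD'i := layer_index hp hR'
  have hDi := layer_index hp hR
  have hD₀i := layer_index hp hR₀
  obtain ⟨γ₀, hγ₀⟩ := tt1 n' R' hR'
  obtain ⟨γ, hγ, hgen⟩ := cyc_sub hD'n (by rw [hD'i]; exact (pow_pos hp.pos _).ne') hγ₀ K
  have hn1 : ∀ {S : IntermediateField ℚ Qb}, S.fixingSubgroup.Normal → ∀ g ∈ K,
      ∀ x ∈ K ⊓ S.fixingSubgroup, g * x * g⁻¹ ∈ K ⊓ S.fixingSubgroup := by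
    intro S hS g hg x hx
    exact ⟨K.mul_mem (K.mul_mem hg hx.1) (K.inv_mem hg), hS.conj_mem x hx.2 g⟩
  have hn2 : ∀ {S : IntermediateField ℚ Qb}, S.fixingSubgroup.Normal →
      ∀ x ∈ K ⊓ S.fixingSubgroup, h * x * h⁻¹ ∈ K ⊓ S.fixingSubgroup := by
    intro S hS x hx
    exact ⟨hhK x hx.1, hS.conj_mem x hx.2 h⟩
  have hdv : ∀ {S : IntermediateField ℚ Qb} {e : ℕ}, S.fixingSubgroup.Normal →
      S.fixingSubgroup.index = p ^ e → (K ⊓ S.fixingSubgroup).relIndex K ∣ p ^ e := by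
    intro S e hS hSi
    rw [inf_relIndex_left, ← hSi]
    exact relIndex_dvd_index_of_normal _ _
  have hgq := gen_quot (hn1 hDn) inf_le_left hγ (fun x hx => by
    obtain ⟨i, κ, hκ, h1⟩ := hgen x hx
    exact ⟨i, κ, ⟨hκ.1, hle hκ.2⟩, h1⟩)
  have hgq₀ := gen_quot (hn1 hD₀n) inf_le_left hγ (fun x hx => by
    obtain ⟨i, κ, hκ, h1⟩ := hgen x hx
    exact ⟨i, κ, ⟨hκ.1, hle₀ (hle hκ.2)⟩, h1⟩)
  have hgq' := gen_quot (hn1 hD'n) inf_le_left hγ hgen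
  have hram : ∀ w : ValuationSubring Qb, (p : Qb) ∈ w.nonunits → ∃ τ ∈ I w,
      ∃ κ ∈ K ⊓ R'.fixingSubgroup, τ = γ ^ ((K ⊓ R₀.fixingSubgroup).relIndex K) * κ := by
    intro w hw
    obtain ⟨τ, hτ, κ, hκ, h1⟩ := tot_ram tt hp hp2 hR₀ hR' (hn.trans hn') hT hw
      ((hgq₀ _).2 dvd_rfl)
    exact ⟨τ, hI3 w hw hτ, κ, hκ, h1⟩
  refine ⟨γ, ?_, inf_le_left, hn1 hD'n, hn1 hDn, hhK, hn2 hDn, hn2 hD'n, hγ, hgen,
    (hgq _).2 dvd_rfl, ?_, ?_, ?_, ?_, ?_, ?_, ?_, ?_⟩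
  · exact inf_le_inf_left _ hle
  · intro x hx
    obtain ⟨i, κ, hκ, h1⟩ := hgen x hx.1
    have h2 : γ ^ i ∈ K ⊓ R.fixingSubgroup := by
      have h3 : γ ^ i = x * κ⁻¹ := by
        rw [h1]
        group
      rw [h3]
      exact (K ⊓ R.fixingSubgroup).mul_mem hx ((K ⊓ R.fixingSubgroup).inv_mem ⟨hκ.1, hle hκ.2⟩)
    obtain ⟨i', hi'⟩ := (hgq i).1 h2
    exact ⟨i', κ, hκ, by rw [h1, hi']⟩
  · obtain ⟨a, -, ha⟩ := (Nat.dvd_prime_pow hp).1 (hdv hD₀n hD₀i)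
    exact ⟨a, ha⟩
  · obtain ⟨a, -, ha⟩ := (Nat.dvd_prime_pow hp).1 (hdv hDn hDi)
    exact ⟨a, ha⟩
  · refine relIndex_le_of_le_left (inf_le_inf_left _ hle₀) ?_
    intro h0
    have h1 := hdv hDn hDi
    rw [h0, zero_dvd_iff] at h1
    exact (pow_pos hp.pos n).ne' h1
  · exact ⟨n', (hgq' _).2 (hdv hD'n hD'i)⟩
  · refine ⟨?_, comm_mem hD'n hγ₀ h γ⟩
    rw [commutatorElement_def]
    exact K.mul_mem (hhK γ hγ) (K.inv_mem hγ)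
  · intro w σ hσ hσR
    by_cases hw : (p : Qb) ∈ w.nonunits
    · exact Or.inr (hram w hw)
    · exact Or.inl ⟨hσR.1, inertia_le_layer hp hR' hw (hI2 w hw hσ)⟩
  · obtain ⟨w, hw⟩ := tt3
    exact ⟨w, hram w hw⟩

/-- The layers below. -/
theorem crit_down (tt : S_tot) (p : ℕ) [hp : Fact p.Prime] (hp2 : p ≠ 2)
    {I : ValuationSubring Qb → Subgroup Gal(Qb/ℚ)}
    {K D : Subgroup Gal(Qb/ℚ)} (hKD : K ≤ D) (hKn : ∀ g ∈ D, ∀ x ∈ K, g * x * g⁻¹ ∈ K)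
    (hKo : IsOpen (K : Set Gal(Qb/ℚ)))
    {ℓ C n : ℕ} {R : IntermediateField ℚ Qb} (hℓ : ℓ.Prime) (hℓp : ℓ ≠ p)
    (hi : K.relIndex D = ℓ) (hR : IsLayer p n R)
    (hrel : ∀ (n' : ℕ) (R' : IntermediateField ℚ Qb), IsLayer p n' R' → n ≤ n' →
      ∀ h ∈ D, h ∉ K → h ∈ R'.fixingSubgroup → RelLe p I (K ⊓ R'.fixingSubgroup) h C)
    (n' : ℕ) (R' : IntermediateField ℚ Qb) (hR' : IsLayer p n' R') (h : Gal(Qb/ℚ)) (hh : h ∈ D)
    (hhK : h ∉ K) (hhR' : h ∈ R'.fixingSubgroup) :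
    RelLe p I (K ⊓ R'.fixingSubgroup) h (C * p ^ n) := by
  obtain ⟨hhℓ, hcos⟩ := prime_gen hKD hKn hℓ hi hh hhK
  have tt4 := (tt p hp.out hp2).2.2.2.1
  have hRd := layer_fd hp.out hR
  rcases le_or_gt n n' with hle | hlt
  · exact (hrel n' R' hR' hle h hh hhK hhR').mono
      (Nat.le_mul_of_pos_right _ (pow_pos hp.out.pos n))
  · have hR'R : R' ≤ R := tt4 n' n R' R hR' hR hlt.le
    have hDn := layer_normal hp.out hR
    have hcop : Nat.Coprime ℓ (p ^ n) :=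
      Nat.Coprime.pow_right n ((Nat.coprime_primes hℓ hp.out).2 hℓp)
    obtain ⟨e, he1, he2⟩ := Nat.chineseRemainder hcop 1 0
    have hpe : p ^ n ∣ e := (Nat.modEq_zero_iff_dvd).1 he2
    have hhe : h ^ e ∈ R.fixingSubgroup := by
      obtain ⟨i, rfl⟩ := hpe
      rw [pow_mul, ← layer_index hp.out hR]
      exact R.fixingSubgroup.pow_mem (R.fixingSubgroup.pow_index_mem h) i
    have h1 : (h ^ e)⁻¹ * h ^ 1 ∈ K := pow_modEq_mem hhℓ he1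
    rw [pow_one] at h1
    have h2 : (h ^ e)⁻¹ * h ∈ K ⊓ R'.fixingSubgroup :=
      ⟨h1, R'.fixingSubgroup.mul_mem (R'.fixingSubgroup.inv_mem (R'.fixingSubgroup.pow_mem hhR' e))
        hhR'⟩
    have h3 : h ^ e ∉ K := by
      intro h0
      apply hhK
      have h4 : h = h ^ e * ((h ^ e)⁻¹ * h) := by group
      rw [h4]
      exact K.mul_mem h0 h1
    have hheD : h ^ e ∈ D := D.pow_mem hh e
    have h4 := hrel n R hR le_rfl (h ^ e) hheD h3 hhe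
    have hdvd : (K ⊓ R.fixingSubgroup).relIndex (K ⊓ R'.fixingSubgroup) ∣ p ^ n := by
      have h5 : (K ⊓ R.fixingSubgroup).relIndex (K ⊓ R'.fixingSubgroup) =
          R.fixingSubgroup.relIndex (K ⊓ R'.fixingSubgroup) := by
        rw [← inf_relIndex_right R.fixingSubgroup, ← inf_relIndex_right (K ⊓ R.fixingSubgroup)]
        congr 1
        ext x
        simp only [Subgroup.mem_inf]
        tauto
      rw [h5, ← layer_index hp.out hR]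
      exact relIndex_dvd_index_of_normal _ _
    have hpn : p ^ n ≠ 0 := (pow_pos hp.out.pos n).ne'
    have h5 := RelLe.of_le (L := K ⊓ R'.fixingSubgroup)
      (inf_le_inf_left K (fixingSubgroup_le hR'R)) (by
        rw [Subgroup.coe_inf]
        exact hKo.inter R.fixingSubgroup_isOpen) (fun h0 => hpn (by
          rw [h0, zero_dvd_iff] at hdvd
          exact hdvd)) (fun x hx => ⟨hKn _ hheD x hx.1, hDn.conj_mem x hx.2 _⟩) h4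
    have h6 := (h5.mono (Nat.mul_le_mul_left C (Nat.le_of_dvd (pow_pos hp.out.pos n) hdvd))).congr h2
    have h7 : h ^ e * ((h ^ e)⁻¹ * h) = h := by group
    rwa [h7] at h6

/-- **One layer is enough.** -/
theorem crit_layers (ql : S_layer) (tt : S_tot) (p : ℕ) [hp : Fact p.Prime] (hp2 : p ≠ 2)
    {I : ValuationSubring Qb → Subgroup Gal(Qb/ℚ)}
    (hI : ∀ (g : Gal(Qb/ℚ)) (w : ValuationSubring Qb), ∀ x ∈ I w, g * x * g⁻¹ ∈ I (g • w))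
    (hI2 : ∀ A : ValuationSubring Qb, (p : Qb) ∉ A.nonunits → I A ≤ inertia A)
    (hI3 : ∀ A : ValuationSubring Qb, (p : Qb) ∈ A.nonunits → inertia A ≤ I A)
    {K D : Subgroup Gal(Qb/ℚ)} (hKD : K ≤ D) (hKn : ∀ g ∈ D, ∀ x ∈ K, g * x * g⁻¹ ∈ K)
    (hKo : IsOpen (K : Set Gal(Qb/ℚ))) (hKf : K.index ≠ 0)
    {ℓ f C n₀ n : ℕ} {R₀ R : IntermediateField ℚ Qb} (hℓ : ℓ.Prime) (hℓp : ℓ ≠ p)
    (hi : K.relIndex D = ℓ) (hR₀ : IsLayer p n₀ R₀) (hR : IsLayer p n R) (hn : n₀ ≤ n)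
    (hT : ∀ σ : Gal(Qb/ℚ), ∃ j : ℕ, ¬ p ^ (n₀ + 1) ∣ j ∧ σ ^ j ∈ K) (hf : OrdGe p ℓ f)
    (hC : C < p ^ (f * ((K ⊓ R.fixingSubgroup).relIndex K -
      (K ⊓ R₀.fixingSubgroup).relIndex K)))
    (hrel : ∀ h ∈ D, h ∉ K → h ∈ R.fixingSubgroup → RelLe p I (K ⊓ R.fixingSubgroup) h C)
    (n' : ℕ) (R' : IntermediateField ℚ Qb) (hR' : IsLayer p n' R') (h : Gal(Qb/ℚ)) (hh : h ∈ D)
    (hhK : h ∉ K) (hhR' : h ∈ R'.fixingSubgroup) :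
    RelLe p I (K ⊓ R'.fixingSubgroup) h (C * p ^ n) := by
  refine crit_down tt p hp2 hKD hKn hKo hℓ hℓp hi hR ?_ n' R' hR' h hh hhK hhR'
  intro n' R' hR' hle h hh hhK hhR'
  obtain ⟨hhℓ, -⟩ := prime_gen hKD hKn hℓ hi hh hhK
  have hRR' : R ≤ R' := (tt p hp.out hp2).2.2.2.1 n n' R R' hR hR' hle
  obtain ⟨γ, hlay⟩ := lay_data tt hp.out hp2 hI2 hI3 hKf hR₀ hR hR' hn hle hT (hKn h hh)
  exact ql Gal(Qb/ℚ) p (ValuationSubring Qb) I K (K ⊓ R.fixingSubgroup)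
    (K ⊓ R'.fixingSubgroup) γ h ℓ f _ _ C hI hlay hℓ hℓp ⟨hhℓ, R'.fixingSubgroup.pow_mem hhR' ℓ⟩
    hf hC (hrel h hh hhK (fixingSubgroup_le hRR' hhR'))

/-- The data for the comparison of two layers, without ramification. -/
theorem lay_data0 (tt : S_tot) {p : ℕ} (hp : p.Prime) (hp2 : p ≠ 2)
    {I : ValuationSubring Qb → Subgroup Gal(Qb/ℚ)}
    (hI4 : ∀ (n : ℕ) (R : IntermediateField ℚ Qb), IsLayer p n R → ∀ A, I A ≤ R.fixingSubgroup)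
    {K : Subgroup Gal(Qb/ℚ)}
    {n n' : ℕ} {R R' : IntermediateField ℚ Qb} (hR : IsLayer p n R)
    (hR' : IsLayer p n' R') (hn' : n ≤ n') {h : Gal(Qb/ℚ)}
    (hhK : ∀ x ∈ K, h * x * h⁻¹ ∈ K) :
    ∃ γ : Gal(Qb/ℚ), Lay0 p I K (K ⊓ R.fixingSubgroup) (K ⊓ R'.fixingSubgroup) γ h
      ((K ⊓ R.fixingSubgroup).relIndex K) := by
  obtain ⟨tt1, -, -, tt4, -⟩ := tt p hp hp2
  have hle : R'.fixingSubgroup ≤ R.fixingSubgroup := fixingSubgroup_le (tt4 n n' R R' hR hR' hn')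
  have hD'n := layer_normal hp hR'
  have hDn := layer_normal hp hR
  have hD'i := layer_index hp hR'
  have hDi := layer_index hp hR
  obtain ⟨γ₀, hγ₀⟩ := tt1 n' R' hR'
  obtain ⟨γ, hγ, hgen⟩ := cyc_sub hD'n (by rw [hD'i]; exact (pow_pos hp.pos _).ne') hγ₀ K
  have hn1 : ∀ {S : IntermediateField ℚ Qb}, S.fixingSubgroup.Normal → ∀ g ∈ K,
      ∀ x ∈ K ⊓ S.fixingSubgroup, g * x * g⁻¹ ∈ K ⊓ S.fixingSubgroup := by
    intro S hS g hg x hx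
    exact ⟨K.mul_mem (K.mul_mem hg hx.1) (K.inv_mem hg), hS.conj_mem x hx.2 g⟩
  have hn2 : ∀ {S : IntermediateField ℚ Qb}, S.fixingSubgroup.Normal →
      ∀ x ∈ K ⊓ S.fixingSubgroup, h * x * h⁻¹ ∈ K ⊓ S.fixingSubgroup := by
    intro S hS x hx
    exact ⟨hhK x hx.1, hS.conj_mem x hx.2 h⟩
  have hdv : ∀ {S : IntermediateField ℚ Qb} {e : ℕ}, S.fixingSubgroup.Normal →
      S.fixingSubgroup.index = p ^ e → (K ⊓ S.fixingSubgroup).relIndex K ∣ p ^ e := by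
    intro S e hS hSi
    rw [inf_relIndex_left, ← hSi]
    exact relIndex_dvd_index_of_normal _ _
  have hgq := gen_quot (hn1 hDn) inf_le_left hγ (fun x hx => by
    obtain ⟨i, κ, hκ, h1⟩ := hgen x hx
    exact ⟨i, κ, ⟨hκ.1, hle hκ.2⟩, h1⟩)
  have hgq' := gen_quot (hn1 hD'n) inf_le_left hγ hgen
  refine ⟨γ, ?_, inf_le_left, hn1 hD'n, hn1 hDn, hhK, hn2 hDn, hn2 hD'n, hγ, hgen,
    (hgq _).2 dvd_rfl, ?_, ?_, ?_, ?_, ?_⟩
  · exact inf_le_inf_left _ hle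
  · intro x hx
    obtain ⟨i, κ, hκ, h1⟩ := hgen x hx.1
    have h2 : γ ^ i ∈ K ⊓ R.fixingSubgroup := by
      have h3 : γ ^ i = x * κ⁻¹ := by
        rw [h1]
        group
      rw [h3]
      exact (K ⊓ R.fixingSubgroup).mul_mem hx ((K ⊓ R.fixingSubgroup).inv_mem ⟨hκ.1, hle hκ.2⟩)
    obtain ⟨i', hi'⟩ := (hgq i).1 h2
    exact ⟨i', κ, hκ, by rw [h1, hi']⟩
  · obtain ⟨a, -, ha⟩ := (Nat.dvd_prime_pow hp).1 (hdv hDn hDi)
    exact ⟨a, ha⟩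
  · exact ⟨n', (hgq' _).2 (hdv hD'n hD'i)⟩
  · refine ⟨?_, comm_mem hD'n hγ₀ h γ⟩
    rw [commutatorElement_def]
    exact K.mul_mem (hhK γ hγ) (K.inv_mem hγ)
  · intro w σ hσ hσR
    exact ⟨hσR.1, hI4 n' R' hR' w hσ⟩

/-- **One layer is enough, without ramification.** -/
theorem crit_layers0 (ql : S_layer0) (tt : S_tot) (p : ℕ) [hp : Fact p.Prime] (hp2 : p ≠ 2)
    {I : ValuationSubring Qb → Subgroup Gal(Qb/ℚ)}
    (hI : ∀ (g : Gal(Qb/ℚ)) (w : ValuationSubring Qb), ∀ x ∈ I w, g * x * g⁻¹ ∈ I (g • w))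
    (hI4 : ∀ (n : ℕ) (R : IntermediateField ℚ Qb), IsLayer p n R → ∀ A, I A ≤ R.fixingSubgroup)
    {K D : Subgroup Gal(Qb/ℚ)} (hKD : K ≤ D) (hKn : ∀ g ∈ D, ∀ x ∈ K, g * x * g⁻¹ ∈ K)
    (hKo : IsOpen (K : Set Gal(Qb/ℚ)))
    {ℓ f C n : ℕ} {R : IntermediateField ℚ Qb} (hℓ : ℓ.Prime) (hℓp : ℓ ≠ p)
    (hi : K.relIndex D = ℓ) (hR : IsLayer p n R) (hf : OrdGe p ℓ f)
    (hC : C < p ^ (f * (K ⊓ R.fixingSubgroup).relIndex K))
    (hrel : ∀ h ∈ D, h ∉ K → h ∈ R.fixingSubgroup → RelLe p I (K ⊓ R.fixingSubgroup) h C)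
    (n' : ℕ) (R' : IntermediateField ℚ Qb) (hR' : IsLayer p n' R') (h : Gal(Qb/ℚ)) (hh : h ∈ D)
    (hhK : h ∉ K) (hhR' : h ∈ R'.fixingSubgroup) :
    RelLe p I (K ⊓ R'.fixingSubgroup) h (C * p ^ n) := by
  refine crit_down tt p hp2 hKD hKn hKo hℓ hℓp hi hR ?_ n' R' hR' h hh hhK hhR'
  intro n' R' hR' hle h hh hhK hhR'
  obtain ⟨hhℓ, -⟩ := prime_gen hKD hKn hℓ hi hh hhK
  have hRR' : R ≤ R' := (tt p hp.out hp2).2.2.2.1 n n' R R' hR hR' hle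
  obtain ⟨γ, hlay⟩ := lay_data0 tt hp.out hp2 hI4 hR hR' hle (hKn h hh)
  exact ql Gal(Qb/ℚ) p (ValuationSubring Qb) I K (K ⊓ R.fixingSubgroup)
    (K ⊓ R'.fixingSubgroup) γ h ℓ f _ C hI hlay hℓ hℓp ⟨hhℓ, R'.fixingSubgroup.pow_mem hhR' ℓ⟩
    hf hC (hrel h hh hhK (fixingSubgroup_le hRR' hhR'))

end Pool.Agent.Run7.h759.UM
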