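import Pool.Agent.Run7.h759.UM.Pext
import Pool.Agent.Run7.h759.UM.LayB

/-!
# One layer is enough: number fields
-/

set_option autoImplicit false

namespace Pool.Agent.Run7.h759.UM

open Subgroup Pool.Agent.Q60.MU Pool.Agent.W5h77.MB IntermediateField
open scoped commutatorElement Pointwise ComplexConjugate

/-- The relative part of a layer `N R / M R` is small compared with the degree of `R`: with `q₀ = [N R₀ : N]` and
`q = [N R : N]`, its order is less than `p ^ (f (q - q₀))`, where the order of `p` modulo `ℓ` is at least `f` and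
`R₀ ⊆ R` is a layer of degree `p ^ n₀` such that for each automorphism `σ` some power `σ ^ j`, `j` not divisible by
`p ^ (n₀ + 1)`, is trivial on `N` (this holds if `[N : ℚ] ≤ p ^ n₀`, and if `N` is Galois over `ℚ` and `p ^ (n₀ + 1)` does
not divide `[N : ℚ]`). -/
def OneLayer (p : ℕ) (I : ValuationSubring Qb → Subgroup Gal(Qb/ℚ)) (ℓ : ℕ)
    (M N : IntermediateField ℚ Qb) : Prop :=
  ∃ (n₀ n q₀ q f C : ℕ) (R₀ R : IntermediateField ℚ Qb), IsLayer p n₀ R₀ ∧ IsLayer p n R ∧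
    n₀ ≤ n ∧
    (∀ σ : Gal(Qb/ℚ), ∃ j : ℕ, ¬ p ^ (n₀ + 1) ∣ j ∧ ∀ x ∈ N, (σ ^ j) x = x) ∧
    Module.finrank ℚ ↥(N ⊔ R₀) = q₀ * Module.finrank ℚ N ∧
    Module.finrank ℚ ↥(N ⊔ R) = q * Module.finrank ℚ N ∧
    OrdGe p ℓ f ∧ RelDeg p I (M ⊔ R) (N ⊔ R) C ∧ C < p ^ (f * (q - q₀))

/-- The same without the layer `R₀`. -/
def OneLayer0 (p : ℕ) (I : ValuationSubring Qb → Subgroup Gal(Qb/ℚ)) (ℓ : ℕ)
    (M N : IntermediateField ℚ Qb) : Prop :=
  ∃ (n q f C : ℕ) (R : IntermediateField ℚ Qb), IsLayer p n R ∧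
    Module.finrank ℚ ↥(N ⊔ R) = q * Module.finrank ℚ N ∧
    OrdGe p ℓ f ∧ RelDeg p I (M ⊔ R) (N ⊔ R) C ∧ C < p ^ (f * q)

theorem relIndex_layer {N R : IntermediateField ℚ Qb} (hNd : FiniteDimensional ℚ N)
    (hRd : FiniteDimensional ℚ R) {q : ℕ}
    (h : Module.finrank ℚ ↥(N ⊔ R) = q * Module.finrank ℚ N) :
    (N.fixingSubgroup ⊓ R.fixingSubgroup).relIndex N.fixingSubgroup = q := by
  have hle : N.fixingSubgroup ⊓ R.fixingSubgroup ≤ N.fixingSubgroup := inf_le_left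
  rw [finrank_eq_fixingSubgroup_index Qb, finrank_eq_fixingSubgroup_index Qb, fixingSubgroup_sup,
    ← relIndex_mul_index hle] at h
  exact Nat.eq_of_mul_eq_mul_right (Nat.pos_of_ne_zero (index_ne_zero' N)) h

theorem finrank_layer {N R : IntermediateField ℚ Qb} :
    Module.finrank ℚ ↥(N ⊔ R) = (N.fixingSubgroup ⊓ R.fixingSubgroup).relIndex N.fixingSubgroup *
      Module.finrank ℚ N := by
  have hle : N.fixingSubgroup ⊓ R.fixingSubgroup ≤ N.fixingSubgroup := inf_le_left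
  rw [finrank_eq_fixingSubgroup_index Qb, finrank_eq_fixingSubgroup_index Qb, fixingSubgroup_sup,
    ← relIndex_mul_index hle]

/-- The condition on `n₀` in two cases. -/
theorem pow_of_degree {p : ℕ} (hp : p.Prime) {N : IntermediateField ℚ Qb}
    (hNd : FiniteDimensional ℚ N) {n₀ : ℕ} (hdeg : Module.finrank ℚ N ≤ p ^ n₀ ∨
      (IsGalois ℚ N ∧ ¬ p ^ (n₀ + 1) ∣ Module.finrank ℚ N)) (σ : Gal(Qb/ℚ)) :
    ∃ j : ℕ, ¬ p ^ (n₀ + 1) ∣ j ∧ ∀ x ∈ N, (σ ^ j) x = x := by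
  suffices h : ∃ j : ℕ, ¬ p ^ (n₀ + 1) ∣ j ∧ σ ^ j ∈ N.fixingSubgroup by
    obtain ⟨j, h1, h2⟩ := h
    exact ⟨j, h1, (IntermediateField.mem_fixingSubgroup_iff _ _).1 h2⟩
  have hNi := index_ne_zero' N
  rcases hdeg with hdeg | ⟨hg, hdeg⟩
  · obtain ⟨j, hj0, hj, hσ⟩ := exists_pow_mem_of_index_ne_zero hNi σ
    refine ⟨j, fun hdv => ?_, hσ⟩
    rw [finrank_eq_fixingSubgroup_index Qb] at hdeg
    have h1 := Nat.le_of_dvd hj0 hdv
    have h2 : p ^ n₀ < p ^ (n₀ + 1) := Nat.pow_lt_pow_right hp.one_lt (Nat.lt_succ_self _)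
    omega
  · have hnor : N.fixingSubgroup.Normal := (InfiniteGalois.normal_iff_isGalois N).2 hg
    rw [finrank_eq_fixingSubgroup_index Qb] at hdeg
    exact ⟨_, hdeg, N.fixingSubgroup.pow_index_mem σ⟩

theorem relL_of_oneLayer (t6 : S_rel) (ql : S_layer) (tt : S_tot) (p : ℕ) [hp : Fact p.Prime]
    (hp2 : p ≠ 2) {I : ValuationSubring Qb → Subgroup Gal(Qb/ℚ)}
    (hI : ∀ (g : Gal(Qb/ℚ)) (w : ValuationSubring Qb), ∀ x ∈ I w, g * x * g⁻¹ ∈ I (g • w))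
    (hI2 : ∀ A : ValuationSubring Qb, (p : Qb) ∉ A.nonunits → I A ≤ inertia A)
    (hI3 : ∀ A : ValuationSubring Qb, (p : Qb) ∈ A.nonunits → inertia A ≤ I A)
    {ℓ m : ℕ} (hℓ : ℓ.Prime) (hℓp : ℓ ≠ p) {M N : IntermediateField ℚ Qb} (hu : UnrStep ℓ m M N)
    (h : OneLayer p I ℓ M N) : RelL p I M N := by
  obtain ⟨n₀, n, q₀, q, f, C, R₀, R, hR₀, hR, hn, hdeg, hq₀, hq, hf, hrel, hC⟩ := h
  obtain ⟨hle, hns, hNi, hi⟩ := step_groups hu
  have hNd := hu.1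
  have hRd := layer_fd hp.out hR
  have hR₀d := layer_fd hp.out hR₀
  have e₀ := relIndex_layer hNd hR₀d hq₀
  have e₁ := relIndex_layer hNd hRd hq
  have hT : ∀ σ : Gal(Qb/ℚ), ∃ j : ℕ, ¬ p ^ (n₀ + 1) ∣ j ∧ σ ^ j ∈ N.fixingSubgroup := by
    intro σ
    obtain ⟨j, hj, hx⟩ := hdeg σ
    exact ⟨j, hj, (IntermediateField.mem_fixingSubgroup_iff _ _).2 hx⟩
  refine ⟨C * p ^ n, fun n' R' hR' g hg hgN hgR' => ?_⟩
  refine crit_layers ql tt p hp2 hI hI2 hI3 hle hns N.fixingSubgroup_isOpen hNi hℓ hℓp hi hR₀ hR hn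
    hT hf ?_ (relLe_of_relDeg t6 hp.out hℓ hu hR hrel) n' R' hR' g hg hgN hgR'
  rw [e₀, e₁]
  exact hC

theorem relL_of_oneLayer0 (t6 : S_rel) (ql : S_layer0) (tt : S_tot) (p : ℕ) [hp : Fact p.Prime]
    (hp2 : p ≠ 2) {I : ValuationSubring Qb → Subgroup Gal(Qb/ℚ)}
    (hI : ∀ (g : Gal(Qb/ℚ)) (w : ValuationSubring Qb), ∀ x ∈ I w, g * x * g⁻¹ ∈ I (g • w))
    (hI4 : ∀ (n : ℕ) (R : IntermediateField ℚ Qb), IsLayer p n R → ∀ A, I A ≤ R.fixingSubgroup)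
    {ℓ m : ℕ} (hℓ : ℓ.Prime) (hℓp : ℓ ≠ p) {M N : IntermediateField ℚ Qb} (hu : UnrStep ℓ m M N)
    (h : OneLayer0 p I ℓ M N) : RelL p I M N := by
  obtain ⟨n, q, f, C, R, hR, hq, hf, hrel, hC⟩ := h
  obtain ⟨hle, hns, hNi, hi⟩ := step_groups hu
  have hNd := hu.1
  have hRd := layer_fd hp.out hR
  have e₁ := relIndex_layer hNd hRd hq
  refine ⟨C * p ^ n, fun n' R' hR' g hg hgN hgR' => ?_⟩
  refine crit_layers0 ql tt p hp2 hI hI4 hle hns N.fixingSubgroup_isOpen hℓ hℓp hi hR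
    hf ?_ (relLe_of_relDeg t6 hp.out hℓ hu hR hrel) n' R' hR' g hg hgN hgR'
  rw [e₁]
  exact hC

/-- Layers of large degree. -/
theorem exists_large (tt : S_tot) {p : ℕ} (hp : p.Prime) (hp2 : p ≠ 2)
    {N : IntermediateField ℚ Qb} (hNd : FiniteDimensional ℚ N) (n₀ B : ℕ) :
    ∃ (n : ℕ) (R : IntermediateField ℚ Qb), IsLayer p n R ∧ n₀ ≤ n ∧
      B ≤ (N.fixingSubgroup ⊓ R.fixingSubgroup).relIndex N.fixingSubgroup := by
  have hN0 : 0 < Module.finrank ℚ N := Module.finrank_pos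
  set n := n₀ + Module.finrank ℚ N * B with hn
  obtain ⟨R, hR⟩ := (tt p hp hp2).2.2.2.2 n
  have hRd := layer_fd hp hR
  refine ⟨n, R, hR, Nat.le_add_right _ _, ?_⟩
  by_contra hlt
  push Not at hlt
  have h1 : Module.finrank ℚ R ≤ Module.finrank ℚ ↥(N ⊔ R) := by
    have h2 : Subalgebra.toSubmodule R.toSubalgebra ≤ Subalgebra.toSubmodule (N ⊔ R).toSubalgebra :=
      fun x hx => (le_sup_right : R ≤ N ⊔ R) hx
    have h3 : FiniteDimensional ℚ ↥(N ⊔ R) := inferInstance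
    have h4 : Module.Finite ℚ ↥(Subalgebra.toSubmodule (N ⊔ R).toSubalgebra) := h3
    exact Submodule.finrank_mono h2
  rw [hR.1, finrank_layer] at h1
  have h2 : (N.fixingSubgroup ⊓ R.fixingSubgroup).relIndex N.fixingSubgroup * Module.finrank ℚ N ≤
      Module.finrank ℚ N * B := by
    rw [mul_comm]
    exact Nat.mul_le_mul_left _ hlt.le
  have h3 : n < p ^ n := Nat.lt_pow_self hp.one_lt
  omega

theorem oneLayer_of_relI (tt : S_tot) {p : ℕ} (hp : p.Prime) (hp2 : p ≠ 2)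
    {I : ValuationSubring Qb → Subgroup Gal(Qb/ℚ)} {ℓ : ℕ} {M N : IntermediateField ℚ Qb}
    (hNd : FiniteDimensional ℚ N) (h : RelI p I M N) : OneLayer p I ℓ M N := by
  obtain ⟨C, hC⟩ := h
  set n₀ := Module.finrank ℚ N with hn₀
  obtain ⟨R₀, hR₀⟩ := (tt p hp hp2).2.2.2.2 n₀
  obtain ⟨n, R, hR, hn, hq⟩ := exists_large tt hp hp2 hNd n₀
    ((N.fixingSubgroup ⊓ R₀.fixingSubgroup).relIndex N.fixingSubgroup + C + 1)
  refine ⟨n₀, n, _, _, 1, C, R₀, R, hR₀, hR, hn,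
    pow_of_degree hp hNd (Or.inl (Nat.lt_pow_self hp.one_lt).le),
    finrank_layer, finrank_layer, fun i h1 h2 => absurd h1 (by omega), hC n R hR, ?_⟩
  rw [one_mul]
  set q₀ := (N.fixingSubgroup ⊓ R₀.fixingSubgroup).relIndex N.fixingSubgroup
  set q := (N.fixingSubgroup ⊓ R.fixingSubgroup).relIndex N.fixingSubgroup
  have h1 : q - q₀ < p ^ (q - q₀) := Nat.lt_pow_self hp.one_lt
  omega

theorem oneLayer0_of_relI (tt : S_tot) {p : ℕ} (hp : p.Prime) (hp2 : p ≠ 2)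
    {I : ValuationSubring Qb → Subgroup Gal(Qb/ℚ)} {ℓ : ℕ} {M N : IntermediateField ℚ Qb}
    (hNd : FiniteDimensional ℚ N) (h : RelI p I M N) : OneLayer0 p I ℓ M N := by
  obtain ⟨C, hC⟩ := h
  obtain ⟨n, R, hR, hn, hq⟩ := exists_large tt hp hp2 hNd 0 (C + 1)
  refine ⟨n, _, 1, C, R, hR, finrank_layer, fun i h1 h2 => absurd h1 (by omega), hC n R hR, ?_⟩
  rw [one_mul]
  set q := (N.fixingSubgroup ⊓ R.fixingSubgroup).relIndex N.fixingSubgroup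
  have h1 : q < p ^ q := Nat.lt_pow_self hp.one_lt
  omega

end Pool.Agent.Run7.h759.UM
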