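import Pool.Agent.Run7.h759.UM.Iface

/-!
# Elementary facts on valuation rings
-/

set_option autoImplicit false

namespace Pool.Agent.Run7.h759.UM

open Subgroup Pool.Agent.Q60.MU Pool.Agent.W5h77.MB IntermediateField
open scoped commutatorElement Pointwise ComplexConjugate

theorem exists_prime_nonunit {A : ValuationSubring Qb} {n : ℕ} (hn : n ≠ 0)
    (h : (n : Qb) ∈ A.nonunits) : ∃ r : ℕ, r.Prime ∧ r ∣ n ∧ (r : Qb) ∈ A.nonunits := by
  induction n using Nat.strong_induction_on with
  | _ n ih =>
    have hn1 : n ≠ 1 := by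
      rintro rfl
      rw [ValuationSubring.mem_nonunits_iff, Nat.cast_one, map_one] at h
      exact lt_irrefl _ h
    obtain ⟨m, hm⟩ := Nat.minFac_dvd n
    have hp : n.minFac.Prime := Nat.minFac_prime hn1
    have hm0 : m ≠ 0 := by
      rintro rfl
      rw [mul_zero] at hm
      exact hn hm
    have hlt : m < n := by
      calc m < n.minFac * m := by
            have := hp.two_le
            have := Nat.pos_of_ne_zero hm0
            nlinarith
        _ = n := hm.symm
    by_cases h1 : ((n.minFac : ℕ) : Qb) ∈ A.nonunits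
    · exact ⟨_, hp, Nat.minFac_dvd n, h1⟩
    · have h2 : (m : Qb) ∈ A.nonunits := by
        rw [ValuationSubring.mem_nonunits_iff] at h h1 ⊢
        have h3 : A.valuation ((n.minFac : ℕ) : Qb) = 1 := by
          refine le_antisymm ?_ (not_lt.1 h1)
          rw [ValuationSubring.valuation_le_one_iff]
          exact natCast_mem A _
        have h4 : (n : Qb) = ((n.minFac : ℕ) : Qb) * (m : Qb) := by
          rw [← Nat.cast_mul, ← hm]
        rw [h4, map_mul, h3, one_mul] at h
        exact h
      obtain ⟨r, h3, h4, h5⟩ := ih m hlt hm0 h2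
      exact ⟨r, h3, h4.trans ⟨n.minFac, by rw [mul_comm]; exact hm⟩, h5⟩

theorem not_both {A : ValuationSubring Qb} {r q : ℕ} (hrq : Nat.Coprime r q)
    (hr : (r : Qb) ∈ A.nonunits) : (q : Qb) ∉ A.nonunits := by
  intro hq
  have h1 : (1 : Qb) ∈ A.nonunits := by
    have h2 : IsCoprime (r : ℤ) (q : ℤ) := Nat.isCoprime_iff_coprime.2 hrq
    obtain ⟨a, b, hab⟩ := h2
    have h3 : (1 : Qb) = (a : Qb) * (r : Qb) + (b : Qb) * (q : Qb) := by
      have h4 := congrArg (fun z : ℤ => (z : Qb)) hab
      push_cast at h4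
      exact h4.symm
    have hint : ∀ z : ℤ, (z : Qb) ∈ A := fun z => intCast_mem A z
    rw [h3]
    refine add_mem ?_ ?_
    · rw [mul_comm]
      exact mul_nonunits hr (hint a)
    · rw [mul_comm]
      exact mul_nonunits hq (hint b)
  rw [ValuationSubring.mem_nonunits_iff, map_one] at h1
  exact lt_irrefl _ h1

end Pool.Agent.Run7.h759.UM
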