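import Pool.Agent.Run7.h759.UM.Iface

/-!
# Primes of bounded number in the cyclotomic extension: local part
-/

set_option autoImplicit false

namespace Pool.Agent.Run7.h759.UM.P5

open IntermediateField Polynomial Pool.Agent.Q60.MU Pool.Agent.W5h77.MB
open scoped Pointwise

/-- integral elements of `ℚ(z)` are polynomials in `z` -/
theorem int_elem {p : ℕ} [hp : Fact p.Prime] {N : ℕ} {z : Qb} (hz : IsPrimitiveRoot z (p ^ N))
    {x : Qb} (hx : x ∈ adjoin ℚ {z}) (hi : IsIntegral ℤ x) : ∃ f : ℤ[X], x = aeval z f := by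
  have hz' : IsPrimitiveRoot (⟨z, mem_adjoin_simple_self ℚ z⟩ : adjoin ℚ {z}) (p ^ N) :=
    IsPrimitiveRoot.of_map_of_injective (f := algebraMap (adjoin ℚ {z}) Qb) hz
      (algebraMap (adjoin ℚ {z}) Qb).injective
  have hne : NeZero (p ^ N) := ⟨(pow_pos hp.out.pos N).ne'⟩
  have hcyc : IsCyclotomicExtension {p ^ N} ℚ (adjoin ℚ {z}) :=
    hz.intermediateField_adjoin_isCyclotomicExtension ℚ
  have h1 := IsCyclotomicExtension.Rat.isIntegralClosure_adjoin_singleton_of_prime_pow hz'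
  have hi' : IsIntegral ℤ (⟨x, hx⟩ : adjoin ℚ {z}) :=
    (isIntegral_algebraMap_iff (algebraMap (adjoin ℚ {z}) Qb).injective).mp hi
  obtain ⟨y, hy⟩ := h1.isIntegral_iff.1 hi'
  have h2 : (y : adjoin ℚ {z}) ∈
      (aeval (R := ℤ) (⟨z, mem_adjoin_simple_self ℚ z⟩ : adjoin ℚ {z})).range := by
    rw [← Algebra.adjoin_singleton_eq_range_aeval]
    exact y.2
  obtain ⟨f, hf⟩ := h2
  refine ⟨f, ?_⟩
  have h3 : (⟨x, hx⟩ : adjoin ℚ {z}) =
      aeval (⟨z, mem_adjoin_simple_self ℚ z⟩ : adjoin ℚ {z}) f := by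
    rw [← hy]
    exact hf.symm
  have h4 := congrArg (fun t : adjoin ℚ {z} => (t : Qb)) h3
  simp only at h4
  rw [h4]
  exact (aeval_algebraMap_apply Qb (⟨z, mem_adjoin_simple_self ℚ z⟩ : adjoin ℚ {z}) f).symm

/-- two valuation rings above `r` with the same polynomials in `z` agree on `ℚ(z)` -/
theorem comap_eq {p : ℕ} [hp : Fact p.Prime] {N : ℕ} {z : Qb} (hz : IsPrimitiveRoot z (p ^ N))
    {r : ℕ} (hr : r.Prime) {A B : ValuationSubring Qb} (hA : (r : Qb) ∈ A.nonunits)
    (hB : (r : Qb) ∈ B.nonunits)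
    (h : ∀ f : ℤ[X], aeval z f ∈ A.nonunits ↔ aeval z f ∈ B.nonunits) :
    A.comap (algebraMap (adjoin ℚ {z}) Qb) = B.comap (algebraMap (adjoin ℚ {z}) Qb) := by
  have hfd : FiniteDimensional ℚ (adjoin ℚ {z}) :=
    adjoin.finiteDimensional ((hz.isIntegral (pow_pos hp.out.pos N)).tower_top)
  have hne : ∀ C : ValuationSubring Qb, (r : Qb) ∈ C.nonunits →
      C.comap (algebraMap (adjoin ℚ {z}) Qb) ≠ ⊤ := by
    intro C hC htop
    have h2 : ((r : adjoin ℚ {z}))⁻¹ ∈ C.comap (algebraMap (adjoin ℚ {z}) Qb) := by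
      rw [htop]; trivial
    rw [ValuationSubring.mem_comap, map_inv₀, map_natCast] at h2
    rw [ValuationSubring.mem_nonunits_iff_or] at hC
    rcases hC with h3 | h3
    · exact hr.ne_zero (by exact_mod_cast h3)
    · exact h3 h2
  have hint : ∀ (C : ValuationSubring Qb) (a : ℤ),
      algebraMap ℤ (adjoin ℚ {z}) a ∈ C.comap (algebraMap (adjoin ℚ {z}) Qb) := by
    intro C a
    rw [ValuationSubring.mem_comap]
    apply integral_mem C
    have : algebraMap (adjoin ℚ {z}) Qb (algebraMap ℤ (adjoin ℚ {z}) a) = algebraMap ℤ Qb a := by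
      simp
    rw [this]
    exact isIntegral_algebraMap
  refine Pool.Agent.H639R3.eq_of_integral_nonunits (A := ℤ) (F := ℚ) (M := adjoin ℚ {z}) _ _
    (hint A) (hint B) (hne A hA) (hne B hB) ?_
  intro x hx
  rw [Pool.Agent.H639R3.comap_val_lt_one, Pool.Agent.H639R3.comap_val_lt_one,
    ← ValuationSubring.mem_nonunits_iff, ← ValuationSubring.mem_nonunits_iff]
  have hx' : IsIntegral ℤ (x : Qb) :=
    (isIntegral_algebraMap_iff (algebraMap (adjoin ℚ {z}) Qb).injective).mpr hx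
  obtain ⟨f, hf⟩ := int_elem hz x.2 hx'
  have hf' : algebraMap (adjoin ℚ {z}) Qb x = aeval z f := hf
  rw [hf']
  exact h f

theorem conj_of_comap {r : ℕ} (hr : r.Prime) (M : IntermediateField ℚ Qb) [FiniteDimensional ℚ M]
    {A B : ValuationSubring Qb} (hB : (r : Qb) ∈ B.nonunits)
    (h2 : A.comap (algebraMap M Qb) = B.comap (algebraMap M Qb)) :
    ∃ g ∈ M.fixingSubgroup, A = g • B := by
  have hnf : NumberField M := ⟨⟩
  have hint : ∀ (C : ValuationSubring Qb) (a : NumberField.RingOfIntegers M),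
      algebraMap (NumberField.RingOfIntegers M) M a ∈ C.comap (algebraMap M Qb) := by
    intro C a
    rw [ValuationSubring.mem_comap]
    apply integral_mem C
    exact (NumberField.RingOfIntegers.isIntegral_coe a).map ((algebraMap M Qb).toIntAlgHom)
  have hne : ∀ C : ValuationSubring Qb, (r : Qb) ∈ C.nonunits → C.comap (algebraMap M Qb) ≠ ⊤ := by
    intro C hC htop
    have h2 : ((r : M))⁻¹ ∈ C.comap (algebraMap M Qb) := by rw [htop]; trivial
    rw [ValuationSubring.mem_comap, map_inv₀, map_natCast] at h2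
    rw [ValuationSubring.mem_nonunits_iff_or] at hC
    rcases hC with h3 | h3
    · exact hr.ne_zero (by exact_mod_cast h3)
    · exact h3 h2
  obtain ⟨σ, hσ⟩ := Pool.Agent.H639R3.exists_aut (F := M) (L := Qb)
    (A := NumberField.RingOfIntegers M) B A (hint B) (hne B hB) h2.symm
  let τ : Gal(Qb/ℚ) := σ.restrictScalars ℚ
  have hτ : ∀ x, τ x = σ x := fun _ => rfl
  have hτM : τ ∈ M.fixingSubgroup := by
    rw [IntermediateField.mem_fixingSubgroup_iff]
    intro x hx
    exact σ.commutes (⟨x, hx⟩ : M)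
  refine ⟨τ⁻¹, inv_mem hτM, ?_⟩
  ext a
  rw [ValuationSubring.mem_pointwise_smul_iff_inv_smul_mem, inv_inv, hσ]
  rfl

/-- integers in the maximal ideal -/
theorem int_nonunits {r : ℕ} (hr : r.Prime) {A : ValuationSubring Qb} (hA : (r : Qb) ∈ A.nonunits)
    (n : ℤ) : (n : Qb) ∈ A.nonunits ↔ (r : ℤ) ∣ n := by
  have hZ : ∀ k : ℤ, (k : Qb) ∈ A := fun k => integral_mem A (by
    have : (k : Qb) = algebraMap ℤ Qb k := by simp
    rw [this]
    exact isIntegral_algebraMap)
  constructor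
  · intro h
    by_contra hnd
    have hcop : IsCoprime (r : ℤ) n :=
      (Int.prime_iff_natAbs_prime.2 (by simpa using hr)).coprime_iff_not_dvd.2 hnd
    obtain ⟨a, b, hab⟩ := hcop
    have h1 : (1 : Qb) = (r : Qb) * a + n * b := by
      have := congrArg (fun t : ℤ => (t : Qb)) hab
      push_cast at this
      rw [← this]
      ring
    have h2 : (1 : Qb) ∈ A.nonunits := by
      rw [h1]
      exact add_mem (mul_nonunits hA (hZ a)) (mul_nonunits h (hZ b))
    rw [ValuationSubring.mem_nonunits_iff, map_one] at h2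
    exact lt_irrefl _ h2
  · rintro ⟨k, rfl⟩
    push_cast
    exact mul_nonunits hA (hZ k)

/-- the values of polynomials if `z ≡ 1` -/
theorem nonunits_iff_of_sub_one {r : ℕ} (hr : r.Prime) {A : ValuationSubring Qb}
    (hA : (r : Qb) ∈ A.nonunits) {z : Qb} (hzA : z ∈ A) (hz1 : z - 1 ∈ A.nonunits) (f : ℤ[X]) :
    aeval z f ∈ A.nonunits ↔ (r : ℤ) ∣ f.eval 1 := by
  have h0 : ((f.map (algebraMap ℤ A)).eval ⟨z, hzA⟩ : A) - (f.map (algebraMap ℤ A)).eval 1 =
      ((f.map (algebraMap ℤ A)).eval ⟨z, hzA⟩ : A) - (f.map (algebraMap ℤ A)).eval 1 := rfl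
  obtain ⟨c, hc⟩ := Polynomial.sub_dvd_eval_sub (⟨z, hzA⟩ : A) 1 (f.map (algebraMap ℤ A))
  have h1 : aeval z f - ((f.eval 1 : ℤ) : Qb) = (z - 1) * (c : Qb) := by
    have h2 := congrArg (fun t : A => (t : Qb)) hc
    have h3 : (((f.map (algebraMap ℤ A)).eval ⟨z, hzA⟩ : A) : Qb) = aeval z f := by
      rw [eval_map_algebraMap]
      exact (aeval_algebraMap_apply Qb (⟨z, hzA⟩ : A) f).symm
    have h4 : (((f.map (algebraMap ℤ A)).eval 1 : A) : Qb) = ((f.eval 1 : ℤ) : Qb) := by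
      rw [eval_one_map]
      simp
    have h5 : ((((f.map (algebraMap ℤ A)).eval ⟨z, hzA⟩ : A) -
        (f.map (algebraMap ℤ A)).eval 1 : A) : Qb) = aeval z f - ((f.eval 1 : ℤ) : Qb) := by
      rw [← h3, ← h4]
      rfl
    rw [← h5, h2]
    rfl
  have h6 : (z - 1) * (c : Qb) ∈ A.nonunits := mul_nonunits hz1 c.2
  rw [← h1] at h6
  rw [← int_nonunits hr hA]
  constructor
  · intro h
    have := sub_mem h h6
    rwa [sub_sub_cancel] at this
  · intro h
    have := add_mem h6 h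
    rwa [sub_add_cancel] at this

/-- the Frobenius congruence -/
theorem frob_poly {r : ℕ} (hr : r.Prime) (f : ℤ[X]) : ∃ h : ℤ[X],
    expand ℤ r f = f ^ r + C (r : ℤ) * h := by
  have hf : Fact r.Prime := ⟨hr⟩
  have h1 : (expand ℤ r f - f ^ r).map (Int.castRingHom (ZMod r)) = 0 := by
    rw [Polynomial.map_sub, map_expand, Polynomial.map_pow, ZMod.expand_card, sub_self]
  have h2 : C (r : ℤ) ∣ expand ℤ r f - f ^ r := by
    rw [C_dvd_iff_dvd_coeff]
    intro i
    have h3 := congrArg (fun q => coeff q i) h1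
    simp only [coeff_map, coeff_zero] at h3
    exact (ZMod.intCast_zmod_eq_zero_iff_dvd _ _).1 h3
  obtain ⟨h, hh⟩ := h2
  exact ⟨h, by rw [← hh]; ring⟩

theorem poly_mem {A : ValuationSubring Qb} {z : Qb} (hz : IsIntegral ℤ z) (f : ℤ[X]) :
    aeval z f ∈ A := by
  have h : aeval z f ∈ integralClosure ℤ Qb :=
    adjoin_le_integralClosure hz (Polynomial.aeval_mem_adjoin_singleton ℤ z)
  exact integral_mem A h

theorem frob_nonunits {r : ℕ} (hr : r.Prime) {A : ValuationSubring Qb}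
    (hA : (r : Qb) ∈ A.nonunits) {z : Qb} (hz : IsIntegral ℤ z) {f : ℤ[X]}
    (h : aeval z f ∈ A.nonunits) (k : ℕ) : aeval (z ^ r ^ k) f ∈ A.nonunits := by
  induction k generalizing f z with
  | zero => rwa [pow_zero, pow_one]
  | succ k ih =>
    rw [pow_succ', pow_mul]
    apply ih (hz.pow r)
    obtain ⟨q, hq⟩ := frob_poly hr f
    rw [← expand_aeval, hq, map_add, map_mul, map_pow, aeval_C]
    obtain ⟨s, rfl⟩ : ∃ s, r = s + 1 := ⟨r - 1, by have := hr.pos; omega⟩
    apply add_mem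
    · rw [pow_succ']
      exact mul_nonunits h (A.pow_mem (poly_mem hz f) s)
    · have h2 : algebraMap ℤ Qb ((s + 1 : ℕ) : ℤ) = ((s + 1 : ℕ) : Qb) := by simp
      rw [h2]
      exact mul_nonunits hA (poly_mem hz q)

end Pool.Agent.Run7.h759.UM.P5
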