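import Pool.Agent.Run7.h759.UM.Gen

/-!
# Extensions of `p`-power degree, and the comparison of families
-/

set_option autoImplicit false

namespace Pool.Agent.Run7.h759.UM

open Subgroup Pool.Agent.Q60.MU Pool.Agent.W5h77.MB IntermediateField
open scoped commutatorElement Pointwise ComplexConjugate

theorem grp_pext (t3 : S_pext) (t5 : S_findec) (p : ℕ) [hp : Fact p.Prime] (hp2 : p ≠ 2)
    {I : ValuationSubring Qb → Subgroup Gal(Qb/ℚ)}
    (hI : ∀ (g : Gal(Qb/ℚ)) (w : ValuationSubring Qb), ∀ x ∈ I w, g * x * g⁻¹ ∈ I (g • w))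
    (hI2 : ∀ A : ValuationSubring Qb, (p : Qb) ∉ A.nonunits → I A ≤ inertia A)
    {K B : Subgroup Gal(Qb/ℚ)} (hKB : K ≤ B) (hKn : ∀ b ∈ B, ∀ x ∈ K, b * x * b⁻¹ ∈ K)
    (hKo : IsOpen (K : Set Gal(Qb/ℚ))) (hKf : K.index ≠ 0) {a : ℕ} (ha : K.relIndex B = p ^ a)
    (hbase : ∃ C, ∀ (n : ℕ) (R : IntermediateField ℚ Qb), IsLayer p n R →
      RankLe p I (B ⊓ R.fixingSubgroup) C) :
    ∃ C, ∀ (n : ℕ) (R : IntermediateField ℚ Qb), IsLayer p n R →
      RankLe p I (K ⊓ R.fixingSubgroup) C := by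
  classical
  obtain ⟨t, ht⟩ := ram_bound t5 hp.out hp2 hI2 hKo hKf
  obtain ⟨C, hC⟩ := hbase
  have hBf : B.index ≠ 0 := by
    intro h0
    have h1 := relIndex_mul_index hKB
    rw [h0, mul_zero] at h1
    exact hKf h1.symm
  refine ⟨(cst K.index (K.index * (B.index * t)) * C) ^ K.index, fun n R hR => ?_⟩
  have hRd := layer_fd hp.out hR
  have hRn := layer_normal hp.out hR
  obtain ⟨T0, hT0, hT0'⟩ := ht ⟨R, n, hR⟩
  have hLD : (B ⊓ R.fixingSubgroup).relIndex R.fixingSubgroup ≠ 0 ∧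
      (B ⊓ R.fixingSubgroup).relIndex R.fixingSubgroup ≤ B.index := by
    rw [inf_relIndex_right]
    have hBfi : B.FiniteIndex := ⟨hBf⟩
    exact ⟨(inferInstance : (B.subgroupOf R.fixingSubgroup).FiniteIndex).index_ne_zero,
      relIndex_le_index B _ hBf⟩
  obtain ⟨T', hT'1, hT'2⟩ := exists_TL hLD.1 T0
  obtain ⟨a', -, ha'⟩ := (Nat.dvd_prime_pow hp.out).1
    (ha ▸ relIndex_inf_dvd (D := R.fixingSubgroup) hKB hKn)
  have hle : (K ⊓ R.fixingSubgroup).relIndex (B ⊓ R.fixingSubgroup) ≤ K.index := by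
    have h1 : (K ⊓ R.fixingSubgroup).relIndex (B ⊓ R.fixingSubgroup) =
        K.relIndex (B ⊓ R.fixingSubgroup) := by
      rw [← inf_relIndex_right K]
      congr 1
      ext x
      simp only [Subgroup.mem_inf]
      constructor
      · rintro ⟨h1, h2⟩
        exact ⟨h1, hKB h1, h2⟩
      · rintro ⟨h1, -, h2⟩
        exact ⟨h1, h2⟩
    rw [h1]
    exact relIndex_le_index K _ hKf
  refine t3 Gal(Qb/ℚ) p (ValuationSubring Qb) I (K ⊓ R.fixingSubgroup) (B ⊓ R.fixingSubgroup)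
    K.index (B.index * t) a' C T' hI (inf_le_inf_right _ hKB) ?_ ha' hle ?_ ?_ (hC n R hR)
  · rintro d ⟨hd, hd'⟩ x ⟨hx, hx'⟩
    exact ⟨hKn d hd x hx, hRn.conj_mem x hx' d⟩
  · exact hT'1.trans (Nat.mul_le_mul hLD.2 hT0)
  · intro w
    rcases hT0' w with h | ⟨u, hu, d, hd, rfl⟩
    · left
      rintro x ⟨hx, -, hx'⟩
      exact ⟨h ⟨hx, hx'⟩, hx'⟩
    · right
      obtain ⟨u', hu', l, hl, h⟩ := hT'2 u hu d hd
      exact ⟨u', hu', l, hl, h⟩

/-- **Extensions of `p`-power degree.** -/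
theorem muI_pext (t3 : S_pext) (t5 : S_findec) (t6 : S_rel) (p : ℕ) [hp : Fact p.Prime]
    (hp2 : p ≠ 2) {I : ValuationSubring Qb → Subgroup Gal(Qb/ℚ)}
    (hI : ∀ (g : Gal(Qb/ℚ)) (w : ValuationSubring Qb), ∀ x ∈ I w, g * x * g⁻¹ ∈ I (g • w))
    (hI2 : ∀ A : ValuationSubring Qb, (p : Qb) ∉ A.nonunits → I A ≤ inertia A)
    {F N : IntermediateField ℚ Qb} (hN : FiniteDimensional ℚ N) (hFN : F ≤ N)
    (hst : StableOver F N) {a : ℕ}
    (ha : N.fixingSubgroup.relIndex F.fixingSubgroup = p ^ a) (h : MuI p I F) : MuI p I N := by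
  have hFd : FiniteDimensional ℚ F :=
    Submodule.finiteDimensional_of_le (S₁ := Subalgebra.toSubmodule F.toSubalgebra)
      (S₂ := Subalgebra.toSubmodule N.toSubalgebra) hFN
  obtain ⟨C, hC⟩ := h
  obtain ⟨C', hC'⟩ := grp_pext t3 t5 p hp2 hI hI2 (fixingSubgroup_le hFN) (fixingSubgroup_conj hst)
    N.fixingSubgroup_isOpen (index_ne_zero' N) ha ⟨C, fun n R hR => by
      have hRd := layer_fd hp.out hR
      have h1 := (t6.1 p _ I (F ⊔ R) C inferInstance).2 (hC n R hR)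
      rwa [fixingSubgroup_sup] at h1⟩
  refine ⟨C', fun n R hR => ?_⟩
  have hRd := layer_fd hp.out hR
  have h1 := hC' n R hR
  rw [← fixingSubgroup_sup] at h1
  exact (t6.1 p _ I (N ⊔ R) C' inferInstance).1 h1

/-- Comparison of families. -/
theorem muI_mono {p : ℕ} {I I' : ValuationSubring Qb → Subgroup Gal(Qb/ℚ)}
    (hII : ∀ A, I A ≤ I' A) {F : IntermediateField ℚ Qb} (h : MuI p I F) : MuI p I' F := by
  obtain ⟨C, hC⟩ := h
  exact ⟨C, fun n R hR M h1 h2 h3 h4 h5 h6 => hC n R hR M h1 h2 h3 h4 h5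
    (fun w σ hσ => h6 w σ (hII w hσ))⟩

/-- The base case. -/
theorem muI_bot (t7 : S_base) (p : ℕ) [Fact p.Prime] : MuI p inertia ⊥ := by
  refine ⟨1, fun n R hR => ?_⟩
  rw [bot_sup_eq]
  exact t7 p n R hR

theorem stableOver_bot {N : IntermediateField ℚ Qb} : StableOver ⊥ N ↔ IsGalois ℚ N := by
  refine Iff.trans ?_ (InfiniteGalois.normal_iff_isGalois N)
  constructor
  · intro h
    exact ⟨fun x hx g => fixingSubgroup_conj h g (by
      rw [IntermediateField.mem_fixingSubgroup_iff]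
      intro y hy
      obtain ⟨q, rfl⟩ := IntermediateField.mem_bot.1 hy
      exact g.commutes q) x hx⟩
  · intro h σ _ x hx
    have h1 : N = fixedField N.fixingSubgroup :=
      (InfiniteGalois.fixedField_fixingSubgroup N).symm
    rw [h1, mem_fixedField_iff]
    intro κ hκ
    have h2 := h.conj_mem κ hκ σ⁻¹
    rw [IntermediateField.mem_fixingSubgroup_iff] at h2
    have h3 : κ (σ x) = σ ((σ⁻¹ * κ * σ⁻¹⁻¹) x) := by
      rw [← AlgEquiv.mul_apply, ← AlgEquiv.mul_apply]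
      congr 1
      group
    rw [h3, h2 x hx]

/-- The form for all number fields. -/
theorem all_main (t1 : S_transfer) (t2 : S_comm) (t3 : S_pext) (t5 : S_findec)
    (t6 : S_rel) (p : ℕ) [hp : Fact p.Prime] (hp2 : p ≠ 2)
    {I : ValuationSubring Qb → Subgroup Gal(Qb/ℚ)}
    (hI : ∀ (g : Gal(Qb/ℚ)) (w : ValuationSubring Qb), ∀ x ∈ I w, g * x * g⁻¹ ∈ I (g • w))
    (hI2 : ∀ A : ValuationSubring Qb, (p : Qb) ∉ A.nonunits → I A ≤ inertia A)
    {k : IntermediateField ℚ Qb} (hk : FiniteDimensional ℚ k) (hkg : IsGalois ℚ k)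
    {m : ℕ} (hm : m ≠ 0) :
    (∀ N : IntermediateField ℚ Qb, FiniteDimensional ℚ N → MuI p I N) ↔
    (MuI p I k ∧ ∀ (ℓ : ℕ) (M N : IntermediateField ℚ Qb), ℓ.Prime → ℓ ≠ p → k ≤ M →
      IsGalois ℚ N → UnrStep ℓ m M N → RelI p I M N) := by
  have h := gen_main t1 t2 t3 t5 t6 p hp2 hI hI2 (bot_le : ⊥ ≤ k) hk (stableOver_bot.2 hkg)
    (fun _ => True) trivial (fun _ _ _ _ => trivial) (fun _ _ _ _ _ _ _ => trivial) hm
  constructor
  · intro h0
    obtain ⟨h1, h2⟩ := h.1 (fun N hN _ _ _ => h0 N hN)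
    exact ⟨h1, fun ℓ M N h3 h4 h5 h6 h7 => h2 ℓ M N h3 h4 h5 (stableOver_bot.2 h6) trivial h7⟩
  · rintro ⟨h1, h2⟩ F hF
    obtain ⟨N, hN, hFN, hkN, hNs⟩ := exists_galois F k hF hk
    refine muI_down t6 hp.out hN hFN (h.2 ⟨h1, fun ℓ M N h3 h4 h5 h6 _ h7 =>
      h2 ℓ M N h3 h4 h5 (stableOver_bot.1 h6) h7⟩ N hN hkN hNs trivial)

end Pool.Agent.Run7.h759.UM
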