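import Pool.Agent.Run7.h759.UM.Apply

/-!
# Fields of degree prime to `p`, abelian extensions
-/

set_option autoImplicit false

namespace Pool.Agent.Run7.h759.UM

open Subgroup Pool.Agent.Q60.MU Pool.Agent.W5h77.MB IntermediateField
open scoped commutatorElement Pointwise ComplexConjugate

/-- The degrees of the layers over a field of degree prime to `p`. -/
theorem finrank_prime {p : ℕ} (hp : p.Prime) {N R : IntermediateField ℚ Qb}
    (hNd : FiniteDimensional ℚ N) (hpN : ¬ p ∣ Module.finrank ℚ N) {n : ℕ} (hR : IsLayer p n R) :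
    Module.finrank ℚ ↥(N ⊔ R) = p ^ n * Module.finrank ℚ N := by
  have hRd := layer_fd hp hR
  have hRn := layer_normal hp hR
  have h1 := finrank_layer (N := N) (R := R)
  have h2 : (N.fixingSubgroup ⊓ R.fixingSubgroup).relIndex N.fixingSubgroup ∣ p ^ n := by
    rw [inf_relIndex_left, ← layer_index hp hR]
    exact relIndex_dvd_index_of_normal _ _
  have h3 : p ^ n ∣ (N.fixingSubgroup ⊓ R.fixingSubgroup).relIndex N.fixingSubgroup *
      Module.finrank ℚ N := by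
    rw [← h1, finrank_eq_fixingSubgroup_index Qb, fixingSubgroup_sup, ← layer_index hp hR]
    have h4 : N.fixingSubgroup ⊓ R.fixingSubgroup ≤ R.fixingSubgroup := inf_le_right
    exact index_dvd_of_le h4
  have h4 : Nat.Coprime (p ^ n) (Module.finrank ℚ N) :=
    Nat.Coprime.pow_left n ((Nat.Prime.coprime_iff_not_dvd hp).2 hpN)
  rw [h1, Nat.dvd_antisymm h2 (h4.dvd_of_dvd_mul_right h3)]

/-- A layer with a small relative part, for fields of degree prime to `p`. -/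
def SmallLayer (p : ℕ) (I : ValuationSubring Qb → Subgroup Gal(Qb/ℚ)) (ℓ : ℕ)
    (M N : IntermediateField ℚ Qb) : Prop :=
  ∃ (n f C : ℕ) (R : IntermediateField ℚ Qb), IsLayer p n R ∧ OrdGe p ℓ f ∧
    RelDeg p I (M ⊔ R) (N ⊔ R) C ∧ C < p ^ (f * (p ^ n - 1))

theorem isLayer_bot (p : ℕ) : IsLayer p 0 ⊥ := by
  refine ⟨?_, 0, bot_le⟩
  rw [IntermediateField.finrank_bot, pow_zero]

theorem oneLayer_of_small {p : ℕ} (hp : p.Prime)
    {I : ValuationSubring Qb → Subgroup Gal(Qb/ℚ)} {ℓ : ℕ} {M N : IntermediateField ℚ Qb}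
    (hNd : FiniteDimensional ℚ N) (hpN : ¬ p ∣ Module.finrank ℚ N)
    (hT : ∀ σ : Gal(Qb/ℚ), ∃ j : ℕ, ¬ p ∣ j ∧ ∀ x ∈ N, (σ ^ j) x = x)
    (h : SmallLayer p I ℓ M N) : OneLayer p I ℓ M N := by
  obtain ⟨n, f, C, R, hR, hf, hrel, hC⟩ := h
  refine ⟨0, n, 1, p ^ n, f, C, ⊥, R, isLayer_bot p, hR, Nat.zero_le n, ?_, ?_,
    finrank_prime hp hNd hpN hR, hf, hrel, hC⟩
  · intro σ
    obtain ⟨j, hj, hx⟩ := hT σ
    exact ⟨j, by rwa [zero_add, pow_one], hx⟩
  · rw [sup_bot_eq, one_mul]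

theorem small_of_relI {p : ℕ} (hp : p.Prime) (hp2 : p ≠ 2)
    {I : ValuationSubring Qb → Subgroup Gal(Qb/ℚ)} {ℓ : ℕ} {M N : IntermediateField ℚ Qb}
    (h : RelI p I M N) : SmallLayer p I ℓ M N := by
  obtain ⟨C, hC⟩ := h
  obtain ⟨R, hR⟩ := (Pool.Agent.Run7.h232.UM.t_Q4 p hp hp2).2.2.2.2 (C + 1)
  refine ⟨C + 1, 1, C, R, hR, fun i h1 h2 => absurd h1 (by omega), hC _ R hR, ?_⟩
  rw [one_mul]
  have h1 : C + 1 < p ^ (C + 1) := Nat.lt_pow_self hp.one_lt
  have h2 : p ^ (C + 1) - 1 < p ^ (p ^ (C + 1) - 1) := Nat.lt_pow_self hp.one_lt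
  omega

/-- `N k / k` is abelian. -/
def AbelianOver (k N : IntermediateField ℚ Qb) : Prop :=
  ∀ σ ∈ k.fixingSubgroup, ∀ τ ∈ k.fixingSubgroup, ∀ x ∈ N, σ (τ x) = τ (σ x)

theorem abelian_iff {k N : IntermediateField ℚ Qb} : AbelianOver k N ↔
    ∀ σ ∈ k.fixingSubgroup, ∀ τ ∈ k.fixingSubgroup, ⁅σ, τ⁆ ∈ N.fixingSubgroup := by
  constructor
  · intro h σ hσ τ hτ
    rw [IntermediateField.mem_fixingSubgroup_iff]
    intro x hx
    have h1 := h σ⁻¹ (inv_mem hσ) τ⁻¹ (inv_mem hτ) x hx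
    have h2 : ⁅σ, τ⁆ x = σ (τ (σ⁻¹ (τ⁻¹ x))) := rfl
    rw [h2, h1]
    show (σ * (τ * (τ⁻¹ * σ⁻¹))) x = x
    rw [mul_inv_cancel_left, mul_inv_cancel]
    rfl
  · intro h σ hσ τ hτ x hx
    have h1 := (IntermediateField.mem_fixingSubgroup_iff _ _).1
      (h σ⁻¹ (inv_mem hσ) τ⁻¹ (inv_mem hτ)) x hx
    have h2 : σ (τ x) = τ (σ (⁅σ⁻¹, τ⁻¹⁆ x)) := by
      show (σ * τ) x = (τ * (σ * ⁅σ⁻¹, τ⁻¹⁆)) x
      congr 1
      rw [commutatorElement_def]
      group
    rw [h2, h1]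

theorem abelian_stable {k N : IntermediateField ℚ Qb} (hkN : k ≤ N) (h : AbelianOver k N) :
    StableOver k N := by
  have h1 := InfiniteGalois.fixedField_fixingSubgroup N
  rw [← h1]
  refine stableOver_fixed rfl fun s hs x hx => ?_
  have h2 : s * x * s⁻¹ = ⁅s, x⁆ * x := by
    rw [commutatorElement_def]
    group
  rw [h2]
  exact N.fixingSubgroup.mul_mem (abelian_iff.1 h s hs x (fixingSubgroup_le hkN hx)) hx

/-- The class of the abelian extensions of degree prime to `p`. -/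
theorem closed_abelian {p : ℕ} (hp : p.Prime) {k : IntermediateField ℚ Qb}
    (hk : FiniteDimensional ℚ k) : ClosedClass p (fun N => AbelianOver k N ∧
      ¬ p ∣ Module.finrank ℚ ↥(N ⊔ k)) := by
  constructor
  · rintro N N' ⟨h1, h2⟩ hle
    refine ⟨fun σ hσ τ hτ x hx => h1 σ hσ τ hτ x (hle hx), fun hdv => h2 ?_⟩
    rw [finrank_eq_fixingSubgroup_index Qb] at hdv ⊢
    exact hdv.trans (index_dvd_of_le (fixingSubgroup_le (sup_le_sup_right hle k)))
  · rintro N A ⟨h1, h2⟩ hAd ⟨ℓ, hℓ, hℓp, hAℓ⟩ hAc -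
    have hAc' : AbelianOver k A := fun σ _ τ _ x hx => hAc σ τ x hx
    refine ⟨?_, ?_⟩
    · rw [abelian_iff] at h1 hAc' ⊢
      intro σ hσ τ hτ
      rw [fixingSubgroup_sup]
      exact ⟨h1 σ hσ τ hτ, hAc' σ hσ τ hτ⟩
    · intro hdv
      have hAn : A.fixingSubgroup.Normal := ⟨fun x hx g => by
        have h3 : g * x * g⁻¹ = ⁅g, x⁆ * x := by
          rw [commutatorElement_def]
          group
        have h4 : AbelianOver ⊥ A := fun σ _ τ _ x hx => hAc σ τ x hx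
        have hall : ∀ g : Gal(Qb/ℚ), g ∈ (⊥ : IntermediateField ℚ Qb).fixingSubgroup := by
          intro g
          rw [IntermediateField.mem_fixingSubgroup_iff]
          intro y hy
          obtain ⟨q, rfl⟩ := IntermediateField.mem_bot.1 hy
          exact g.commutes q
        rw [h3]
        exact A.fixingSubgroup.mul_mem (abelian_iff.1 h4 g (hall g) x (hall x)) hx⟩
      have h5 : (N ⊔ A ⊔ k).fixingSubgroup = (N ⊔ k).fixingSubgroup ⊓ A.fixingSubgroup := by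
        rw [← fixingSubgroup_sup]
        congr 1
        rw [sup_right_comm]
      have hle : (N ⊔ k).fixingSubgroup ⊓ A.fixingSubgroup ≤ (N ⊔ k).fixingSubgroup := inf_le_left
      rw [finrank_eq_fixingSubgroup_index Qb, h5, ← relIndex_mul_index hle, inf_relIndex_left,
        hp.dvd_mul] at hdv
      rcases hdv with hdv | hdv
      · have h6 : A.fixingSubgroup.relIndex (N ⊔ k).fixingSubgroup ∣ ℓ := by
          rw [← hAℓ, finrank_eq_fixingSubgroup_index Qb]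
          exact relIndex_dvd_index_of_normal _ _
        exact hℓp ((Nat.prime_dvd_prime_iff_eq hp hℓ).1 (hdv.trans h6)).symm
      · rw [← finrank_eq_fixingSubgroup_index Qb] at hdv
        exact h2 hdv

/-- The subgroup of the elements of `p`-power order modulo `K`. -/
theorem exists_sylow {𝔾 : Type} [Group 𝔾] {p : ℕ} (hp : p.Prime) {K B : Subgroup 𝔾} (hKB : K ≤ B)
    (hc : ∀ x ∈ B, ∀ y ∈ B, ⁅x, y⁆ ∈ K) (hf : K.relIndex B ≠ 0) :
    ∃ L : Subgroup 𝔾, K ≤ L ∧ L ≤ B ∧ (∃ a, K.relIndex L = p ^ a) ∧ ¬ p ∣ L.relIndex B := by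
  have hn : ∀ g ∈ B, ∀ x ∈ K, g * x * g⁻¹ ∈ K := by
    intro g hg x hx
    have h2 : g * x * g⁻¹ = ⁅g, x⁆ * x := by
      rw [commutatorElement_def]
      group
    rw [h2]
    exact K.mul_mem (hc g hg x (hKB hx)) hx
  have hnor : (K.subgroupOf B).Normal := ⟨fun x hx g => by
    rw [mem_subgroupOf] at hx ⊢
    exact hn g g.2 x hx⟩
  have hmk : ∀ x : 𝔾, ∀ hx : x ∈ B, x ∈ K ↔ QuotientGroup.mk' (K.subgroupOf B) ⟨x, hx⟩ = 1 := by
    intro x hx
    refine Iff.trans ?_ (QuotientGroup.eq_one_iff _).symm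
    rw [mem_subgroupOf]
  have hcomm : ∀ x y : B, Commute (QuotientGroup.mk' (K.subgroupOf B) x)
      (QuotientGroup.mk' (K.subgroupOf B) y) := by
    intro x y
    rw [commute_iff_eq, ← commutatorElement_eq_one_iff_mul_comm, ← map_commutatorElement]
    exact (hmk ⁅(x : 𝔾), (y : 𝔾)⁆ (by
      rw [commutatorElement_def]
      exact B.mul_mem (B.mul_mem (B.mul_mem x.2 y.2) (B.inv_mem x.2)) (B.inv_mem y.2))).1
      (hc x x.2 y y.2)
  let L : Subgroup 𝔾 :=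
    { carrier := {x | x ∈ B ∧ ∃ i : ℕ, x ^ p ^ i ∈ K}
      one_mem' := ⟨B.one_mem, 0, by rw [one_pow]; exact K.one_mem⟩
      inv_mem' := by
        rintro x ⟨hx, i, hi⟩
        exact ⟨B.inv_mem hx, i, by rw [inv_pow]; exact K.inv_mem hi⟩
      mul_mem' := by
        rintro x y ⟨hx, i, hi⟩ ⟨hy, j, hj⟩
        refine ⟨B.mul_mem hx hy, i + j, ?_⟩
        rw [hmk _ (B.pow_mem (B.mul_mem hx hy) _)]
        have h1 : (⟨(x * y) ^ p ^ (i + j), B.pow_mem (B.mul_mem hx hy) _⟩ : B) =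
            (⟨x, hx⟩ * ⟨y, hy⟩) ^ p ^ (i + j) := rfl
        rw [h1, map_pow, map_mul, (hcomm _ _).mul_pow]
        have h2 : (QuotientGroup.mk' (K.subgroupOf B) ⟨x, hx⟩) ^ p ^ (i + j) = 1 := by
          rw [pow_add, pow_mul]
          have h3 := (hmk _ (B.pow_mem hx (p ^ i))).1 hi
          have h4 : (⟨x ^ p ^ i, B.pow_mem hx _⟩ : B) = ⟨x, hx⟩ ^ p ^ i := rfl
          rw [h4, map_pow] at h3
          rw [h3, one_pow]
        have h5 : (QuotientGroup.mk' (K.subgroupOf B) ⟨y, hy⟩) ^ p ^ (i + j) = 1 := by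
          rw [add_comm, pow_add, pow_mul]
          have h3 := (hmk _ (B.pow_mem hy (p ^ j))).1 hj
          have h4 : (⟨y ^ p ^ j, B.pow_mem hy _⟩ : B) = ⟨y, hy⟩ ^ p ^ j := rfl
          rw [h4, map_pow] at h3
          rw [h3, one_pow]
        rw [h2, h5, one_mul] }
  have hKL : K ≤ L := fun x hx => ⟨hKB hx, 0, by rwa [pow_zero, pow_one]⟩
  have hLB : L ≤ B := fun x hx => hx.1
  have hmul := relIndex_mul_relIndex K L B hKL hLB
  have hKLf : K.relIndex L ≠ 0 := by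
    intro h0
    rw [h0, zero_mul] at hmul
    exact hf hmul.symm
  have hpf : Fact p.Prime := ⟨hp⟩
  refine ⟨L, hKL, hLB, ?_, ?_⟩
  · refine pgroup_of_empty hKL hKLf (fun b hb => hn b (hLB hb)) p ?_
    rintro c ⟨⟨hcB, i, hi⟩, ℓ, hℓ, hℓp, hcℓ⟩
    have hcop : Nat.Coprime ℓ (p ^ i) :=
      Nat.Coprime.pow_right i ((Nat.coprime_primes hℓ hp).2 hℓp)
    have h3 := Nat.gcd_eq_gcd_ab ℓ (p ^ i)
    rw [hcop] at h3
    have h4 : c = (c ^ ℓ) ^ (Nat.gcdA ℓ (p ^ i)) * (c ^ p ^ i) ^ (Nat.gcdB ℓ (p ^ i)) := by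
      rw [← zpow_natCast c ℓ, ← zpow_natCast c (p ^ i), ← zpow_mul, ← zpow_mul, ← zpow_add, ← h3]
      simp
    rw [h4]
    exact K.mul_mem (K.zpow_mem hcℓ _) (K.zpow_mem hi _)
  · intro hdv
    have hLn : (L.subgroupOf B).Normal := ⟨fun x hx g => by
      rw [mem_subgroupOf] at hx ⊢
      have h2 : (g : 𝔾) * x * (g : 𝔾)⁻¹ = ⁅(g : 𝔾), (x : 𝔾)⁆ * x := by
        rw [commutatorElement_def]
        group
      show (g : 𝔾) * x * (g : 𝔾)⁻¹ ∈ L
      rw [h2]
      exact L.mul_mem (hKL (hc g g.2 x x.2)) hx⟩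
    have hfin : Finite (B ⧸ L.subgroupOf B) := by
      have h1 : (L.subgroupOf B).index ≠ 0 := by
        intro h0
        have h2 : L.relIndex B = 0 := h0
        rw [h2, mul_zero] at hmul
        exact hf hmul.symm
      exact Nat.finite_of_card_ne_zero h1
    have hcard : p ∣ Nat.card (B ⧸ L.subgroupOf B) := hdv
    obtain ⟨y, hy⟩ := exists_prime_orderOf_dvd_card' p hcard
    obtain ⟨⟨y, hyB⟩, rfl⟩ := QuotientGroup.mk'_surjective _ y
    have h1 : y ∉ L := by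
      intro h0
      have h2 : QuotientGroup.mk' (L.subgroupOf B) ⟨y, hyB⟩ = 1 :=
        (QuotientGroup.eq_one_iff _).2 (by rwa [mem_subgroupOf])
      rw [h2, orderOf_one] at hy
      exact hp.one_lt.ne hy
    have h2 : y ^ p ∈ L := by
      have h3 := pow_orderOf_eq_one (QuotientGroup.mk' (L.subgroupOf B) ⟨y, hyB⟩)
      rw [hy, ← map_pow] at h3
      have h4 := (QuotientGroup.eq_one_iff _).1 h3
      rw [mem_subgroupOf] at h4
      exact h4
    obtain ⟨-, i, hi⟩ := h2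
    exact h1 ⟨hyB, i + 1, by rwa [pow_succ', pow_mul]⟩

end Pool.Agent.Run7.h759.UM
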